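import Pool.Agent.N154.TB.Defs
import Pool.Agent.N154.DD.PDefs

/-!
Quasi-projective sets, the strata of their boundary, and punctured discs.
-/

set_option autoImplicit false

open Filter Topology FF LinearAlgebra.Projectivization Pool.Agent.W602.GT
open Pool.Agent.N154.GG (HolMapOn PDisc)
open Pool.Agent.N154.TB (Zeros)

namespace Pool.Agent.N154.TC

variable {n : ℕ}

/-- The cone over the stratum of the projective set `{F = 0}` which is given by a set `I` of
indices: the points which lie on the closed subsets `D a = {P a = 0}` with `a` in `I` and on no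
other `D a`. -/
def Stratum {ι ι' A : Type} (F : ι → MvPolynomial (Fin (n + 1)) ℂ)
    (P : A → ι' → MvPolynomial (Fin (n + 1)) ℂ) (I : Set A) : Set (Fin (n + 1) → ℂ) :=
  {x | x ∈ Cone F ∧ ∀ a, a ∈ I ↔ x ∈ Zeros (P a)}

/-- The cone over the complement of the closed subsets `D a = {P a = 0}` in the projective set
`{F = 0}`. -/
def Compl {ι ι' A : Type} (F : ι → MvPolynomial (Fin (n + 1)) ℂ)
    (P : A → ι' → MvPolynomial (Fin (n + 1)) ℂ) : Set (Fin (n + 1) → ℂ) :=
  {x | x ∈ Cone F ∧ ∀ a, x ∉ Zeros (P a)}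

/-- The closed subset `D = {P = 0}` of the projective set `{F = 0}` is given near each of its points
by one of the forms `P j`: `D` is, as a set, locally given by one equation. -/
def LocOne {ι ι' : Type} (F : ι → MvPolynomial (Fin (n + 1)) ℂ)
    (P : ι' → MvPolynomial (Fin (n + 1)) ℂ) : Prop :=
  ∀ x ∈ Cone F ∩ Zeros P, ∃ j, ∀ᶠ u in 𝓝 x, u ∈ Cone F → val u (P j) = 0 → u ∈ Zeros P

/-- `f` is a holomorphic map from the punctured unit disc to the subset of projective space with the
cone `X`. -/
def PunctX (X : Set (Fin (n + 1) → ℂ)) (f : ℂ → ℙ ℂ (Fin (n + 1) → ℂ)) : Prop :=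
  HolMapOn PDisc f ∧ ∀ z ∈ PDisc, (f z).rep ∈ X

/-- The map `f` of the punctured disc is, in the coordinate `exp z`, the composition of a map of the
set `T` with a holomorphic function on the half-plane. -/
def FactorsExp {E : Type} (T : Set (ℂ → E)) (f : ℂ → E) : Prop :=
  ∃ g ∈ T, ∃ s : ℂ → ℂ, DifferentiableOn ℂ s {z | z.re < 0} ∧
    ∀ z : ℂ, z.re < 0 → f (Complex.exp z) = g (s z)

end Pool.Agent.N154.TC
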