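import Pool.Agent.N154.TC.Geo2
import Pool.Agent.N155.Catch
import Pool.Agent.N154.TC.Defs

/-! Limits of curves in the complement of a hyperbolic divisor. -/

set_option autoImplicit false

open Filter Topology Metric Set LinearAlgebra.Projectivization MvPolynomial

namespace Pool.Agent.N154.TC

open Pool.Agent.N154.TB (Zeros CurveIn IsConst BrodyHyp HypFibres TwoForms)
open FF Pool.Agent.Y190.OP Pool.Agent.W602.GT
open Pool.Agent.N155 (eval_smul val_eval nz nz_Phi nz_codis hurwitz)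
open Pool.Agent.N154.GG (toProj Phi_rep_toProj holMap_of hp_cont)

variable {n : ℕ} {ι ι' A : Type} {F : ι → MvPolynomial (Fin (n + 1)) ℂ}
  {P : A → ι' → MvPolynomial (Fin (n + 1)) ℂ} {P0 : ι' → MvPolynomial (Fin (n + 1)) ℂ}

theorem cone_inter : Cone (Sum.elim F P0) = Cone F ∩ Zeros P0 := by
  ext x
  constructor
  · rintro ⟨h0, h1⟩
    exact ⟨⟨h0, fun i => h1 (Sum.inl i)⟩, fun j => h1 (Sum.inr j)⟩
  · rintro ⟨⟨h0, h1⟩, h2⟩
    exact ⟨h0, fun i => by
      rcases i with i | i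
      · exact h1 i
      · exact h2 i⟩

theorem smul_Zeros_iff (hP : ∀ j, IsForm (P0 j)) {x : Fin (n + 1) → ℂ} {c : ℂ} (hc : c ≠ 0) :
    c • x ∈ Zeros P0 ↔ x ∈ Zeros P0 := by
  refine ⟨fun h => ?_, fun h => Zeros_smul hP _ h c hc⟩
  have := Zeros_smul hP _ h c⁻¹ (inv_ne_zero hc)
  rwa [smul_smul, inv_mul_cancel₀ hc, one_smul] at this

theorem conic_compl (hF : ∀ i, IsForm (F i)) (hP : ∀ a j, IsForm (P a j)) :
    Conic (Compl F P) := by
  intro x hx
  refine ⟨hx.1.1, fun c hc => ⟨(cone_conic hF x hx.1).2 c hc, fun a h => hx.2 a ?_⟩⟩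
  exact (smul_Zeros_iff (hP a) hc).1 h

theorem conic_stratum (hF : ∀ i, IsForm (F i)) (hP : ∀ a j, IsForm (P a j)) (I : Set A) :
    Conic (Stratum F P I) := by
  intro x hx
  refine ⟨hx.1.1, fun c hc => ⟨(cone_conic hF x hx.1).2 c hc, fun a => ?_⟩⟩
  rw [smul_Zeros_iff (hP a) hc]
  exact hx.2 a

/-- a limit of curves outside a divisor lies in the divisor or outside -/
theorem dich_of (hF : ∀ i, IsForm (F i)) (hP : ∀ j, IsForm (P0 j))
    (hloc : LocOne F P0) {𝓤 : Ultrafilter ℕ}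
    {h : ℕ → ℂ → Mat (n + 1)} {H : ℂ → Mat (n + 1)} (hh : ∀ L : ℝ, ∀ᶠ k in (𝓤 : Filter ℕ),
      HolP (ball 0 L) (h k) ∧ ∀ z ∈ ball (0 : ℂ) L, h k z ∈ TS (Cone F \ Zeros P0))
    (hH : HolP univ H) (hHc : CConv (𝓤 : Filter ℕ) univ h H) :
    (∀ z, H z ∈ TS (Cone F ∩ Zeros P0)) ∨ ∀ z, H z ∈ TS (Cone F \ Zeros P0) := by
  have hX := cone_conic hF
  have hXD : Conic (Cone F \ Zeros P0) := by
    intro x hx
    refine ⟨hx.1.1, fun c hc => ⟨(cone_conic hF x hx.1).2 c hc, fun h => hx.2 ?_⟩⟩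
    exact (smul_Zeros_iff hP hc).1 h
  have hcl : ∀ z, H z ∈ TS (Cone F) := by
    intro z
    refine (isCompact_TF hF).isClosed.mem_of_tendsto (hHc.pointwise (mem_univ z)) ?_
    filter_upwards [hh (‖z‖ + 1)] with k hk
    obtain ⟨u, hu, hu'⟩ := hk.2 z (mem_ball_zero_iff.2 (by linarith))
    exact ⟨u, hu.1, hu'⟩
  have hFP : ∀ i, IsForm (Sum.elim F P0 i) := fun i => by
    rcases i with i | i
    · exact hF i
    · exact hP i
  have hXP : Conic (Cone F ∩ Zeros P0) := by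
    rw [← cone_inter]
    exact cone_conic hFP
  have hcont : Continuous H := hp_cont hH
  set A' : Set ℂ := {z | H z ∈ TS (Cone F ∩ Zeros P0)} with hA
  have hAc : IsClosed A' := by
    have h1 : IsClosed (TS (Cone F ∩ Zeros P0)) := by
      rw [← cone_inter]
      exact (isCompact_TF hFP).isClosed
    exact h1.preimage hcont
  have hAo : IsOpen A' := by
    rw [isOpen_iff_mem_nhds]
    intro z0 hz0
    obtain ⟨i, hi⟩ := PM.exists_diag (TS_PM hX (hcl z0))
    have hx0 : chart i (H z0) ∈ Cone F ∩ Zeros P0 := TS_chart hXP hz0 hi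
    obtain ⟨j, hj⟩ := hloc _ hx0
    obtain ⟨V, hVs, hV, hV0⟩ := _root_.mem_nhds_iff.1 hj
    have h2 : ∀ᶠ M : Mat (n + 1) in 𝓝 (H z0), M i i ≠ 0 ∧ chart i M ∈ V :=
      ((continuous_apply_apply i i).continuousAt.eventually_ne hi).and
        ((continuousAt_chart hi).eventually (hV.mem_nhds hV0))
    have h3 := (hHc z0 (mem_univ z0)).eventually h2
    rw [eventually_prod_iff] at h3
    obtain ⟨pa, hpa, pb, hpb, hab⟩ := h3
    obtain ⟨ρ, hρ, hρs⟩ := Metric.mem_nhds_iff.1 (hpb.and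
      ((hcont.continuousAt (x := z0)).eventually h2))
    set f : ℂ → ℂ := fun t => eval (chart i (H t)) (P0 j) with hf
    set g : ℕ → ℂ → ℂ := fun k t => eval (chart i (h k t)) (P0 j) with hg
    have hev : Differentiable ℂ (fun u : Fin (n + 1) → ℂ => eval u (P0 j)) := by
      intro u
      simp only [eval_eq']
      fun_prop
    have hfd : DifferentiableOn ℂ f (ball z0 ρ) := fun t ht =>
      ((hev _).comp t (hH.diff_chart (mem_univ t) (hρs ht).2.1)).differentiableWithinAt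
    have hgc : CConv (𝓤 : Filter ℕ) (ball z0 ρ) g f := by
      intro t ht
      have e1 : ContinuousAt (fun M : Mat (n + 1) => eval (chart i M) (P0 j)) (H t) :=
        (hev _).continuousAt.comp (continuousAt_chart (hρs ht).2.1)
      exact e1.tendsto.comp (hHc t (mem_univ t))
    have hgd : ∀ᶠ k in (𝓤 : Filter ℕ), DifferentiableOn ℂ (g k) (ball z0 ρ) := by
      filter_upwards [hh (‖z0‖ + ρ), hpa] with k hk hka t ht
      have ht' : t ∈ ball (0 : ℂ) (‖z0‖ + ρ) := by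
        rw [mem_ball, dist_eq_norm] at ht
        rw [mem_ball_zero_iff]
        have := norm_add_le (t - z0) z0
        rw [sub_add_cancel] at this
        linarith
      exact ((hev _).comp t (hk.1.diff_chart ht' (hab hka (hρs ht).1).1)).differentiableWithinAt
    have hfz : f z0 = 0 := by
      have := hx0.2 j
      rwa [val_eval] at this
    have hfan : AnalyticAt ℂ f z0 := hfd.analyticAt (ball_mem_nhds z0 hρ)
    have hf0 : ∀ᶠ t in 𝓝 z0, f t = 0 := by
      rcases hfan.eventually_eq_zero_or_eventually_ne_zero with h4 | h4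
      · exact h4
      · exfalso
        have h5 := hurwitz isOpen_ball hgc hgd (mem_ball_self hρ) hfz h4 hρ
        obtain ⟨k, ⟨w, hw, hw0⟩, hka, hk⟩ := (h5.and (hpa.and (hh (‖z0‖ + ρ)))).exists
        have hw' : w ∈ ball (0 : ℂ) (‖z0‖ + ρ) := by
          rw [mem_ball, dist_eq_norm] at hw
          rw [mem_ball_zero_iff]
          have := norm_add_le (w - z0) z0
          rw [sub_add_cancel] at this
          linarith
        obtain ⟨e1, e2⟩ := hab hka (hρs hw).1
        have e3 := TS_chart hXD (hk.2 w hw') e1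
        have e4 : val (chart i (h k w)) (P0 j) = 0 := by
          rw [val_eval]
          exact hw0
        exact e3.2 (hVs e2 e3.1 e4)
    filter_upwards [hf0, ball_mem_nhds z0 hρ] with t ht htρ
    obtain ⟨e1, e2⟩ := (hρs htρ).2
    have e3 := TS_chart hX (hcl t) e1
    have e4 : val (chart i (H t)) (P0 j) = 0 := by
      rw [val_eval]
      exact ht
    exact ⟨_, ⟨e3, hVs e2 e3 e4⟩, (PM.Phi_chart (TS_PM hX (hcl t)) e1).symm⟩
  rcases isClopen_iff.1 ⟨hAc, hAo⟩ with h1 | h1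
  · right
    intro z
    obtain ⟨u, hu, hu'⟩ := hcl z
    refine ⟨u, ⟨hu, fun hP => ?_⟩, hu'⟩
    have : z ∈ A' := ⟨u, ⟨hu, hP⟩, hu'⟩
    rw [h1] at this
    exact this
  · left
    intro z
    have : z ∈ A' := by
      rw [h1]
      exact mem_univ z
    exact this

/-- **Limits** of curves in the complement -/
theorem hz_of (hF : ∀ i, IsForm (F i)) (hP : ∀ a j, IsForm (P a j))
    (hD : ∀ I : Set A, I.Nonempty → BrodyHyp (Stratum F P I)) (hloc : ∀ a, LocOne F (P a))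
    (𝓤 : Ultrafilter ℕ)
    (h : ℕ → ℂ → Mat (n + 1)) (H : ℂ → Mat (n + 1)) (hh : ∀ L : ℝ, ∀ᶠ k in (𝓤 : Filter ℕ),
      HolP (ball 0 L) (h k) ∧ ∀ z ∈ ball (0 : ℂ) L, h k z ∈ TS (Compl F P))
    (hH : HolP univ H) (hHc : CConv (𝓤 : Filter ℕ) univ h H) (hne : ¬ ∀ z, H z = H 0) (z : ℂ) :
    H z ∈ TS (Compl F P) := by
  have hX := cone_conic hF
  have hdich : ∀ a, (∀ z, H z ∈ TS (Cone F ∩ Zeros (P a))) ∨
      ∀ z, H z ∈ TS (Cone F \ Zeros (P a)) := fun a =>
    dich_of hF (hP a) (hloc a) (fun L => (hh L).mono fun k hk => ⟨hk.1, fun z hz => by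
      obtain ⟨u, hu, e⟩ := hk.2 z hz
      exact ⟨u, ⟨hu.1, hu.2 a⟩, e⟩⟩) hH hHc
  have hcl : ∀ z, H z ∈ TS (Cone F) := by
    intro z
    refine (isCompact_TF hF).isClosed.mem_of_tendsto (hHc.pointwise (mem_univ z)) ?_
    filter_upwards [hh (‖z‖ + 1)] with k hk
    obtain ⟨u, hu, hu'⟩ := hk.2 z (mem_ball_zero_iff.2 (by linarith))
    exact ⟨u, hu.1, hu'⟩
  -- a point of the curve lies on `D a` if and only if the whole curve does
  have hu : ∀ z (u : Fin (n + 1) → ℂ), u ∈ Cone F → H z = Phi u → ∀ a,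
      ((∀ z, H z ∈ TS (Cone F ∩ Zeros (P a))) ↔ u ∈ Zeros (P a)) := by
    intro z u hu e a
    have hcon : ∀ v : Fin (n + 1) → ℂ, v ≠ 0 → H z = Phi v →
        (v ∈ Zeros (P a) ↔ u ∈ Zeros (P a)) := by
      intro v hv e'
      rw [e] at e'
      obtain ⟨c, hc, hc'⟩ := Phi_inj hu.1 hv e'
      rw [hc']
      exact smul_Zeros_iff (hP a) hc
    constructor
    · intro h1
      obtain ⟨v, hv, e'⟩ := h1 z
      exact (hcon v hv.1.1 e').1 hv.2
    · intro h1
      rcases hdich a with h2 | h2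
      · exact h2
      · exfalso
        obtain ⟨v, hv, e'⟩ := h2 z
        exact hv.2 ((hcon v hv.1.1 e').2 h1)
  set I : Set A := {a | ∀ z, H z ∈ TS (Cone F ∩ Zeros (P a))} with hI
  have hmem : ∀ z, H z ∈ TS (Stratum F P I) := by
    intro z
    obtain ⟨u, huF, e⟩ := hcl z
    exact ⟨u, ⟨huF, fun a => hu z u huF e a⟩, e⟩
  rcases I.eq_empty_or_nonempty with h1 | h1
  · obtain ⟨u, huS, e⟩ := hmem z
    refine ⟨u, ⟨huS.1, fun a ha => ?_⟩, e⟩
    have h2 := (huS.2 a).2 ha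
    rw [h1] at h2
    exact h2
  · exfalso
    apply hne
    intro w
    have hXP := conic_stratum hF hP I
    have h2 := hD I h1 (fun z => toProj (H z)) ⟨holMap_of hH, fun z => rep_toProj hXP (hmem z)⟩
      w 0
    have h3 := congrArg (fun p : ℙ ℂ (Fin (n + 1) → ℂ) => Phi p.rep) h2
    change Phi (toProj (H w)).rep = Phi (toProj (H 0)).rep at h3
    rwa [Phi_rep_toProj (TS_PM hXP (hmem w)), Phi_rep_toProj (TS_PM hXP (hmem 0))] at h3

end Pool.Agent.N154.TC
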