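import Pool.Agent.N154.GG.Sig
import Pool.Agent.N154.DD.Sig

/-! The scale of a vector valued holomorphic function on a disc. -/

set_option autoImplicit false

open Filter Topology Metric Set

namespace Pool.Agent.N154.TC

open Pool.Agent.N154.GG (root_le ball_sub_l)

variable {E : Type*} [NormedAddCommGroup E] [NormedSpace ℂ E] [CompleteSpace E]

/-- the norms of the Taylor coefficients -/
noncomputable def cv (φ : ℂ → E) (m : ℕ) (z : ℂ) : ℝ := ‖iteratedDeriv m φ z‖ / m.factorial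

/-- the scale -/
noncomputable def sv (φ : ℂ → E) (z : ℂ) : ℝ :=
  ⨆ m : ℕ, (cv φ (m + 1) z) ^ (((m + 1 : ℕ) : ℝ)⁻¹)

variable {φ : ℂ → E} {z : ℂ} {R : ℝ}

omit [CompleteSpace E] in
theorem cv_nonneg (φ : ℂ → E) (m : ℕ) (z : ℂ) : 0 ≤ cv φ m z := by
  unfold cv
  positivity

omit [CompleteSpace E] in
theorem sv_le {s : ℝ} (hs : 0 ≤ s) (h : ∀ m : ℕ, cv φ (m + 1) z ≤ s ^ (m + 1)) :
    sv φ z ≤ s := ciSup_le fun m => root_le (cv_nonneg _ _ _) hs (h m)

theorem cv_le_l (hφ : DifferentiableOn ℂ φ (ball z R)) {c : E} {ρ C : ℝ} (hρ : 0 < ρ) (hρR : ρ < R)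
    (h : ∀ w ∈ sphere z ρ, ‖φ w - c‖ ≤ C) (m : ℕ) : cv φ (m + 1) z ≤ C / ρ ^ (m + 1) := by
  have h1 : iteratedDeriv (m + 1) φ z = iteratedDeriv (m + 1) (fun w => φ w - c) z := by
    rw [iteratedDeriv_succ', iteratedDeriv_succ']
    congr 1
    funext w
    rw [deriv_sub_const]
  have hd : DiffContOnCl ℂ (fun w => φ w - c) (ball z ρ) :=
    (hφ.sub_const c).diffContOnCl_ball (closedBall_subset_ball hρR)
  have h2 := Complex.norm_iteratedDeriv_le_of_forall_mem_sphere_norm_le (m + 1) hρ hd h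
  rw [← h1] at h2
  unfold cv
  rw [div_le_iff₀ (by positivity)]
  refine h2.trans (le_of_eq ?_)
  ring

theorem bddAbove_sv_l (hφ : DifferentiableOn ℂ φ (ball z R)) (hR : 0 < R) :
    BddAbove (range fun m : ℕ => (cv φ (m + 1) z) ^ (((m + 1 : ℕ) : ℝ)⁻¹)) := by
  have hρ : 0 < R / 2 := by positivity
  have hρR : R / 2 < R := by linarith
  have hc : ContinuousOn (fun w => ‖φ w - 0‖) (sphere z (R / 2)) :=
    ((hφ.continuousOn.mono (sphere_subset_closedBall.trans (closedBall_subset_ball hρR))).sub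
      continuousOn_const).norm
  obtain ⟨C, hC⟩ := (isCompact_sphere z (R / 2)).bddAbove_image hc
  have hC' : ∀ w ∈ sphere z (R / 2), ‖φ w - 0‖ ≤ max C 1 := fun w hw =>
    (hC ⟨w, hw, rfl⟩).trans (le_max_left _ _)
  refine ⟨max C 1 / (R / 2), ?_⟩
  rintro _ ⟨m, rfl⟩
  refine root_le (cv_nonneg _ _ _) (by positivity) ?_
  have h1 := cv_le_l hφ hρ hρR hC' m
  rw [div_pow]
  exact h1.trans (div_le_div_of_nonneg_right (le_self_pow₀ (le_max_right _ _) (Nat.succ_ne_zero m))
    (by positivity))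

omit [CompleteSpace E] in
theorem sv_nn (φ : ℂ → E) (z : ℂ) : 0 ≤ sv φ z :=
  Real.iSup_nonneg fun _ => Real.rpow_nonneg (cv_nonneg _ _ _) _

theorem cv_le_sv_l (hφ : DifferentiableOn ℂ φ (ball z R)) (hR : 0 < R) (m : ℕ) :
    cv φ (m + 1) z ≤ sv φ z ^ (m + 1) := by
  have h1 : (cv φ (m + 1) z) ^ (((m + 1 : ℕ) : ℝ)⁻¹) ≤ sv φ z := le_ciSup (bddAbove_sv_l hφ hR) m
  have h2 := pow_le_pow_left₀ (Real.rpow_nonneg (cv_nonneg φ (m + 1) z) _) h1 (m + 1)
  rwa [Real.rpow_inv_natCast_pow (cv_nonneg _ _ _) (Nat.succ_ne_zero m)] at h2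

theorem deriv_le_sv_l (hφ : DifferentiableOn ℂ φ (ball z R)) (hR : 0 < R) :
    ‖deriv φ z‖ ≤ sv φ z := by
  have := cv_le_sv_l hφ hR 0
  unfold cv at this
  rw [zero_add, iteratedDeriv_one, Nat.factorial_one, pow_one] at this
  simpa using this

theorem sv_le_of_bound_l (hφ : DifferentiableOn ℂ φ (ball z R)) {c : E} {ρ : ℝ} (hρ : 0 < ρ)
    (hρR : ρ < R) (h : ∀ w ∈ sphere z ρ, ‖φ w - c‖ ≤ 1) : sv φ z ≤ 1 / ρ := by
  apply sv_le (by positivity)
  intro m
  rw [div_pow, one_pow]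
  exact cv_le_l hφ hρ hρR h m

/-- Taylor's formula -/
theorem taylor_bound_l (hφ : DifferentiableOn ℂ φ (ball z R)) {w : ℂ} (hw : w ∈ ball z R)
    (h : ‖w - z‖ * sv φ z ≤ 1 / 2) : ‖φ w - φ z‖ ≤ 1 := by
  have hR : 0 < R := pos_of_mem_ball hw
  have h1 := Complex.hasSum_taylorSeries_on_ball hφ hw
  have h2 := (hasSum_nat_add_iff' 1).2 h1
  rw [Finset.sum_range_one, Nat.factorial_zero, pow_zero, iteratedDeriv_zero, Nat.cast_one,
    inv_one, one_smul, one_smul] at h2
  refine HasSum.norm_le_of_bounded h2 (hasSum_geometric_two' 1) fun m => ?_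
  rw [norm_smul, norm_smul, norm_inv, norm_pow, Complex.norm_natCast]
  have h4 : ((m + 1).factorial : ℝ)⁻¹ * (‖w - z‖ ^ (m + 1) * ‖iteratedDeriv (m + 1) φ z‖) =
      ‖w - z‖ ^ (m + 1) * cv φ (m + 1) z := by
    unfold cv
    field_simp
  rw [h4]
  calc ‖w - z‖ ^ (m + 1) * cv φ (m + 1) z ≤ ‖w - z‖ ^ (m + 1) * sv φ z ^ (m + 1) :=
        mul_le_mul_of_nonneg_left (cv_le_sv_l hφ hR m) (by positivity)
    _ = (‖w - z‖ * sv φ z) ^ (m + 1) := by rw [mul_pow]
    _ ≤ (1 / 2) ^ (m + 1) :=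
        pow_le_pow_left₀ (mul_nonneg (norm_nonneg _) (sv_nn φ z)) h _
    _ = 1 / 2 / 2 ^ m := by
        rw [pow_succ, div_pow, one_pow]
        ring

theorem const_of_sv_zero_l (hφ : DifferentiableOn ℂ φ (ball z R)) (h : sv φ z = 0) {w : ℂ}
    (hw : w ∈ ball z R) : φ w = φ z := by
  have hR : 0 < R := pos_of_mem_ball hw
  have h1 := Complex.hasSum_taylorSeries_on_ball hφ hw
  have h2 : ∀ m : ℕ, m ≠ 0 → ((m.factorial : ℂ)⁻¹ • (w - z) ^ m • iteratedDeriv m φ z) = 0 := by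
    intro m hm
    obtain ⟨k, rfl⟩ := Nat.exists_eq_succ_of_ne_zero hm
    have h3 := cv_le_sv_l hφ hR k
    rw [h, zero_pow (Nat.succ_ne_zero k)] at h3
    have h4 : cv φ (k + 1) z = 0 := le_antisymm h3 (cv_nonneg _ _ _)
    unfold cv at h4
    have h5 : iteratedDeriv (k + 1) φ z = 0 := by
      rw [div_eq_zero_iff] at h4
      rcases h4 with h4 | h4
      · exact norm_eq_zero.1 h4
      · exact absurd h4 (by positivity)
    change (((k + 1).factorial : ℂ)⁻¹ • (w - z) ^ (k + 1) • iteratedDeriv (k + 1) φ z) = 0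
    rw [h5, smul_zero, smul_zero]
  have h3 := h1.unique (hasSum_single 0 h2)
  rw [h3, Nat.factorial_zero, pow_zero, iteratedDeriv_zero, Nat.cast_one, inv_one, one_smul,
    one_smul]

/-- a Harnack inequality for the scale -/
theorem sv_harnack_l (hφ : DifferentiableOn ℂ φ (ball z R)) {w : ℂ} {s : ℝ} (hs : 0 < s)
    (hsg : sv φ z ≤ s) (hR : 1 ≤ R * s) (h : 4 * ‖w - z‖ * s ≤ 1) : sv φ w ≤ 4 * s := by
  have hR0 : 0 < R := by
    by_contra hcon
    push Not at hcon
    nlinarith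
  have h4 : 0 < 1 / (4 * s) := by positivity
  have e1 : ‖w - z‖ ≤ 1 / (4 * s) := by
    rw [le_div_iff₀ (by positivity)]
    linarith
  have e2 : 1 / (4 * s) ≤ R / 4 := by
    rw [div_le_div_iff₀ (by positivity) (by norm_num)]
    linarith
  have hsub : ball w (1 / (2 * s)) ⊆ ball z R := by
    apply ball_subset_ball'
    rw [dist_eq_norm]
    have : 1 / (2 * s) = 1 / (4 * s) + 1 / (4 * s) := by
      field_simp
      norm_num
    linarith
  have h1 := sv_le_of_bound_l (z := w) (R := 1 / (2 * s)) (hφ.mono hsub) (c := φ z) h4 (by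
      apply one_div_lt_one_div_of_lt (by positivity)
      linarith) (by
      intro x hx
      rw [mem_sphere, dist_eq_norm] at hx
      have h2 : ‖x - z‖ ≤ ‖x - w‖ + ‖w - z‖ := by
        have := norm_add_le (x - w) (w - z)
        rwa [sub_add_sub_cancel] at this
      have h3 : ‖x - z‖ ≤ 1 / (2 * s) := by
        have : 1 / (2 * s) = 1 / (4 * s) + 1 / (4 * s) := by
          field_simp
          norm_num
        linarith
      apply taylor_bound_l hφ
      · rw [mem_ball, dist_eq_norm]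
        have : 1 / (2 * s) = 1 / (4 * s) + 1 / (4 * s) := by
          field_simp
          norm_num
        linarith
      · calc ‖x - z‖ * sv φ z ≤ 1 / (2 * s) * s := by
              have := sv_nn φ z
              gcongr
          _ = 1 / 2 := by field_simp)
  rwa [one_div_one_div] at h1

omit [CompleteSpace E] in
theorem iteratedDeriv_aff (φ : ℂ → E) (z0 c : ℂ) (m : ℕ) :
    iteratedDeriv m (fun t => φ (z0 + c * t)) = fun t => c ^ m • iteratedDeriv m φ (z0 + c * t) := by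
  induction m with
  | zero =>
    funext t
    simp
  | succ m ih =>
    rw [iteratedDeriv_succ, ih]
    funext t
    have h0 : deriv (fun t => c ^ m • iteratedDeriv m φ (z0 + c * t)) t =
        c ^ m • deriv (fun t => iteratedDeriv m φ (z0 + c * t)) t :=
      deriv_const_smul_field (c ^ m) (fun t => iteratedDeriv m φ (z0 + c * t))
    rw [h0]
    have h1 := deriv_comp_mul_left c (fun s => iteratedDeriv m φ (z0 + s)) t
    have h2 : deriv (fun s => iteratedDeriv m φ (z0 + s)) (c * t) =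
        deriv (iteratedDeriv m φ) (z0 + c * t) := deriv_comp_const_add (iteratedDeriv m φ) z0 (c * t)
    rw [h2] at h1
    rw [h1, iteratedDeriv_succ, pow_succ, smul_smul]

omit [CompleteSpace E] in
/-- affine changes of variables -/
theorem cv_comp_l (φ : ℂ → E) (z0 c : ℂ) (l : E) (m : ℕ) (t : ℂ) :
    cv (fun t => φ (z0 + c * t) - l) (m + 1) t = ‖c‖ ^ (m + 1) * cv φ (m + 1) (z0 + c * t) := by
  have h1 : iteratedDeriv (m + 1) (fun t => φ (z0 + c * t) - l) t =
      iteratedDeriv (m + 1) (fun t => φ (z0 + c * t)) t := by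
    rw [iteratedDeriv_succ', iteratedDeriv_succ']
    congr 1
    funext w
    rw [deriv_sub_const]
  unfold cv
  rw [h1, iteratedDeriv_aff, norm_smul, norm_pow, mul_div_assoc]

omit [CompleteSpace E] in
theorem sv_comp_l (φ : ℂ → E) (z0 c : ℂ) (l : E) (t : ℂ) :
    sv (fun t => φ (z0 + c * t) - l) t = ‖c‖ * sv φ (z0 + c * t) := by
  unfold sv
  rw [Real.mul_iSup_of_nonneg (norm_nonneg c)]
  congr 1
  funext m
  rw [cv_comp_l φ, Real.mul_rpow (by positivity) (cv_nonneg _ _ _),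
    Real.pow_rpow_inv_natCast (norm_nonneg c) (Nat.succ_ne_zero m)]

omit [CompleteSpace E] in
/-- the supremum is almost attained -/
theorem exists_cv_l {s : ℝ} (hs : 0 ≤ s) (h : s < sv φ z) :
    ∃ m : ℕ, s ^ (m + 1) < cv φ (m + 1) z := by
  by_contra hcon
  push Not at hcon
  exact absurd (sv_le hs hcon) (not_le.2 h)

theorem diff_it_l {L : ℝ} {f : ℂ → E} (hf : DifferentiableOn ℂ f (ball 0 L)) (m : ℕ) :
    DifferentiableOn ℂ (iteratedDeriv m f) (ball 0 L) := by
  have h1 : AnalyticOnNhd ℂ f (ball 0 L) := hf.analyticOnNhd isOpen_ball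
  rw [iteratedDeriv_eq_iterate]
  exact (h1.iterated_deriv m).differentiableOn

theorem ball_sub_l {w : ℂ} {L : ℝ} : ball w (L - ‖w‖) ⊆ ball (0 : ℂ) L := by
  apply ball_subset_ball'
  rw [dist_zero_right]
  linarith

/-- the maximum principle -/
theorem sv_max_l {L : ℝ} (hφ : DifferentiableOn ℂ φ (ball 0 L)) {s r : ℝ} (hs : 0 ≤ s)
    (h : s < sv φ z) (hz : ‖z‖ < r) (hr : r < L) : ∃ w : ℂ, ‖w‖ = r ∧ s < sv φ w := by
  obtain ⟨m, hm⟩ := exists_cv_l hs h
  by_contra hcon
  push Not at hcon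
  have hdiff := diff_it_l hφ (m + 1)
  have hr0 : 0 < r := (norm_nonneg z).trans_lt hz
  have h1 := Complex.norm_le_of_forall_mem_frontier_norm_le (f := iteratedDeriv (m + 1) φ)
    (U := ball 0 r) (C := s ^ (m + 1) * (m + 1).factorial) isBounded_ball
    (hdiff.diffContOnCl_ball (closedBall_subset_ball hr)) (by
      intro w hw
      rw [frontier_ball (0 : ℂ) hr0.ne', mem_sphere_zero_iff_norm] at hw
      have h2 := (cv_le_sv_l (hφ.mono ball_sub_l) (z := w) (R := L - ‖w‖) (by linarith) m).trans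
        (pow_le_pow_left₀ (sv_nn φ w) (hcon w hw) (m + 1))
      unfold cv at h2
      rwa [div_le_iff₀ (by positivity)] at h2)
    (subset_closure (mem_ball_zero_iff.2 hz))
  apply absurd hm
  push Not
  unfold cv
  rwa [div_le_iff₀ (by positivity)]

end Pool.Agent.N154.TC
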