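import Pool.Agent.N154.TC.Seq

/-! Circles which avoid the crossing points, for abelian varieties. -/

set_option autoImplicit false

open Filter Topology Metric Set

namespace Pool.Agent.N154.TC

open Pool.Agent.Y190.OP Pool.Agent.N155
open Pool.Agent.N154.GG (holP_comp hp_cont)

variable {N m : ℕ} {T : Set (Mat N)} {Λ : AddSubgroup (Fin m → ℂ)} {a : Mat N → Fin m → ℂ}
  {r : ℕ} {v β : Fin r → Fin m → ℂ} {ℓ : Fin r → ((Fin m → ℂ) →L[ℂ] ℂ)}
  {e : Fin r → ℂ → Mat N}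

/-- the product of the distances to the other comparison maps -/
noncomputable def Ev (ℓ : Fin r → ((Fin m → ℂ) →L[ℂ] ℂ)) (e : Fin r → ℂ → Mat N) (i : Fin r)
    (w : Fin m → ℂ) : ℝ := ∏ j ∈ Finset.univ.erase i, ‖FF ℓ e i w - FF ℓ e j w‖

theorem FF_cont (hE : En T Λ a v β ℓ e) (j : Fin r) : Continuous (FF ℓ e j) :=
  (hp_cont (hE.lin j).hol).comp (ℓ j).continuous

theorem Ev_cont (hE : En T Λ a v β ℓ e) (i : Fin r) : Continuous (Ev ℓ e i) := by
  unfold Ev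
  exact continuous_finsetProd _ fun j _ => ((FF_cont hE i).sub (FF_cont hE j)).norm

theorem FF_line (hE : En T Λ a v β ℓ e) (j : Fin r) (x w : Fin m → ℂ) :
    HolP univ (fun t : ℂ => FF ℓ e j (t • x + w)) := by
  have h1 : Differentiable ℂ (fun t : ℂ => ℓ j (t • x + w)) := by
    have h2 : (fun t : ℂ => ℓ j (t • x + w)) = fun t => t * ℓ j x + ℓ j w := by
      funext t
      rw [map_add, map_smul, smul_eq_mul]
    rw [h2]
    fun_prop
  exact holP_comp (hE.lin j).hol h1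

theorem exists_pos_le (f : Fin r → ℝ) (h : ∀ i, 0 < f i) : ∃ ε > 0, ∀ i, ε ≤ f i := by
  rcases isEmpty_or_nonempty (Fin r) with h0 | h0
  · exact ⟨1, one_pos, fun i => (h0.false i).elim⟩
  · obtain ⟨i, hi⟩ := Finite.exists_min f
    exact ⟨f i, h i, hi⟩

theorem Ev_ev (hE : En T Λ a v β ℓ e) (i : Fin r) (w : Fin m → ℂ) :
    ∀ᶠ s in 𝓝[≠] (0 : ℂ), Ev ℓ e i (s • v i + w) ≠ 0 := by
  have h1 : ∀ j ∈ Finset.univ.erase i, ∀ᶠ s in 𝓝[≠] (0 : ℂ),
      FF ℓ e i (s • v i + w) ≠ FF ℓ e j (s • v i + w) := by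
    intro j hj
    apply codis_ev
    refine (holP_dich (FF_line hE i (v i) w) (FF_line hE j (v i) w)).resolve_left fun h => ?_
    obtain ⟨t, ht⟩ := hE.sep i j (Finset.ne_of_mem_erase hj).symm w
    exact ht (h t)
  have h2 : ∀ᶠ s in 𝓝[≠] (0 : ℂ), ∀ j ∈ Finset.univ.erase i,
      FF ℓ e i (s • v i + w) ≠ FF ℓ e j (s • v i + w) := (Finset.eventually_all _).2 h1
  filter_upwards [h2] with z hz
  unfold Ev
  exact Finset.prod_ne_zero_iff.2 fun j hj => norm_ne_zero_iff.2 (sub_ne_zero.2 (hz j hj))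

/-- **Circles which avoid the crossing points** -/
theorem circles_v (hT : TV T Λ a) (hE : En T Λ a v β ℓ e) {ρ0 : ℝ} (hρ0 : 0 < ρ0) :
    ∃ ε > 0, ∀ (i : Fin r) (w : Fin m → ℂ), ∃ ρ > 0, ρ ≤ ρ0 ∧ ∀ s ∈ sphere (0 : ℂ) ρ,
      ε ≤ Ev ℓ e i (s • v i + w) := by
  obtain ⟨D, hD⟩ := hT.coc
  have hloc : ∀ i : Fin r, ∃ ε > 0, ∀ w ∈ closedBall (0 : Fin m → ℂ) D, ∃ ρ > 0, ρ ≤ ρ0 ∧
      ∀ s ∈ sphere (0 : ℂ) ρ, ε ≤ Ev ℓ e i (s • v i + w) := by
    intro i
    refine (isCompact_closedBall (0 : Fin m → ℂ) D).induction_on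
      (p := fun A => ∃ ε > 0, ∀ w ∈ A, ∃ ρ > 0, ρ ≤ ρ0 ∧ ∀ s ∈ sphere (0 : ℂ) ρ,
        ε ≤ Ev ℓ e i (s • v i + w))
      ⟨1, one_pos, fun s hs => absurd hs (notMem_empty _)⟩ ?_ ?_ ?_
    · rintro A A' hAA ⟨ε, hε, h⟩
      exact ⟨ε, hε, fun s hs => h s (hAA hs)⟩
    · rintro A A' ⟨ε, hε, h⟩ ⟨ε', hε', h'⟩
      refine ⟨min ε ε', lt_min hε hε', fun s hs => ?_⟩
      rcases hs with hs | hs
      · obtain ⟨ρ, h1, h2, h3⟩ := h s hs
        exact ⟨ρ, h1, h2, fun s' hs' => (min_le_left _ _).trans (h3 s' hs')⟩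
      · obtain ⟨ρ, h1, h2, h3⟩ := h' s hs
        exact ⟨ρ, h1, h2, fun s' hs' => (min_le_right _ _).trans (h3 s' hs')⟩
    · intro w _
      have h1 := Ev_ev hE i w
      rw [eventually_nhdsWithin_iff] at h1
      obtain ⟨R, hR, hRs⟩ := Metric.mem_nhds_iff.1 h1
      set ρ : ℝ := min ρ0 (R / 2) with hρ
      have hρpos : 0 < ρ := lt_min hρ0 (by positivity)
      have hρR : ρ < R := lt_of_le_of_lt (min_le_right _ _) (by linarith)
      have hpos : ∀ s ∈ sphere (0 : ℂ) ρ, 0 < Ev ℓ e i (s • v i + w) := by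
        intro s hs
        have hs' := mem_sphere_zero_iff_norm.1 hs
        have h2 : s ≠ 0 := by
          rintro rfl
          rw [norm_zero] at hs'
          linarith
        have h4 := hRs (mem_ball_zero_iff.2 (by linarith)) h2
        refine lt_of_le_of_ne ?_ (Ne.symm h4)
        unfold Ev
        exact Finset.prod_nonneg fun _ _ => norm_nonneg _
      have hcont : Continuous fun p : (Fin m → ℂ) × ℂ => Ev ℓ e i (p.2 • v i + p.1) :=
        (Ev_cont hE i).comp (by fun_prop)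
      obtain ⟨ε, hε, hεA⟩ : ∃ ε > 0, ∀ s ∈ sphere (0 : ℂ) ρ, ε < Ev ℓ e i (s • v i + w) := by
        have hne : (sphere (0 : ℂ) ρ).Nonempty := NormedSpace.sphere_nonempty.2 hρpos.le
        obtain ⟨s0, hs0, hmin⟩ := (isCompact_sphere (0 : ℂ) ρ).exists_isMinOn hne
          (f := fun s => Ev ℓ e i (s • v i + w))
          ((hcont.comp (Continuous.prodMk continuous_const continuous_id)).continuousOn)
        refine ⟨Ev ℓ e i (s0 • v i + w) / 2, half_pos (hpos s0 hs0), fun s hs => ?_⟩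
        have h3 : Ev ℓ e i (s0 • v i + w) ≤ Ev ℓ e i (s • v i + w) := hmin hs
        linarith [hpos s0 hs0]
      have hev : ∀ᶠ w' in 𝓝 w, ∀ s ∈ sphere (0 : ℂ) ρ, ε < Ev ℓ e i (s • v i + w') := by
        apply (isCompact_sphere (0 : ℂ) ρ).eventually_forall_of_forall_eventually
          (P := fun w' s => ε < Ev ℓ e i (s • v i + w'))
        intro s hs
        exact hcont.continuousAt.eventually_const_lt (hεA s hs)
      refine ⟨{w' | ∀ s ∈ sphere (0 : ℂ) ρ, ε < Ev ℓ e i (s • v i + w')},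
        mem_nhdsWithin_of_mem_nhds hev, ε, hε, fun w' hw' => ⟨ρ, hρpos, min_le_left _ _,
        fun s hs => (hw' s hs).le⟩⟩
  choose ε hε hh using hloc
  obtain ⟨ε0, hε0, hεi⟩ := exists_pos_le ε hε
  refine ⟨ε0, hε0, fun i w => ?_⟩
  obtain ⟨l, hl, hlw⟩ := hD w
  obtain ⟨σ, hσ⟩ := hE.perm l hl
  obtain ⟨ρ, h1, h2, h3⟩ := hh (σ i) (w - l) (mem_closedBall_zero_iff.2 hlw)
  refine ⟨ρ, h1, h2, fun s hs => (hεi (σ i)).trans ((h3 s hs).trans (le_of_eq ?_))⟩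
  have h4 : ∀ j, FF ℓ e (σ j) (s • v (σ i) + (w - l)) = FF ℓ e j (s • v i + w) := by
    intro j
    rw [(hσ j).2, (hσ i).1]
    congr 1
    abel
  unfold Ev
  symm
  refine Finset.prod_equiv σ (fun j => ?_) fun j _ => ?_
  · simp
  · rw [h4, h4]

end Pool.Agent.N154.TC
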