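import Pool.Agent.N154.TC.AGeo

/-! Entire curves and punctured discs in quasi-projective sets over abelian varieties, without
hypotheses on the fibres. -/

set_option autoImplicit false

open Filter Topology Metric Set LinearAlgebra.Projectivization

namespace Pool.Agent.N154.TC

open Pool.Agent.N154.TB (Zeros CurveIn IsConst BrodyHyp HypFibres TwoForms Elliptic OverLine Factors)
open FF Pool.Agent.Y190.OP Pool.Agent.W602.GT
open Pool.Agent.N155 (TX isCompact_TX TX_PM exists_shift nz nz_Phi val_eval)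
open Pool.Agent.N154.TT (HolToTorus RiemannForm)
open Pool.Agent.N154.GG (HolMap HolMapOn toProj holP_comp norm_fderiv_comp
  Phi_rep_toProj proj_ext holMap_of holP_of kobayashi projDist
  isForm_prod val_prod doubly_periodic_not_dense Xi Extends PDisc HP isOpen_HP
  exp_mem_PDisc log_mem_HP toProj_Phi_rep holMapOn_of holP_remove holP_of_on tpi holP_comp_l
  hp_cont)

section

variable {N m : ℕ} {T T' : Set (Mat N)} {Λ : AddSubgroup (Fin m → ℂ)} {a : Mat N → Fin m → ℂ}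
    {κ : Type} {η : κ → (Fin N → ℂ) → (Fin N → ℂ) → (Fin N → ℂ) → ℂ}

/-- relatively closed subsets -/
theorem TV.inter (hT : TV T Λ a) {C : Set (Mat N)} (hC : IsClosed C) : TV (T ∩ C) Λ a where
  comp := hT.comp.of_isClosed_subset isClosed_closure (closure_mono inter_subset_left)
  csub := (closure_mono inter_subset_left).trans hT.csub
  disc := hT.disc
  coc := hT.coc
  locc := fun M0 hM0 => by
    obtain ⟨O, w, h1, h2, h3, h4, h5⟩ := hT.locc M0 (closure_mono inter_subset_left hM0)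
    exact ⟨O, w, h1, h2, h3, fun M hM => h4 M ⟨hM.1, hM.2.1⟩, h5⟩
  hz := fun 𝓤 h H h1 h2 h3 h4 z => by
    refine ⟨hT.hz 𝓤 h H (fun L => (h1 L).mono fun n hn => ⟨hn.1, fun z hz => (hn.2 z hz).1⟩)
      h2 h3 h4 z, ?_⟩
    refine hC.mem_of_tendsto (h3.pointwise (mem_univ z)) ?_
    filter_upwards [h1 (‖z‖ + 1)] with n hn
    exact (hn.2 z (mem_ball_zero_iff.2 (by linarith))).2

theorem LC.mono {i : Fin N} {d : ℕ} {J : Fin d → Fin N} {O : Set (Mat N)} {U : Set (Fin d → ℂ)}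
    {Ψ : (Fin d → ℂ) → Fin N → ℂ} {W : (Fin d → ℂ) → Fin m → ℂ}
    (h : LC T Λ a i d J O U Ψ W) (hsub : T' ⊆ T) : LC T' Λ a i d J O U Ψ W := by
  obtain ⟨h1, h2, h3, h4, h5⟩ := h
  refine ⟨h1, h2, h3, h4, fun M hM => ?_⟩
  obtain ⟨h6, h7, h8⟩ := h5 M hM
  exact ⟨h6, h7, fun hMT => h8 (hsub hMT)⟩

theorem GV.mono (hG : GV T Λ a η) (hsub : T' ⊆ T) : GV T' Λ a η := by
  obtain ⟨k, S, hG⟩ := hG
  refine ⟨k, S, ?_⟩
  exact
    { homog := fun M hM => hG.homog M (hsub hM)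
      kle := hG.kle
      zero := fun q hq H α β hα hH hHT ho => hG.zero q hq H α β hα hH (fun z => hsub (hHT z)) ho
      dense := fun H hH hHT hne => hG.dense H hH (fun z => hsub (hHT z)) hne
      loc := fun M0 hM0 => by
        obtain ⟨i, d, J, O, U, Ψ, W, h1, h2, h3⟩ := hG.loc M0 (hsub hM0)
        exact ⟨i, d, J, O, U, Ψ, W, h1.mono hsub, h2, h3⟩
      pos := fun M0 hM0 hM0S => by
        obtain ⟨i, d, J, O, U, Ψ, W, h1, h2, h3⟩ := hG.pos M0 (hsub hM0) hM0S
        exact ⟨i, d, J, O, U, Ψ, W, h1.mono hsub, h2, h3⟩ }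

/-- a nonconstant curve in a fibre gives one with bounded derivative in its closure -/
theorem vert_bounded (hT : TV T Λ a) {P : ℂ → Mat N} {c : Fin m → ℂ} (hP : HolP univ P)
    (hPT : ∀ z, P z ∈ T) (ho : Over Λ a P fun _ => c) (hne : ¬ ∀ z, P z = P 0) :
    ∃ Q : ℂ → Mat N, HolP univ Q ∧ (∀ z, Q z ∈ T ∩ closure (range P)) ∧
      (∀ z, ‖fderiv ℝ Q z‖ ≤ 2) ∧ (Over Λ a Q fun _ => c) ∧ ¬ ∀ z, Q z = Q 0 := by
  have hover : ∀ M ∈ T ∩ closure (range P), c - a M ∈ Λ := by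
    intro M hM
    obtain ⟨x, hx, hxM⟩ := mem_closure_iff_seq_limit.1 hM.2
    refine hT.lim (l := atTop) (M := x) (s := fun _ => c) (Eventually.of_forall fun i => ?_) hxM
      hM.1 (Eventually.of_forall fun i => ?_) tendsto_const_nhds
    · obtain ⟨z, hz⟩ := hx i
      rw [← hz]
      exact hPT z
    · obtain ⟨z, hz⟩ := hx i
      rw [← hz]
      exact ho z
  have hTm := hT.inter (isClosed_closure (s := range P))
  by_contra hcon
  push Not at hcon
  obtain ⟨C, hC, hbr⟩ := brody hTm.comp hTm.csub hTm.hz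
    (fun Q h1 h2 h3 => hcon Q h1 h2 h3 fun z => hover _ (h2 z))
  have hd : Differentiable ℝ P := fun z => hP.differentiableAt (mem_univ z)
  apply hne
  have hz : ∀ z, fderiv ℝ P z = 0 := by
    intro z
    have h1 : ∀ R : ℝ, 0 < R → ‖fderiv ℝ P z‖ ≤ C * (1 / R) := by
      intro R hR
      have hR' : (R : ℂ) ≠ 0 := by exact_mod_cast hR.ne'
      have hQ : HolP univ (fun t => P (z + (R : ℂ) * t)) := holP_comp hP (by fun_prop)
      have h2 := hbr (fun t => P (z + (R : ℂ) * t)) (hQ.mono (subset_univ _))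
        (fun w _ => ⟨hPT _, subset_closure ⟨_, rfl⟩⟩)
      have h3 := norm_fderiv_comp hQ (f := fun u : ℂ => (R : ℂ)⁻¹ * (u - z)) (by fun_prop) z
      have e1 : (fun u : ℂ => P (z + (R : ℂ) * ((R : ℂ)⁻¹ * (u - z)))) = P := by
        funext u
        congr 1
        rw [← mul_assoc, mul_inv_cancel₀ hR', one_mul]
        ring
      have e2 : deriv (fun u : ℂ => (R : ℂ)⁻¹ * (u - z)) z = (R : ℂ)⁻¹ := by
        have := ((hasDerivAt_id z).sub_const z).const_mul ((R : ℂ)⁻¹)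
        rw [mul_one] at this
        exact this.deriv
      rw [e1, e2, sub_self, mul_zero, norm_inv, Complex.norm_real, Real.norm_of_nonneg hR.le] at h3
      refine h3.trans ?_
      rw [one_div]
      exact mul_le_mul_of_nonneg_right h2 (by positivity)
    have h2 : ‖fderiv ℝ P z‖ ≤ 0 := by
      apply le_of_forall_pos_le_add
      intro ε hε
      have h3 := h1 (C / ε) (by positivity)
      have e : C * (1 / (C / ε)) = ε := by
        field_simp
      rw [e] at h3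
      linarith
    exact norm_le_zero_iff.1 h2
  intro z
  exact is_const_of_fderiv_eq_zero hd hz z 0

end

variable {n m : ℕ} {ι ι' ι'' A : Type} {F : ι → MvPolynomial (Fin (n + 1)) ℂ}
  {P : A → ι'' → MvPolynomial (Fin (n + 1)) ℂ}
  {G : ι' → MvPolynomial (Fin (n + 1)) ℂ} {d : ℕ} {L : Submodule ℤ (Fin m → ℂ)}
  {α : (Fin (n + 1) → ℂ) → (Fin m → ℂ) ⧸ L} {H : (Fin m → ℂ) → (Fin m → ℂ) → ℂ}
  {κ : Type} {k : κ → ℕ} {η : κ → (Fin (n + 1) → ℂ) → (Fin (n + 1) → ℂ) → (Fin (n + 1) → ℂ) → ℂ}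

/-- the geometric data -/
theorem data_geo [DiscreteTopology L] [IsZLattice ℝ L] (hF : ∀ i, IsForm (F i))
    (hPf : ∀ a i, IsForm (P a i)) (hD : ∀ I : Set A, I.Nonempty → BrodyHyp (Stratum F P I))
    (hloc : ∀ a, LocOne F (P a)) (hGf : ∀ j, IsForm (G j)) (hB : BrodyHyp (Compl F P ∩ Zeros G))
    (hη : TwoForms (Compl F P) (Zeros G) d α k η) (hα : HolToTorus (Cone F) L α) :
    TV (TS (Compl F P)) (La L) (aM L α (Cone F)) ∧
      GV (TS (Compl F P)) (La L) (aM L α (Cone F)) η := by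
  have hZ := cone_conic hF
  have hX := conic_compl hF hPf
  have hsub : Compl F P ⊆ Cone F := fun _ hx => hx.1
  have hZc : IsCompact (TS (Cone F)) := isCompact_TF hF
  refine ⟨td_of hZ hα hZc (TS_mono hsub) (hz_of hF hPf hD hloc), k, SM (Zeros G),
    gd_of hX (Zeros_smul hGf) (torus_mono hsub hα)
      (fun M hM i hi => aM_chart hZ hα (TS_mono hsub hM) hi) hη Subset.rfl
      (dense_of hX hGf hB Subset.rfl)⟩

/-- curves in the fibres -/
theorem vert_geo (hF : ∀ i, IsForm (F i)) (hPf : ∀ a i, IsForm (P a i))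
    (hα : HolToTorus (Cone F) L α)
    (hT : TV (TS (Compl F P)) (La L) (aM L α (Cone F))) {C : Set (Mat (n + 1))} (hC : IsClosed C)
    (hfib : ¬ Fib (TS (Compl F P) ∩ C) (La L) (aM L α (Cone F))) :
    ∃ h, CurveIn (Compl F P) h ∧ ¬ IsConst h ∧ (∀ z w, α (h z).rep = α (h w).rep) ∧
      (∀ z w, projDist (h z) (h w) ≤ 2 * ‖z - w‖) ∧ ∀ z, Phi (h z).rep ∈ C := by
  have hZ := cone_conic hF
  have hX := conic_compl hF hPf
  have hsub : Compl F P ⊆ Cone F := fun _ hx => hx.1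
  unfold Fib at hfib
  push Not at hfib
  obtain ⟨P0, c, hPh0, hPm0, hPo0, hz00⟩ := hfib
  obtain ⟨Q, hPh, hPm1, hP2, hPo, hz1⟩ := vert_bounded (hT.inter hC) hPh0 hPm0 hPo0 (by
    push Not
    exact hz00)
  push Not at hz1
  obtain ⟨z0, hz0⟩ := hz1
  have hPX : ∀ z, Q z ∈ TS (Compl F P) := fun z => (hPm1 z).1.1
  have hd : Differentiable ℝ Q := fun z => hPh.differentiableAt (mem_univ z)
  refine ⟨fun z => toProj (Q z), ⟨holMap_of hPh, fun z => rep_toProj hX (hPX z)⟩, ?_, ?_, ?_, ?_⟩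
  · intro hc
    apply hz0
    have h3 := congrArg (fun p : ℙ ℂ (Fin (n + 1) → ℂ) => Phi p.rep) (hc z0 0)
    change Phi (toProj (Q z0)).rep = Phi (toProj (Q 0)).rep at h3
    rwa [Phi_rep_toProj (TS_PM hX (hPX z0)), Phi_rep_toProj (TS_PM hX (hPX 0))] at h3
  · intro z w
    change α (toProj (Q z)).rep = α (toProj (Q w)).rep
    rw [← aM_rep hZ hα (TS_mono hsub (hPX z)), ← aM_rep hZ hα (TS_mono hsub (hPX w))]
    rw [← mem_La_iff.1 (hPo z), ← mem_La_iff.1 (hPo w)]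
  · intro z w
    change ‖Phi (toProj (Q z)).rep - Phi (toProj (Q w)).rep‖ ≤ 2 * ‖z - w‖
    rw [Phi_rep_toProj (TS_PM hX (hPX z)), Phi_rep_toProj (TS_PM hX (hPX w))]
    exact convex_univ.norm_image_sub_le_of_norm_fderiv_le (𝕜 := ℝ) (fun x _ => hd x)
      (fun x _ => hP2 x) (mem_univ w) (mem_univ z)
  · intro z
    change Phi (toProj (Q z)).rep ∈ C
    rw [Phi_rep_toProj (TS_PM hX (hPX z))]
    exact (hPm1 z).1.2

/-- elliptic curves -/
theorem ell_geo (hF : ∀ i, IsForm (F i)) (hPf : ∀ a i, IsForm (P a i))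
    (hα : HolToTorus (Cone F) L α) {e : ℂ → Mat (n + 1)} {v β : Fin m → ℂ} {p q : ℂ}
    (he : HolP univ e) (heT : ∀ z, e z ∈ TS (Compl F P))
    (hov : Over (La L) (aM L α (Cone F)) e fun t => t • v + β) (hv : v ≠ 0)
    (hind : LinearIndependent ℝ ![p, q]) (hp : ∀ z, e (z + p) = e z) (hq : ∀ z, e (z + q) = e z) :
    CurveIn (Compl F P) (fun z => toProj (e z)) ∧ Elliptic (fun z => toProj (e z)) ∧
      OverLine α (fun z => toProj (e z)) ∧
      ∀ (K : Type) [Field K] [Algebra ℂ K] (w : ℕ) (y : Fin (n + 1) → K), 2 ≤ w →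
        SubVar F K w y → Cone F ⊆ VarPts ℂ y →
        ∃ Q : MvPolynomial (Fin (n + 1)) ℂ, IsForm Q ∧ val y Q ≠ 0 ∧
          ∀ z, val (toProj (e z)).rep Q = 0 := by
  have hZ := cone_conic hF
  have hX := conic_compl hF hPf
  have hsub : Compl F P ⊆ Cone F := fun _ hx => hx.1
  refine ⟨⟨holMap_of he, fun z => rep_toProj hX (heT z)⟩, ?_, ⟨v, β, hv, fun z => ?_⟩,
    fun K _ _ w y hw hsv hirr => ?_⟩
  · obtain ⟨L', hL'⟩ := pair_periods hind hp hq
    refine ⟨L', fun l hl z => ?_⟩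
    change toProj (e (z + l)) = toProj (e z)
    rw [hL' l hl]
  · change α (toProj (e z)).rep = _
    rw [← aM_rep hZ hα (TS_mono hsub (heT z))]
    exact (mem_La_iff.1 (hov z)).symm
  · obtain ⟨Q, hQ1, hQ2, hQ3⟩ := doubly_periodic_not_dense hsv.gen hsv.dim hw he
      (fun z => by
        obtain ⟨u, hu, hu'⟩ := heT z
        exact ⟨u, hirr hu.1, hu'⟩) hind hp hq
    refine ⟨Q, hQ1, hQ2, fun z => ?_⟩
    have h2 := hQ3 z
    obtain ⟨k, hk⟩ := hQ1
    rw [← Phi_rep_toProj (TS_PM hX (heT z)), nz_Phi hk (toProj (e z)).rep_nonzero, not_not] at h2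
    rw [val_eval]
    exact h2

/-- **Entire curves in quasi-projective sets over abelian varieties** -/
theorem open_ent_geo [DiscreteTopology L] [IsZLattice ℝ L] (hF : ∀ i, IsForm (F i))
    (hPf : ∀ a i, IsForm (P a i)) (hD : ∀ I : Set A, I.Nonempty → BrodyHyp (Stratum F P I))
    (hloc : ∀ a, LocOne F (P a)) (hGf : ∀ j, IsForm (G j)) (hB : BrodyHyp (Compl F P ∩ Zeros G))
    (hη : TwoForms (Compl F P) (Zeros G) d α k η) (hα : HolToTorus (Cone F) L α)
    (hH : RiemannForm L H) {f : ℂ → ℙ ℂ (Fin (n + 1) → ℂ)} (hf : CurveIn (Compl F P) f) :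
    IsConst f ∨ (∃ g, CurveIn (Compl F P) g ∧ Elliptic g ∧ OverLine α g ∧
      (∃ s : ℂ → ℂ, Differentiable ℂ s ∧ ∀ z, f z = g (s z)) ∧
      ∀ (K : Type) [Field K] [Algebra ℂ K] (w : ℕ) (y : Fin (n + 1) → K), 2 ≤ w →
        SubVar F K w y → Cone F ⊆ VarPts ℂ y →
        ∃ Q : MvPolynomial (Fin (n + 1)) ℂ, IsForm Q ∧ val y Q ≠ 0 ∧
          ∀ z, val (g z).rep Q = 0) ∨
      ∃ h, CurveIn (Compl F P) h ∧ ¬ IsConst h ∧ (∀ z w, α (h z).rep = α (h w).rep) ∧
        (∀ z w, projDist (h z) (h w) ≤ 2 * ‖z - w‖) ∧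
        ∀ z, ∀ ε > 0, ∃ w, projDist (h z) (f w) < ε := by
  classical
  obtain ⟨hT, hG⟩ := data_geo hF hPf hD hloc hGf hB hη hα
  have hX := conic_compl hF hPf
  have hP := holP_of hf.1
  have hPT : ∀ z, Phi (f z).rep ∈ TS (Compl F P) := fun z => mem_TS (hf.2 z)
  set C : Set (Mat (n + 1)) := closure (range fun z => Phi (f z).rep) with hCd
  have hCc : IsClosed C := isClosed_closure
  have hPT' : ∀ z, Phi (f z).rep ∈ TS (Compl F P) ∩ C := fun z =>
    ⟨hPT z, subset_closure ⟨z, rfl⟩⟩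
  have hTm := hT.inter hCc
  have hGm : GV (TS (Compl F P) ∩ C) (La L) (aM L α (Cone F)) η := hG.mono inter_subset_left
  by_cases hfib : Fib (TS (Compl F P) ∩ C) (La L) (aM L α (Cone F))
  · obtain ⟨C1, hC0, hC⟩ := gradient_l hTm hfib
    obtain ⟨r, v, β, ℓ, e, hE⟩ := exists_En hTm hGm hC0 hC (spl_of hH hTm hGm hC0 hC)
    obtain ⟨φ, hφ, ho⟩ := hTm.exists_lift hP hPT'
    rcases entire_eq hTm hfib hGm hE hP hPT' hφ ho with h2 | ⟨j, h2⟩
    · left
      intro z w
      exact proj_ext ((h2 z).trans (h2 w).symm)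
    · right
      left
      have hv : v j ≠ 0 := fun h0 => by
        have := hE.one j
        rw [h0, map_zero] at this
        exact zero_ne_one this
      obtain ⟨p, q, hind, hp, hq⟩ := (hE.lin j).periods hTm hGm hC0 hC hv
      have heT : ∀ z, e j z ∈ TS (Compl F P) := fun z => ((hE.lin j).mem z).1
      obtain ⟨h3, h4, h5, h6⟩ := ell_geo hF hPf hα (hE.lin j).hol heT (hE.lin j).ov hv hind hp hq
      refine ⟨fun z => toProj (e j z), h3, h4, h5,
        ⟨fun z => ℓ j (φ z), (ℓ j).differentiable.comp hφ, fun z => proj_ext ?_⟩, h6⟩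
      change _ = Phi (toProj (e j (ℓ j (φ z)))).rep
      rw [Phi_rep_toProj (TS_PM hX (heT _))]
      exact h2 z
  · right
    right
    obtain ⟨h, h1, h2, h3, h4, h5⟩ := vert_geo hF hPf hα hT hCc hfib
    refine ⟨h, h1, h2, h3, h4, fun z ε hε => ?_⟩
    obtain ⟨_, ⟨w, rfl⟩, hw⟩ := Metric.mem_closure_iff.1 (h5 z) ε hε
    refine ⟨w, ?_⟩
    change ‖Phi (h z).rep - Phi (f w).rep‖ < ε
    rw [← dist_eq_norm]
    exact hw

/-- **Punctured discs in quasi-projective sets over abelian varieties** -/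
theorem open_pic_geo [DiscreteTopology L] [IsZLattice ℝ L] (hF : ∀ i, IsForm (F i))
    (hPf : ∀ a i, IsForm (P a i)) (hD : ∀ I : Set A, I.Nonempty → BrodyHyp (Stratum F P I))
    (hloc : ∀ a, LocOne F (P a)) (hGf : ∀ j, IsForm (G j)) (hB : BrodyHyp (Compl F P ∩ Zeros G))
    (hη : TwoForms (Compl F P) (Zeros G) d α k η) (hα : HolToTorus (Cone F) L α)
    (hH : RiemannForm L H) {f : ℂ → ℙ ℂ (Fin (n + 1) → ℂ)} (hf : PunctX (Compl F P) f) :
    Extends F f ∨ (∃ g, CurveIn (Compl F P) g ∧ Elliptic g ∧ OverLine α g ∧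
      (∃ s : ℂ → ℂ, DifferentiableOn ℂ s {z | z.re < 0} ∧
        ∀ z : ℂ, z.re < 0 → f (Complex.exp z) = g (s z)) ∧
      ∀ (K : Type) [Field K] [Algebra ℂ K] (w : ℕ) (y : Fin (n + 1) → K), 2 ≤ w →
        SubVar F K w y → Cone F ⊆ VarPts ℂ y →
        ∃ Q : MvPolynomial (Fin (n + 1)) ℂ, IsForm Q ∧ val y Q ≠ 0 ∧
          ∀ z, val (g z).rep Q = 0) ∨
      ∃ h, CurveIn (Compl F P) h ∧ ¬ IsConst h ∧ (∀ z w, α (h z).rep = α (h w).rep) ∧
        (∀ z w, projDist (h z) (h w) ≤ 2 * ‖z - w‖) ∧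
        ∀ z, ∀ ε > 0, ∃ w ∈ PDisc, projDist (h z) (f w) < ε := by
  classical
  obtain ⟨hT, hG⟩ := data_geo hF hPf hD hloc hGf hB hη hα
  have hZ := cone_conic hF
  have hX := conic_compl hF hPf
  have hsub : Compl F P ⊆ Cone F := fun _ hx => hx.1
  have hZc : IsCompact (TS (Cone F)) := isCompact_TF hF
  set Q : ℂ → Mat (n + 1) := fun z => Phi (f z).rep with hQ
  have hQh : HolP PDisc Q := holP_of_on hf.1
  have hQT : ∀ z ∈ PDisc, Q z ∈ TS (Compl F P) := fun z hz => mem_TS (hf.2 z hz)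
  set C : Set (Mat (n + 1)) := closure (Q '' PDisc) with hCd
  have hCc : IsClosed C := isClosed_closure
  have hTm := hT.inter hCc
  have hGm : GV (TS (Compl F P) ∩ C) (La L) (aM L α (Cone F)) η := hG.mono inter_subset_left
  set P1 : ℂ → Mat (n + 1) := fun z => Q (Complex.exp z) with hPdef
  have hP : HolP HP P1 := holP_comp_l hQh Complex.differentiable_exp.differentiableOn isOpen_HP
    (fun z hz => exp_mem_PDisc hz)
  have hPT : ∀ z ∈ HP, P1 z ∈ TS (Compl F P) ∩ C := fun z hz =>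
    ⟨hQT _ (exp_mem_PDisc hz), subset_closure ⟨_, exp_mem_PDisc hz, rfl⟩⟩
  have hper : ∀ z ∈ HP, P1 (z + tpi) = P1 z := by
    intro z _
    change Q (Complex.exp (z + tpi)) = Q (Complex.exp z)
    rw [show Complex.exp (z + tpi) = Complex.exp z from Complex.exp_periodic z]
  by_cases hfib : Fib (TS (Compl F P) ∩ C) (La L) (aM L α (Cone F))
  · obtain ⟨C1, hC0, hC⟩ := gradient_l hTm hfib
    obtain ⟨r, v, β, ℓ, e, hE⟩ := exists_En hTm hGm hC0 hC (spl_of hH hTm hGm hC0 hC)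
    obtain ⟨φ, hφ⟩ := exists_PD hTm hP hPT hper
    rcases hφ.picard hTm hfib hGm hE with ⟨M0, hM0, hlim⟩ | ⟨j, hj⟩
    · left
      have hM0' : M0 ∈ TS (Cone F) := closure_minimal
        (inter_subset_left.trans (TS_mono hsub)) hZc.isClosed hM0
      have hQext := holP_remove hQh (TS_PM hZ hM0') (by
        intro ε hε
        obtain ⟨A, hA, hA'⟩ := hlim ε hε
        refine ⟨Real.exp (-A), Real.exp_pos _, fun z hz hzA => ?_⟩
        obtain ⟨h1, h2⟩ := log_mem_HP hz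
        have h3 := hA' (Complex.log z) (by
          rw [Complex.log_re]
          rw [← Real.log_exp (-A)]
          exact Real.log_le_log (norm_pos_iff.2 hz.2) hzA.le)
        change ‖Q (Complex.exp (Complex.log z)) - M0‖ ≤ ε at h3
        rwa [h2] at h3)
      refine ⟨_, holMapOn_of hQext, fun z hz => rep_toProj hZ ?_, fun z hz => ?_⟩
      · by_cases h0 : z = 0
        · rw [if_pos h0]
          exact hM0'
        · rw [if_neg h0]
          exact TS_mono hsub (hQT z ⟨hz, h0⟩)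
      · have h0 : z ≠ 0 := hz.2
        rw [if_neg h0]
        exact toProj_Phi_rep _
    · right
      left
      have hv : v j ≠ 0 := fun h0 => by
        have := hE.one j
        rw [h0, map_zero] at this
        exact zero_ne_one this
      obtain ⟨p, q, hind, hp, hq⟩ := (hE.lin j).periods hTm hGm hC0 hC hv
      have heT : ∀ z, e j z ∈ TS (Compl F P) := fun z => ((hE.lin j).mem z).1
      obtain ⟨h3, h4, h5, h6⟩ := ell_geo hF hPf hα (hE.lin j).hol heT (hE.lin j).ov hv hind hp hq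
      refine ⟨fun z => toProj (e j z), h3, h4, h5,
        ⟨fun z => ℓ j (φ z), (ℓ j).differentiable.comp_differentiableOn hφ.dif, fun z hz => ?_⟩,
        h6⟩
      have h1 := hj z hz
      change Q (Complex.exp z) = e j (ℓ j (φ z)) at h1
      change f (Complex.exp z) = toProj (e j (ℓ j (φ z)))
      rw [← h1]
      exact (toProj_Phi_rep _).symm
  · right
    right
    obtain ⟨h, h1, h2, h3, h4, h5⟩ := vert_geo hF hPf hα hT hCc hfib
    refine ⟨h, h1, h2, h3, h4, fun z ε hε => ?_⟩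
    obtain ⟨_, ⟨w, hw, rfl⟩, hwd⟩ := Metric.mem_closure_iff.1 (h5 z) ε hε
    refine ⟨w, hw, ?_⟩
    change ‖Phi (h z).rep - Phi (f w).rep‖ < ε
    rw [← dist_eq_norm]
    exact hwd

end Pool.Agent.N154.TC
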