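import Pool.Agent.N154.TC.Dir

/-! The family of comparison maps. -/

set_option autoImplicit false

open Filter Topology Metric Set

namespace Pool.Agent.N154.TC

open Pool.Agent.Y190.OP Pool.Agent.N155
open Pool.Agent.N154.GG (holP_comp hp_cont hyper_ge)

variable {N m : ℕ} {T : Set (Mat N)} {Λ : AddSubgroup (Fin m → ℂ)} {a : Mat N → Fin m → ℂ}
    {κ : Type} {η : κ → (Fin N → ℂ) → (Fin N → ℂ) → (Fin N → ℂ) → ℂ}
    {g P Q : ℂ → Mat N} {α β α' β' v : Fin m → ℂ} {C : ℝ} {ℓ : (Fin m → ℂ) →L[ℂ] ℂ}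

/-- the comparison map -/
noncomputable def FF {r : ℕ} (ℓ : Fin r → ((Fin m → ℂ) →L[ℂ] ℂ)) (e : Fin r → ℂ → Mat N) (j : Fin r)
    (w : Fin m → ℂ) : Mat N := e j (ℓ j w)

/-- a complete family of comparison maps -/
structure En (T : Set (Mat N)) (Λ : AddSubgroup (Fin m → ℂ)) (a : Mat N → Fin m → ℂ) {r : ℕ}
    (v β : Fin r → Fin m → ℂ) (ℓ : Fin r → ((Fin m → ℂ) →L[ℂ] ℂ)) (e : Fin r → ℂ → Mat N) :
    Prop where
  one : ∀ j, ℓ j (v j) = 1
  zero : ∀ j, ℓ j (β j) = 0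
  lin : ∀ j, Lin T Λ a (e j) (v j) (β j)
  perm : ∀ l ∈ Λ, ∃ σ : Equiv.Perm (Fin r), ∀ j, v (σ j) = v j ∧
    ∀ w, FF ℓ e (σ j) w = FF ℓ e j (w + l)
  surj : ∀ (H : ℂ → Mat N) (α β' : Fin m → ℂ), α ≠ 0 → Lin T Λ a H α β' →
    ∃ j, ∃ c : ℂ, c ≠ 0 ∧ α = c • v j ∧ ∀ t : ℂ, H t = FF ℓ e j (t • α + β')
  sep : ∀ i j, i ≠ j → ∀ β', ∃ t : ℂ, FF ℓ e i (t • v i + β') ≠ FF ℓ e j (t • v i + β')

/-- proportional vectors -/
def Prp (x y : Fin m → ℂ) : Prop := ∃ c : ℂ, c ≠ 0 ∧ y = c • x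

theorem Prp.symm {x y : Fin m → ℂ} (h : Prp x y) : Prp y x := by
  obtain ⟨c, hc, rfl⟩ := h
  exact ⟨c⁻¹, inv_ne_zero hc, by rw [smul_smul, inv_mul_cancel₀ hc, one_smul]⟩

theorem Prp.trans {x y z : Fin m → ℂ} (h : Prp x y) (h' : Prp y z) : Prp x z := by
  obtain ⟨c, hc, rfl⟩ := h
  obtain ⟨c', hc', rfl⟩ := h'
  exact ⟨c' * c, mul_ne_zero hc' hc, by rw [smul_smul]⟩

theorem Prp.refl (x : Fin m → ℂ) : Prp x x := ⟨1, one_ne_zero, by rw [one_smul]⟩

theorem exists_reps (s : Finset (Fin m → ℂ)) : ∃ s' : Finset (Fin m → ℂ), s' ⊆ s ∧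
    (∀ x ∈ s, ∃ y ∈ s', Prp y x) ∧ ∀ x ∈ s', ∀ y ∈ s', Prp x y → x = y := by
  classical
  induction s using Finset.induction_on with
  | empty => exact ⟨∅, subset_rfl, fun x hx => absurd hx (Finset.notMem_empty x),
      fun x hx => absurd hx (Finset.notMem_empty x)⟩
  | insert b s hb ih =>
    obtain ⟨s', h1, h2, h3⟩ := ih
    by_cases hc : ∃ y ∈ s', Prp y b
    · refine ⟨s', h1.trans (Finset.subset_insert _ _), fun x hx => ?_, h3⟩
      rcases Finset.mem_insert.1 hx with rfl | hx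
      · exact hc
      · exact h2 x hx
    · push Not at hc
      refine ⟨insert b s', Finset.insert_subset_insert _ h1, fun x hx => ?_, fun x hx y hy hxy => ?_⟩
      · rcases Finset.mem_insert.1 hx with rfl | hx
        · exact ⟨x, Finset.mem_insert_self _ _, Prp.refl x⟩
        · obtain ⟨y, hy, hyx⟩ := h2 x hx
          exact ⟨y, Finset.mem_insert_of_mem hy, hyx⟩
      · rcases Finset.mem_insert.1 hx with hx' | hx
        · rcases Finset.mem_insert.1 hy with hy' | hy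
          · rw [hx', hy']
          · exact absurd (hx' ▸ hxy).symm (hc y hy)
        · rcases Finset.mem_insert.1 hy with hy' | hy
          · exact absurd (hy' ▸ hxy) (hc x hx)
          · exact h3 x hx y hy hxy

/-- finitely many directions -/
theorem exists_dirs (hT : TV T Λ a) (hG : GV T Λ a η) (hC0 : 0 < C) (hC : GE T Λ a C)
    (hS : Spl T Λ a) : ∃ s : Finset (Fin m → ℂ),
      (∀ x ∈ s, x ≠ 0 ∧ ∃ g β, Lin T Λ a g x β) ∧ (∀ x ∈ s, ∀ y ∈ s, Prp x y → x = y) ∧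
      ∀ x g β, x ≠ 0 → Lin T Λ a g x β → ∃ y ∈ s, Prp y x := by
  classical
  have h0 : ∃ s : Finset (Fin m → ℂ), (∀ x ∈ s, ‖x‖ = 1 ∧ ∃ g β, Lin T Λ a g x β) ∧
      ∀ y : Fin m → ℂ, (‖y‖ = 1 ∧ ∃ g β, Lin T Λ a g y β) → ∃ x ∈ s, Prp x y := by
    by_contra hcon
    push Not at hcon
    have : Std.Symm (fun x y : Fin m → ℂ => ¬ Prp x y) := ⟨fun x y h h' => h h'.symm⟩
    obtain ⟨f, hf, hf'⟩ := exists_seq_of_forall_finset_exists'
      (fun x : Fin m → ℂ => ‖x‖ = 1 ∧ ∃ g β, Lin T Λ a g x β)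
      (fun x y : Fin m → ℂ => ¬ Prp x y) (by
        intro s hs
        obtain ⟨y, hy, hy'⟩ := hcon s hs
        exact ⟨y, hy, hy'⟩)
    choose h1 g β hL using hf
    obtain ⟨i, j, hij, hc⟩ := dir_seq hT hG hC0 hC hS h1 hL
    exact hf' hij hc
  obtain ⟨s, hs1, hs2⟩ := h0
  obtain ⟨s', h1, h2, h3⟩ := exists_reps s
  refine ⟨s', fun x hx => ⟨?_, (hs1 x (h1 hx)).2⟩, h3, fun x g β hx hL => ?_⟩
  · rintro rfl
    have := (hs1 0 (h1 hx)).1
    rw [norm_zero] at this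
    exact zero_ne_one this
  · have hn : (‖x‖ : ℂ) ≠ 0 := by
      have := norm_pos_iff.2 hx
      exact_mod_cast this.ne'
    obtain ⟨z, hz, hzx⟩ := hs2 (((‖x‖ : ℂ))⁻¹ • x) ⟨by
      rw [norm_smul, norm_inv, Complex.norm_real, norm_norm, inv_mul_cancel₀ (norm_pos_iff.2 hx).ne'],
      fun z => g (((‖x‖ : ℂ))⁻¹ * z + 0), (0 : ℂ) • x + β, hL.aff _ _⟩
    obtain ⟨y, hy, hyz⟩ := h2 z hz
    refine ⟨y, hy, hyz.trans (hzx.trans ⟨(‖x‖ : ℂ), hn, ?_⟩)⟩
    rw [smul_smul, mul_inv_cancel₀ hn, one_smul]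

/-- **The family of comparison maps exists** -/
theorem exists_En (hT : TV T Λ a) (hG : GV T Λ a η) (hC0 : 0 < C) (hC : GE T Λ a C)
    (hS : Spl T Λ a) : ∃ (r : ℕ) (v β : Fin r → Fin m → ℂ)
      (ℓ : Fin r → ((Fin m → ℂ) →L[ℂ] ℂ)) (e : Fin r → ℂ → Mat N), En T Λ a v β ℓ e := by
  classical
  obtain ⟨s, hs1, hs2, hs3⟩ := exists_dirs hT hG hC0 hC hS
  have hex : ∀ x : s, ∃ ℓ : (Fin m → ℂ) →L[ℂ] ℂ, ℓ x = 1 ∧ Dis Λ ℓ := fun x => by
    obtain ⟨h0, g, β, hL⟩ := hs1 x x.2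
    exact hS x g β h0 hL
  choose ℓ hℓ hdis using hex
  have hfin : ∀ x : s, (Cv T Λ a x (ℓ x)).Finite := fun x =>
    Cv_finite hT hG hC0 hC (hℓ x) (hdis x)
  have hF : ∀ x : s, Fintype (Cv T Λ a x (ℓ x)) := fun x => (hfin x).fintype
  set I := Σ x : s, Cv T Λ a x (ℓ x) with hI
  set E : I ≃ Fin (Fintype.card I) := Fintype.equivFin I with hE
  set ix : Fin (Fintype.card I) → I := fun j => E.symm j with hix
  have hixi : Function.Injective ix := E.symm.injective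
  have hβ : ∀ j, ∃ β, ℓ (ix j).1 β = 0 ∧ Lin T Λ a ((ix j).2 : ℂ → Mat N) ((ix j).1 : Fin m → ℂ) β :=
    fun j => (ix j).2.2
  choose β hβ0 hβL using hβ
  refine ⟨Fintype.card I, fun j => (ix j).1, β, fun j => ℓ (ix j).1, fun j => (ix j).2,
    fun j => hℓ _, hβ0, hβL, ?_, ?_, ?_⟩
  · -- permutations
    intro l hl
    have hsh : ∀ (x : s) (l : Fin m → ℂ), l ∈ Λ → ∀ g : Cv T Λ a x (ℓ x),
        (fun z => (g : ℂ → Mat N) (ℓ x l + z)) ∈ Cv T Λ a x (ℓ x) := fun x l hl g =>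
      Cv_shift (hℓ x) g.2 hl
    set τ : ∀ x : s, Equiv.Perm (Cv T Λ a x (ℓ x)) := fun x =>
      ⟨fun g => ⟨_, hsh x l hl g⟩, fun g => ⟨_, hsh x (-l) (Λ.neg_mem hl) g⟩,
        fun g => by
          apply Subtype.ext
          funext z
          change (g : ℂ → Mat N) (ℓ x l + (ℓ x (-l) + z)) = (g : ℂ → Mat N) z
          rw [map_neg, add_neg_cancel_left],
        fun g => by
          apply Subtype.ext
          funext z
          change (g : ℂ → Mat N) (ℓ x (-l) + (ℓ x l + z)) = (g : ℂ → Mat N) z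
          rw [map_neg, neg_add_cancel_left]⟩ with hτ
    refine ⟨(E.symm.trans (Equiv.sigmaCongrRight τ)).trans E, fun j => ?_⟩
    have h1 : ix (((E.symm.trans (Equiv.sigmaCongrRight τ)).trans E) j) =
        ⟨(ix j).1, τ (ix j).1 (ix j).2⟩ := by
      rw [hix]
      simp only [Equiv.trans_apply, Equiv.symm_apply_apply]
      rfl
    refine ⟨?_, fun w => ?_⟩
    · exact (congrArg (fun p : I => (p.1 : Fin m → ℂ)) h1 :)
    · refine (congrArg (fun p : I => (p.2 : ℂ → Mat N) (ℓ p.1 w)) h1).trans ?_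
      change ((ix j).2 : ℂ → Mat N) (ℓ (ix j).1 l + ℓ (ix j).1 w) =
        ((ix j).2 : ℂ → Mat N) (ℓ (ix j).1 (w + l))
      rw [map_add, add_comm]
  · -- surjectivity
    intro H α β' hα hL
    obtain ⟨y, hy, c, hc, rfl⟩ := hs3 α H β' hα hL
    set x : s := ⟨y, hy⟩ with hx
    have hg : (fun z => H (c⁻¹ * z + (-(c⁻¹ * ℓ x β')))) ∈ Cv T Λ a x (ℓ x) := by
      refine ⟨(-(c⁻¹ * ℓ x β')) • c • y + β', ?_, ?_⟩
      · rw [map_add, map_smul, map_smul]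
        have : ℓ x y = 1 := hℓ x
        rw [this, smul_eq_mul, smul_eq_mul]
        field_simp
        ring
      · have h1 := hL.aff c⁻¹ (-(c⁻¹ * ℓ x β'))
        rw [smul_smul, inv_mul_cancel₀ hc, one_smul] at h1
        exact h1
    set p0 : I := ⟨x, ⟨_, hg⟩⟩ with hp0
    have hE' : ix (E p0) = p0 := E.symm_apply_apply p0
    refine ⟨E p0, c, hc, ?_, fun t => ?_⟩
    · refine Eq.trans ?_ (congrArg (fun p : I => c • (p.1 : Fin m → ℂ)) hE').symm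
      rfl
    · refine Eq.trans ?_ (congrArg (fun p : I => (p.2 : ℂ → Mat N) (ℓ p.1 (t • c • y + β'))) hE').symm
      change H t = H (c⁻¹ * (ℓ x (t • c • y + β')) + (-(c⁻¹ * ℓ x β')))
      congr 1
      have : ℓ x y = 1 := hℓ x
      rw [map_add, map_smul, map_smul, this, smul_eq_mul, smul_eq_mul]
      field_simp
      ring
  · -- separation
    intro i j hij β'
    by_contra hcon
    push Not at hcon
    unfold FF at hcon
    have hi : Lin T Λ a (fun t => ((ix i).2 : ℂ → Mat N) (ℓ (ix i).1 (t • ((ix i).1 : Fin m → ℂ) + β')))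
        ((1 : ℂ) • ((ix i).1 : Fin m → ℂ)) (ℓ (ix i).1 β' • ((ix i).1 : Fin m → ℂ) + β i) := by
      have h1 := (hβL i).aff 1 (ℓ (ix i).1 β')
      have h2 : (fun t => ((ix i).2 : ℂ → Mat N) (ℓ (ix i).1 (t • ((ix i).1 : Fin m → ℂ) + β'))) =
          fun z => ((ix i).2 : ℂ → Mat N) (1 * z + ℓ (ix i).1 β') := by
        funext t
        rw [map_add, map_smul, hℓ, smul_eq_mul, mul_one, one_mul]
      rw [h2]
      exact h1
    have hj : Lin T Λ a (fun t => ((ix j).2 : ℂ → Mat N) (ℓ (ix j).1 (t • ((ix i).1 : Fin m → ℂ) + β')))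
        (ℓ (ix j).1 (ix i).1 • ((ix j).1 : Fin m → ℂ))
        (ℓ (ix j).1 β' • ((ix j).1 : Fin m → ℂ) + β j) := by
      have h1 := (hβL j).aff (ℓ (ix j).1 (ix i).1) (ℓ (ix j).1 β')
      have h2 : (fun t => ((ix j).2 : ℂ → Mat N) (ℓ (ix j).1 (t • ((ix i).1 : Fin m → ℂ) + β'))) =
          fun z => ((ix j).2 : ℂ → Mat N) (ℓ (ix j).1 (ix i).1 * z + ℓ (ix j).1 β') := by
        funext t
        rw [map_add, map_smul, smul_eq_mul, mul_comm t]
      rw [h2]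
      exact h1
    have h3 : (fun t => ((ix i).2 : ℂ → Mat N) (ℓ (ix i).1 (t • ((ix i).1 : Fin m → ℂ) + β'))) =
        fun t => ((ix j).2 : ℂ → Mat N) (ℓ (ix j).1 (t • ((ix i).1 : Fin m → ℂ) + β')) :=
      funext hcon
    rw [← h3] at hj
    obtain ⟨h4, -⟩ := hi.unique hT hj
    rw [one_smul] at h4
    have hne : ℓ (ix j).1 (ix i).1 ≠ 0 := by
      intro h0
      rw [h0, zero_smul] at h4
      exact (hs1 _ (ix i).1.2).1 h4
    have h5 : ((ix j).1 : Fin m → ℂ) = (ix i).1 :=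
      hs2 _ (ix j).1.2 _ (ix i).1.2 ⟨_, hne, h4⟩
    apply hij
    apply hixi
    have h6 : (ix j).1 = (ix i).1 := Subtype.ext h5
    -- the second components
    have h7 : ∀ z, ((ix i).2 : ℂ → Mat N) z = ((ix j).2 : ℂ → Mat N) z := by
      intro z
      have e1 := congrFun h3 (z - ℓ (ix i).1 β')
      rw [map_add, map_smul, hℓ, smul_eq_mul, mul_one, sub_add_cancel] at e1
      rw [e1]
      have e2 : ℓ (ix j).1 ((ix i).1 : Fin m → ℂ) = 1 := by
        rw [← h6]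
        exact hℓ _
      have e3 : ℓ (ix j).1 β' = ℓ (ix i).1 β' := by rw [h6]
      rw [map_add, map_smul, e2, e3, smul_eq_mul, mul_one, sub_add_cancel]
    have h8 : ∀ (p q : I), p.1 = q.1 → (∀ z, (p.2 : ℂ → Mat N) z = (q.2 : ℂ → Mat N) z) →
        p = q := by
      rintro ⟨p1, p2⟩ ⟨q1, q2⟩ h h'
      simp only at h
      subst h
      congr 1
      exact Subtype.ext (funext h')
    exact h8 _ _ h6.symm h7

end Pool.Agent.N154.TC
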