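import Pool.Agent.N154.TC.CP
import Pool.Agent.N154.DD.Kob

/-! Entire curves and discs, for abelian varieties. -/

set_option autoImplicit false

open Filter Topology Metric Set

namespace Pool.Agent.N154.TC

open Pool.Agent.Y190.OP Pool.Agent.N155
open Pool.Agent.N154.GG (holP_comp hp_cont UU uu_ge qk qk_ge Xi holP_comp_l)

variable {N m : ℕ} {T : Set (Mat N)} {Λ : AddSubgroup (Fin m → ℂ)} {a : Mat N → Fin m → ℂ}
  {κ : Type} {η : κ → (Fin N → ℂ) → (Fin N → ℂ) → (Fin N → ℂ) → ℂ}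
  {r : ℕ} {v β : Fin r → Fin m → ℂ} {ℓ : Fin r → ((Fin m → ℂ) →L[ℂ] ℂ)}
  {e : Fin r → ℂ → Mat N}

theorem sv_pos_of {φ : ℂ → Fin m → ℂ} (hφ : Differentiable ℂ φ) (hne : ¬ ∀ z, φ z = φ 0) (z : ℂ) :
    0 < sv φ z := by
  rcases (sv_nn φ z).eq_or_lt with h0 | h0
  · exfalso
    apply hne
    have h1 : ∀ w, φ w = φ z := fun w =>
      const_of_sv_zero_l (R := ‖w - z‖ + 1) hφ.differentiableOn h0.symm (by
        rw [mem_ball, dist_eq_norm]
        linarith)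
    intro w
    rw [h1 w, h1 0]
  · exact h0

/-- **Entire curves** -/
theorem entire_eq (hT : TV T Λ a) (hf : Fib T Λ a) (hG : GV T Λ a η) (hE : En T Λ a v β ℓ e)
    {P : ℂ → Mat N} {φ : ℂ → Fin m → ℂ} (hP : HolP univ P) (hPT : ∀ z, P z ∈ T)
    (hφ : Differentiable ℂ φ) (ho : Over Λ a P φ) :
    (∀ z, P z = P 0) ∨ ∃ j, ∀ z, P z = FF ℓ e j (φ z) := by
  classical
  by_cases hne : ∀ z, φ z = φ 0
  · left
    refine hf P (φ 0) hP hPT fun z => ?_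
    have := ho z
    rwa [hne z] at this
  right
  obtain ⟨k, hk⟩ := main_estimate hT hf hG hE
  obtain ⟨C, hC, hmain⟩ := hk k le_rfl
  have hqpos : qk k ≠ 0 := by
    unfold qk
    positivity
  have hq0 : 0 < ((qk k : ℕ) : ℝ)⁻¹ := by
    have := Nat.pos_of_ne_zero hqpos
    positivity
  have hDsc : ∀ (z : ℂ) (R : ℝ), Dsc T Λ a z R P φ := fun z R =>
    ⟨hP.mono (subset_univ _), fun w _ => hPT w, hφ.differentiableOn, fun w _ => ho w⟩
  have hex : ∀ z, ∃ j, P z = FF ℓ e j (φ z) := by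
    intro z
    have hs := sv_pos_of hφ hne z
    set X : ℝ := Pr ℓ e P φ z / 2 ^ r with hX
    have hX0 : 0 ≤ X := div_nonneg (Pr_nonneg P φ z) (by positivity)
    have h1 : sv φ z * X ^ (((qk k : ℕ) : ℝ)⁻¹) ≤ 0 := by
      apply le_of_forall_pos_le_add
      intro ε hε
      have h2 := hmain P φ z (C / ε) (by positivity) (hDsc z _)
      rw [div_div_cancel₀ hC.ne'] at h2
      rw [zero_add]
      exact h2
    have h2 : X ^ (((qk k : ℕ) : ℝ)⁻¹) ≤ 0 := by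
      by_contra hc
      push Not at hc
      exact absurd h1 (not_le.2 (mul_pos hs hc))
    have h3 : X = 0 := by
      have h4 : X ^ (((qk k : ℕ) : ℝ)⁻¹) = 0 := le_antisymm h2 (Real.rpow_nonneg hX0 _)
      exact ((Real.rpow_eq_zero hX0 hq0.ne').1 h4)
    have h4 : Pr ℓ e P φ z = 0 := by
      rw [hX, div_eq_zero_iff] at h3
      exact h3.resolve_right (by positivity)
    obtain ⟨j, -, hj⟩ := Finset.prod_eq_zero_iff.1 h4
    exact ⟨j, sub_eq_zero.1 (norm_eq_zero.1 hj)⟩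
  by_contra hno
  push Not at hno
  have hall : ∀ j, ∀ᶠ z in codiscrete ℂ, P z ≠ FF ℓ e j (φ z) := by
    intro j
    refine (holP_dich hP (holP_comp (hE.lin j).hol
      ((ℓ j).differentiable.comp hφ))).resolve_left fun h => ?_
    obtain ⟨z, hz⟩ := hno j
    exact hz (h z)
  have h1 : ∀ᶠ z in 𝓝[≠] (0 : ℂ), ∀ j, P z ≠ FF ℓ e j (φ z) :=
    eventually_all.2 fun j => codis_ev (hall j) 0
  obtain ⟨z, hz⟩ := h1.exists
  obtain ⟨j, hj⟩ := hex z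
  exact hz j hj

/-- **The infinitesimal estimate** -/
theorem inf_estimate (hT : TV T Λ a) (hf : Fib T Λ a) (hG : GV T Λ a η) (hE : En T Λ a v β ℓ e)
    {ε : ℝ} (hε : 0 < ε) : ∃ C : ℝ, 0 < C ∧ ∀ P : ℂ → Mat N, HolP (ball 0 1) P →
      (∀ w ∈ ball (0 : ℂ) 1, P w ∈ T) → ∀ D : ℝ, 0 ≤ D → D ≤ 1 →
      (∀ M ∈ Xi e, D ≤ ‖P 0 - M‖) → ‖fderiv ℝ P 0‖ * D ^ ε ≤ C := by
  obtain ⟨C1, hC1, hgrad⟩ := gradient_l hT hf
  obtain ⟨k0, hk0⟩ := main_estimate hT hf hG hE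
  set k : ℕ := max k0 ⌈(r : ℝ) / ε⌉₊ with hk
  obtain ⟨C2, hC2, hmain⟩ := hk0 k (le_max_left _ _)
  have hqpos : 0 < (qk k : ℝ) := by
    have : 0 < qk k := by
      unfold qk
      positivity
    exact_mod_cast this
  have hrq : (r : ℝ) * ((qk k : ℕ) : ℝ)⁻¹ ≤ ε := by
    rw [← div_eq_mul_inv, div_le_iff₀ hqpos]
    have h1 : (r : ℝ) / ε ≤ (qk k : ℝ) := by
      have h2 : (r : ℝ) / ε ≤ (k : ℝ) :=
        (Nat.le_ceil _).trans (by exact_mod_cast le_max_right _ _)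
      have h3 : (k : ℝ) ≤ (qk k : ℝ) := by exact_mod_cast qk_ge k
      linarith
    rw [div_le_iff₀ hε] at h1
    linarith
  refine ⟨C1 * (C2 * 2 ^ ε + 1), by positivity, fun P hP hPT D hD0 hD1 hDM => ?_⟩
  obtain ⟨φ, hφ, hov⟩ := hT.exists_lift_ball hP hPT
  have hDsc : Dsc T Λ a 0 1 P φ := ⟨hP, hPT, hφ, hov⟩
  have h1 := hgrad P φ 0 1 one_pos hDsc
  have h2 := hmain P φ 0 1 one_pos hDsc
  rw [div_one] at h1 h2
  set s := sv φ 0 with hs
  have hs0 : 0 ≤ s := sv_nn φ 0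
  set q : ℝ := ((qk k : ℕ) : ℝ)⁻¹ with hq
  have hq0 : 0 < q := inv_pos.2 hqpos
  have h3 : D ^ r ≤ Pr ℓ e P φ 0 := by
    unfold Pr
    calc D ^ r = ∏ _j : Fin r, D := by rw [Finset.prod_const, Finset.card_univ, Fintype.card_fin]
      _ ≤ _ := Finset.prod_le_prod (fun _ _ => hD0) fun j _ => hDM _ ⟨j, ℓ j (φ 0), rfl⟩
  have h4 : D ^ ε ≤ 2 ^ ε * (Pr ℓ e P φ 0 / 2 ^ r) ^ q := by
    have e1 : D ^ ε ≤ D ^ ((r : ℝ) * q) :=
      Real.rpow_le_rpow_of_exponent_ge_of_imp hD0 hD1 hrq (fun h0 h00 => by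
        exact absurd h00 hε.ne')
    have e2 : D ^ ((r : ℝ) * q) = 2 ^ ((r : ℝ) * q) * (D ^ r / 2 ^ r) ^ q := by
      rw [← div_pow, Real.rpow_mul hD0, Real.rpow_natCast,
        Real.rpow_mul (by norm_num : (0 : ℝ) ≤ 2), Real.rpow_natCast,
        ← Real.mul_rpow (by positivity) (by positivity), div_pow,
        mul_div_cancel₀ _ (by positivity)]
    have e3 : (2 : ℝ) ^ ((r : ℝ) * q) ≤ 2 ^ ε :=
      Real.rpow_le_rpow_of_exponent_le (by norm_num) hrq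
    have e4 : (D ^ r / 2 ^ r) ^ q ≤ (Pr ℓ e P φ 0 / 2 ^ r) ^ q := by
      apply Real.rpow_le_rpow (by positivity) _ hq0.le
      exact div_le_div_of_nonneg_right h3 (by positivity)
    rw [e2] at e1
    refine e1.trans ?_
    exact mul_le_mul e3 e4 (by positivity) (by positivity)
  have h5 : D ^ ε ≤ 1 := Real.rpow_le_one hD0 hD1 hε.le
  have hDε : 0 ≤ D ^ ε := Real.rpow_nonneg hD0 _
  have hp : 0 ≤ (Pr ℓ e P φ 0 / 2 ^ r) ^ q :=
    Real.rpow_nonneg (div_nonneg (Pr_nonneg P φ 0) (by positivity)) _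
  calc ‖fderiv ℝ P 0‖ * D ^ ε ≤ (C1 * max s 1) * D ^ ε := mul_le_mul_of_nonneg_right h1 hDε
    _ ≤ (C1 * (s + 1)) * D ^ ε := by
        have : max s 1 ≤ s + 1 := max_le (by linarith) (by linarith)
        gcongr
    _ = C1 * (s * D ^ ε + D ^ ε) := by ring
    _ ≤ C1 * (s * (2 ^ ε * (Pr ℓ e P φ 0 / 2 ^ r) ^ q) + 1) := by gcongr
    _ = C1 * ((s * (Pr ℓ e P φ 0 / 2 ^ r) ^ q) * 2 ^ ε + 1) := by ring
    _ ≤ C1 * (C2 * 2 ^ ε + 1) := by gcongr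

end Pool.Agent.N154.TC
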