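import Pool.Agent.N154.TC.Lin

/-! Curves over lines are doubly periodic. -/

set_option autoImplicit false

open Filter Topology Metric Set

namespace Pool.Agent.N154.TC

open Pool.Agent.Y190.OP Pool.Agent.N155
open Pool.Agent.N154.GG (holP_comp hp_cont hyper_ge)

variable {N m : ℕ} {T : Set (Mat N)} {Λ : AddSubgroup (Fin m → ℂ)} {a : Mat N → Fin m → ℂ}
    {κ : Type} {η : κ → (Fin N → ℂ) → (Fin N → ℂ) → (Fin N → ℂ) → ℂ}
    {g P Q : ℂ → Mat N} {α β α' β' : Fin m → ℂ} {C : ℝ} {ℓ : (Fin m → ℂ) →L[ℂ] ℂ}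

theorem Lin.cconv {H : ℂ → Mat N} (h : HolP univ H) (l : Filter ℕ) :
    CConv l univ (fun _ => H) H := fun z _ =>
  (h.continuousAt (mem_univ z)).tendsto.comp tendsto_snd

/-- **Finiteness** of the curves over parallel lines at bounded distance -/
theorem lin_finite (hT : TV T Λ a) (hG : GV T Λ a η) (hC0 : 0 < C) (hC : GE T Λ a C)
    (hα : ℓ α ≠ 0) (D : ℝ) :
    {g : ℂ → Mat N | ∃ β, ℓ β = 0 ∧ ‖β‖ ≤ D ∧ Lin T Λ a g α β}.Finite := by
  classical
  set S : Set (ℂ → Mat N) := {g : ℂ → Mat N | ∃ β, ℓ β = 0 ∧ ‖β‖ ≤ D ∧ Lin T Λ a g α β} with hS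
  by_contra hinf
  have hinf' : S.Infinite := hinf
  set g : ℕ → ℂ → Mat N := fun n => (hinf'.natEmbedding S n : ℂ → Mat N) with hg
  have hgm : ∀ n, g n ∈ S := fun n => (hinf'.natEmbedding S n).2
  have hinj : Function.Injective g := fun m n h =>
    (hinf'.natEmbedding S).injective (Subtype.ext h)
  choose β hβ0 hβD hL using hgm
  set 𝓤 : Ultrafilter ℕ := hyperfilter ℕ with h𝓤
  obtain ⟨H, hH, -, hHc, -⟩ := exists_limit hT.comp hT.csub (𝓤 := 𝓤) (K := C * ‖α‖)
    (fun n => (hL n).hol) (fun n z => subset_closure ((hL n).mem z))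
    (fun n => (hL n).grad hC0 hC)
  obtain ⟨βl, -, hβl⟩ := exists_lim_v (𝓤 := 𝓤) (h := β) (Eventually.of_forall hβD)
  have hHL : Lin T Λ a H α βl :=
    lin_lim hT hL hH hHc tendsto_const_nhds hβl (fun h0 => hα (by rw [h0, map_zero]))
  have hHT := hHL.mem
  have hℓ : ℓ βl = 0 := by
    have h1 := (ℓ.continuous.tendsto _).comp hβl
    refine tendsto_nhds_unique h1 ?_
    refine tendsto_const_nhds.congr fun n => ?_
    exact (hβ0 n).symm
  have hev : ∀ᶠ n in (𝓤 : Filter ℕ), ‖β n - βl‖ ≤ 1 := by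
    filter_upwards [Metric.tendsto_nhds.1 hβl 1 one_pos] with n hn
    rw [dist_eq_norm] at hn
    exact hn.le
  obtain ⟨R, δ, hR, hδ, hc⟩ := contr_par hT hG hC0 hC hα
  set ψ : ℕ → ℂ → Mat N := fun n => if ‖β n - βl‖ ≤ 1 then g n else H with hψ
  set b : ℕ → Fin m → ℂ := fun n => if ‖β n - βl‖ ≤ 1 then β n else βl with hb
  have hψL : ∀ n, Lin T Λ a (ψ n) α (b n) ∧ ℓ (b n) = ℓ βl ∧ ‖b n - βl‖ ≤ 1 := by
    intro n
    by_cases h : ‖β n - βl‖ ≤ 1
    · have e1 : ψ n = g n := by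
        rw [hψ]
        simp only
        rw [if_pos h]
      have e2 : b n = β n := by
        rw [hb]
        simp only
        rw [if_pos h]
      rw [e1, e2]
      exact ⟨hL n, (hβ0 n).trans hℓ.symm, h⟩
    · have e1 : ψ n = H := by
        rw [hψ]
        simp only
        rw [if_neg h]
      have e2 : b n = βl := by
        rw [hb]
        simp only
        rw [if_neg h]
      rw [e1, e2]
      refine ⟨hHL, rfl, ?_⟩
      rw [sub_self, norm_zero]
      exact zero_le_one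
  have hψc : CConv (𝓤 : Filter ℕ) univ ψ H := by
    intro z hz
    refine (hHc z hz).congr' ?_
    filter_upwards [hev.prod_inl (𝓝 z)] with p hp
    rw [hψ]
    simp only
    rw [if_pos hp]
  have h1 := separation hT.comp hT.csub (K := C * ‖α‖) (R := R) (δ := δ) (θ := 1 / 2) hR hδ
    (by norm_num) (by norm_num) (φ := ψ) (ψ := fun _ => H) (𝓤 := 𝓤)
    (fun n => (hψL n).1.hol) (fun n z => subset_closure ((hψL n).1.mem z))
    (fun n => (hψL n).1.grad hC0 hC)
    (fun _ => hH) (fun _ z => subset_closure (hHT z)) (fun _ => hHL.grad hC0 hC)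
    (fun n => hc (ψ n) H (b n) βl (hψL n).1 hHL (hψL n).2.1 (hψL n).2.2)
    (H := H) hψc (Lin.cconv hH _)
  have h2 : ∀ᶠ n in (𝓤 : Filter ℕ), ∀ z, g n z = H z := by
    filter_upwards [h1, hev] with n hn1 hn2
    have e1 : ψ n = g n := by
      rw [hψ]
      simp only
      rw [if_pos hn2]
    rwa [e1] at hn1
  have h3 : {n | ∀ z, g n z = H z}.Subsingleton := by
    intro i hi n hn
    apply hinj
    funext z
    rw [hi z, hn z]
  exact notMem_hyperfilter_of_finite h3.finite h2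

theorem det_indep {p q : ℂ} {x y : ℝ} (hx : x ≠ 0) (hy : y ≠ 0) (hp : ‖p - (x : ℂ)‖ ≤ |x| / 4)
    (hq : ‖q - (y : ℂ) * Complex.I‖ ≤ |y| / 4) : LinearIndependent ℝ ![p, q] := by
  have hx0 : 0 < |x| := abs_pos.2 hx
  have hy0 : 0 < |y| := abs_pos.2 hy
  have e1 : |p.re - x| ≤ |x| / 4 := by
    have := (Complex.abs_re_le_norm (p - (x : ℂ))).trans hp
    simpa using this
  have e2 : |p.im| ≤ |x| / 4 := by
    have := (Complex.abs_im_le_norm (p - (x : ℂ))).trans hp
    simpa using this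
  have e3 : |q.re| ≤ |y| / 4 := by
    have := (Complex.abs_re_le_norm (q - (y : ℂ) * Complex.I)).trans hq
    simpa using this
  have e4 : |q.im - y| ≤ |y| / 4 := by
    have := (Complex.abs_im_le_norm (q - (y : ℂ) * Complex.I)).trans hq
    simpa using this
  have e5 : 3 * |x| / 4 ≤ |p.re| := by
    have := abs_sub_abs_le_abs_sub x p.re
    rw [abs_sub_comm] at this
    linarith
  have e6 : 3 * |y| / 4 ≤ |q.im| := by
    have := abs_sub_abs_le_abs_sub y q.im
    rw [abs_sub_comm] at this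
    linarith
  have hdet : p.re * q.im - q.re * p.im ≠ 0 := by
    intro h0
    have h1 : |p.re| * |q.im| = |q.re| * |p.im| := by
      rw [← abs_mul, ← abs_mul, sub_eq_zero.1 h0]
    have h2 : 3 * |x| / 4 * (3 * |y| / 4) ≤ |p.re| * |q.im| :=
      mul_le_mul e5 e6 (by positivity) (abs_nonneg _)
    have h3 : |q.re| * |p.im| ≤ |y| / 4 * (|x| / 4) :=
      mul_le_mul e3 e2 (abs_nonneg _) (by positivity)
    have h4 : 0 < |x| * |y| := mul_pos hx0 hy0
    nlinarith
  rw [LinearIndependent.pair_iff]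
  intro s t hst
  have h1 : s * p.re + t * q.re = 0 := by
    have := congrArg Complex.re hst
    simpa using this
  have h2 : s * p.im + t * q.im = 0 := by
    have := congrArg Complex.im hst
    simpa using this
  have h3 : s * (p.re * q.im - q.re * p.im) = 0 := by
    linear_combination q.im * h1 - q.re * h2
  have h4 : t * (p.re * q.im - q.re * p.im) = 0 := by
    linear_combination p.re * h2 - p.im * h1
  exact ⟨(mul_eq_zero.1 h3).resolve_right hdet, (mul_eq_zero.1 h4).resolve_right hdet⟩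

theorem exists_functional (hα : α ≠ 0) : ∃ ℓ : (Fin m → ℂ) →L[ℂ] ℂ, ℓ α = 1 := by
  obtain ⟨i, hi⟩ := Function.ne_iff.1 hα
  have hi' : α i ≠ 0 := hi
  refine ⟨(α i)⁻¹ • ContinuousLinearMap.proj (R := ℂ) (φ := fun _ : Fin m => ℂ) i, ?_⟩
  change (α i)⁻¹ • α i = 1
  rw [smul_eq_mul, inv_mul_cancel₀ hi']

/-- **Double periodicity** -/
theorem Lin.periods (hT : TV T Λ a) (hG : GV T Λ a η) (hC0 : 0 < C) (hC : GE T Λ a C)
    (h : Lin T Λ a g α β) (hα : α ≠ 0) :
    ∃ p q : ℂ, LinearIndependent ℝ ![p, q] ∧ (∀ z, g (z + p) = g z) ∧ ∀ z, g (z + q) = g z := by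
  obtain ⟨ℓ, hℓ⟩ := exists_functional hα
  obtain ⟨D, hD⟩ := hT.coc
  have hD0 : 0 ≤ D := by
    obtain ⟨l, -, hl⟩ := hD 0
    exact (norm_nonneg _).trans hl
  choose lam hlam hlamD using fun s : ℂ => hD (s • α)
  set E : ℝ := ‖ℓ‖ * D with hE
  have hE0 : 0 ≤ E := mul_nonneg (norm_nonneg _) hD0
  have hlE : ∀ s, ‖ℓ (lam s) - s‖ ≤ E := by
    intro s
    have e1 : ℓ (lam s) - s = -ℓ (s • α - lam s) := by
      rw [map_sub, map_smul, hℓ, smul_eq_mul, mul_one]
      ring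
    rw [e1, norm_neg]
    exact (ℓ.le_opNorm _).trans (mul_le_mul_of_nonneg_left (hlamD s) (norm_nonneg _))
  set D1 : ℝ := E * ‖α‖ + D + ‖β - ℓ β • α‖ with hD1
  set S : Set (ℂ → Mat N) := {g : ℂ → Mat N | ∃ β, ℓ β = 0 ∧ ‖β‖ ≤ D1 ∧ Lin T Λ a g α β} with hS
  have hfin : S.Finite := lin_finite hT hG hC0 hC (by rw [hℓ]; exact one_ne_zero) D1
  have : Finite S := hfin
  have hmem : ∀ s, (fun z => g ((-ℓ β + ℓ (lam s)) + z)) ∈ S := by
    intro s
    refine ⟨(-ℓ β + ℓ (lam s)) • α + β - lam s, ?_, ?_, (h.shift _).sub (hlam s)⟩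
    · rw [map_sub, map_add, map_smul, hℓ, smul_eq_mul]
      ring
    · have e1 : (-ℓ β + ℓ (lam s)) • α + β - lam s =
          (ℓ (lam s) - s) • α + (s • α - lam s) + (β - ℓ β • α) := by
        rw [add_smul, neg_smul, sub_smul]
        abel
      rw [e1]
      refine (norm_add_le _ _).trans ?_
      refine add_le_add ((norm_add_le _ _).trans ?_) le_rfl
      rw [norm_smul]
      exact add_le_add (mul_le_mul_of_nonneg_right (hlE s) (norm_nonneg _)) (hlamD s)
  have hper : ∀ u : ℂ, ∃ k : ℤ, k ≠ 0 ∧ ∃ p : ℂ, ‖p - k * (8 * E + 1) * u‖ ≤ 2 * E ∧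
      ∀ z, g (z + p) = g z := by
    intro u
    obtain ⟨i, j, hij, hf⟩ := Finite.exists_ne_map_eq_of_infinite
      (fun n : ℕ => (⟨_, hmem (n * (8 * E + 1) * u)⟩ : S))
    have hf' : ∀ z, g ((-ℓ β + ℓ (lam (i * (8 * E + 1) * u))) + z) =
        g ((-ℓ β + ℓ (lam (j * (8 * E + 1) * u))) + z) := fun z =>
      congrFun (congrArg Subtype.val hf) z
    refine ⟨(i : ℤ) - j, ?_, ℓ (lam (i * (8 * E + 1) * u)) - ℓ (lam (j * (8 * E + 1) * u)), ?_, ?_⟩
    · intro h0
      apply hij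
      exact_mod_cast sub_eq_zero.1 h0
    · have e1 := hlE (i * (8 * E + 1) * u)
      have e2 := hlE (j * (8 * E + 1) * u)
      have e3 := norm_sub_le (ℓ (lam (i * (8 * E + 1) * u)) - i * (8 * E + 1) * u)
        (ℓ (lam (j * (8 * E + 1) * u)) - j * (8 * E + 1) * u)
      refine le_trans (le_of_eq ?_) (e3.trans (by linarith))
      congr 1
      push_cast
      ring
    · intro z
      have e1 := hf' (z - (-ℓ β + ℓ (lam (j * (8 * E + 1) * u))))
      rw [add_sub_cancel] at e1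
      rw [← e1]
      congr 1
      ring
  obtain ⟨k, hk, p, hp, hp'⟩ := hper 1
  obtain ⟨k', hk', q, hq, hq'⟩ := hper Complex.I
  have hM : ∀ k : ℤ, k ≠ 0 → 2 * E ≤ |(k : ℝ) * (8 * E + 1)| / 4 := by
    intro k hk
    have h1 : (1 : ℝ) ≤ |(k : ℝ)| := by exact_mod_cast Int.one_le_abs hk
    rw [abs_mul, abs_of_nonneg (show 0 ≤ 8 * E + 1 by linarith)]
    have h2 : 1 * (8 * E + 1) ≤ |(k : ℝ)| * (8 * E + 1) :=
      mul_le_mul_of_nonneg_right h1 (by linarith)
    linarith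
  have hne : ∀ k : ℤ, k ≠ 0 → (k : ℝ) * (8 * E + 1) ≠ 0 := by
    intro k hk
    have : (k : ℝ) ≠ 0 := by exact_mod_cast hk
    exact mul_ne_zero this (by linarith)
  refine ⟨p, q, det_indep (hne k hk) (hne k' hk') ?_ ?_, hp', hq'⟩
  · refine le_trans (le_of_eq ?_) (hp.trans (hM k hk))
    congr 1
    push_cast
    ring
  · refine le_trans (le_of_eq ?_) (hq.trans (hM k' hk'))
    congr 1
    push_cast
    ring

end Pool.Agent.N154.TC
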