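import Pool.Agent.N154.TC.Geo
import Pool.Agent.N154.DD.KGeo

/-! The exceptional set, and chains of discs. -/

set_option autoImplicit false

open Filter Topology Metric Set LinearAlgebra.Projectivization MvPolynomial

namespace Pool.Agent.N154.TC

open Pool.Agent.N154.TB (Zeros CurveIn IsConst BrodyHyp HypFibres TwoForms)
open FF Pool.Agent.Y190.OP Pool.Agent.W602.GT
open Pool.Agent.N155 (eval_smul val_eval nz nz_Phi nz_codis)
open Pool.Agent.N154.TT (HolToTorus RiemannForm)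
open Pool.Agent.N154.GG (HolMap HolMapOn GraphAt contDiffAt_chart toProj toProj_Phi Phi_rep_mk
  Phi_rep_toProj proj_ext holMap_of holP_of IsChainLength poincareDist holP_of_on cost_eq)

variable {n m : ℕ} {X : Set (Fin (n + 1) → ℂ)} {ι : Type} {G : ι → MvPolynomial (Fin (n + 1)) ℂ}

theorem dense_codis {s : Set ℂ} (h : s ∈ codiscrete ℂ) : Dense s := by
  intro x
  rw [mem_codiscrete] at h
  have h1 : s ∈ 𝓝[≠] x := by
    have := h x
    rwa [disjoint_principal_right, compl_compl] at this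
  rw [mem_closure_iff_nhdsWithin_neBot]
  have h2 : (𝓝[≠] x).NeBot := inferInstance
  refine h2.mono ?_
  rw [nhdsWithin, nhdsWithin]
  refine le_inf inf_le_left ?_
  rw [le_principal_iff]
  exact h1

theorem Zeros_smul (hG : ∀ j, IsForm (G j)) :
    ∀ x ∈ Zeros G, ∀ c : ℂ, c ≠ 0 → c • x ∈ Zeros G := by
  intro x hx c _ j
  obtain ⟨e, he⟩ := hG j
  rw [val_eval, eval_smul he, ← val_eval, hx j, mul_zero]

theorem not_SM {M : Mat (n + 1)} (hM : M ∈ PM) {j : ι} (hG : IsForm (G j)) (h : nz (G j) M) :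
    M ∉ SM (Zeros G) := by
  intro h1
  obtain ⟨i, hi⟩ := PM.exists_diag hM
  have h2 := h1 i hi j
  obtain ⟨e, he⟩ := hG
  rw [← PM.Phi_chart hM hi, nz_Phi he (PM.chart_ne hi)] at h
  rw [val_eval] at h2
  exact h h2

theorem exists_nz {M : Mat (n + 1)} (hM : M ∈ PM) (hG : ∀ j, IsForm (G j))
    (h : M ∉ SM (Zeros G)) : ∃ j, nz (G j) M := by
  have h' : ¬ ∀ i, M i i ≠ 0 → chart i M ∈ Zeros G := h
  push Not at h'
  obtain ⟨i, hi, h1⟩ := h'
  have h2 : ¬ ∀ j, val (chart i M) (G j) = 0 := h1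
  push Not at h2
  obtain ⟨j, hj⟩ := h2
  obtain ⟨e, he⟩ := hG j
  refine ⟨j, ?_⟩
  rw [← PM.Phi_chart hM hi, nz_Phi he (PM.chart_ne hi), ← val_eval]
  exact hj

/-- nonconstant curves do not lie in the exceptional set -/
theorem dense_of (hX : Conic X) (hG : ∀ j, IsForm (G j)) (hB : BrodyHyp (X ∩ Zeros G))
    {T : Set (Mat (n + 1))} (hT : T ⊆ TS X) (H : ℂ → Mat (n + 1)) (hH : HolP univ H)
    (hHT : ∀ z, H z ∈ T) (hne : ¬ ∀ z, H z = H 0) : Dense {t | H t ∉ SM (Zeros G)} := by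
  have hPM : ∀ z, H z ∈ PM := fun z => TS_PM hX (hT (hHT z))
  obtain ⟨z1, hz1⟩ : ∃ z, H z ∉ SM (Zeros G) := by
    by_contra hcon
    push Not at hcon
    apply hne
    have h1 := hB (fun z => toProj (H z)) ⟨holMap_of hH, fun z => ?_⟩
    · intro z
      have h2 := congrArg (fun p : ℙ ℂ (Fin (n + 1) → ℂ) => Phi p.rep) (h1 z 0)
      change Phi (toProj (H z)).rep = Phi (toProj (H 0)).rep at h2
      rwa [Phi_rep_toProj (hPM z), Phi_rep_toProj (hPM 0)] at h2
    · obtain ⟨i, hi⟩ := PM.exists_diag (hPM z)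
      have e1 := TS_chart hX (hT (hHT z)) hi
      have e2 := hcon z i hi
      have e3 : Conic (X ∩ Zeros G) := fun x hx => ⟨(hX x hx.1).1, fun c hc =>
        ⟨(hX x hx.1).2 c hc, Zeros_smul hG x hx.2 c hc⟩⟩
      exact rep_toProj e3 ⟨chart i (H z), ⟨e1, e2⟩, (PM.Phi_chart (hPM z) hi).symm⟩
  obtain ⟨j, hj⟩ := exists_nz (hPM z1) hG hz1
  obtain ⟨e, he⟩ := hG j
  have h1 := nz_codis hH he hj
  refine dense_codis ?_
  filter_upwards [h1] with z hz
  exact not_SM (hPM z) (hG j) hz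

/-- chains of discs and truncated distances -/
theorem chain_trunc {M0 : Mat (n + 1)} {A ρ : ℝ} (hA : 0 ≤ A)
    (h : ∀ P : ℂ → Mat (n + 1), HolP (ball 0 1) P → (∀ w ∈ ball (0 : ℂ) 1, P w ∈ TS X) →
      ∀ s ∈ ball (0 : ℂ) 1, ∀ t ∈ ball (0 : ℂ) 1,
        dist (min ‖P t - M0‖ ρ) (min ‖P s - M0‖ ρ) ≤ A * Pool.Agent.Helper206.cost s t)
    {p q : ℙ ℂ (Fin (n + 1) → ℂ)} {c : ℝ} (hc : IsChainLength X p q c) :
    dist (min ‖Phi q.rep - M0‖ ρ) (min ‖Phi p.rep - M0‖ ρ) ≤ A * c := by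
  obtain ⟨k, r, f, s, t, h0, hl, hi, rfl⟩ := hc
  have h1 := Pool.Agent.Helper206.chain_bound k (fun j => min ‖Phi (r j).rep - M0‖ ρ)
    (fun i => A * poincareDist (s i) (t i))
    (by
      intro i
      obtain ⟨-, -, hs, ht, -, -⟩ := hi i
      exact mul_nonneg hA ((Pool.Agent.Helper206.phd_nonneg (s i) (t i)).trans
        (Pool.Agent.Helper206.phd_le_cost hs ht)))
    (by
      intro i
      obtain ⟨hf, hfS, hs, ht, es, et⟩ := hi i
      have := h (fun z => Phi (f i z).rep) (holP_of_on hf) (fun w hw => mem_TS (hfS w hw))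
        _ hs _ ht
      simp only [es, et, cost_eq] at this
      exact this) (Fin.last k)
  simp only [h0, hl] at h1
  rw [← Finset.mul_sum] at h1
  exact h1

end Pool.Agent.N154.TC
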