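import Pool.Agent.N154.TC.Basic

/-! Limits of vector valued holomorphic functions. -/

set_option autoImplicit false

open Filter Topology Metric Set

namespace Pool.Agent.N154.TC

open Pool.Agent.Y190.OP Pool.Agent.N155
open Pool.Agent.N154.GG (exists_limit_fun_l)

variable {N m : ℕ}

/-- componentwise convergence -/
theorem cconv_pi {l : Filter ℕ} {U : Set ℂ} {φ : ℕ → ℂ → Fin m → ℂ} {Φ : ℂ → Fin m → ℂ}
    (h : ∀ j, CConv l U (fun n z => φ n z j) (fun z => Φ z j)) : CConv l U φ Φ := by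
  intro z hz
  rw [tendsto_pi_nhds]
  intro j
  exact h j z hz

theorem cconv_apply {l : Filter ℕ} {U : Set ℂ} {φ : ℕ → ℂ → Fin m → ℂ} {Φ : ℂ → Fin m → ℂ}
    (h : CConv l U φ Φ) (j : Fin m) : CConv l U (fun n z => φ n z j) (fun z => Φ z j) := by
  intro z hz
  exact (tendsto_pi_nhds.1 (h z hz)) j

theorem deriv_comp_pi {φ : ℂ → Fin m → ℂ} {z : ℂ} (h : DifferentiableAt ℂ φ z) (j : Fin m) :
    deriv (fun z => φ z j) z = deriv φ z j := by
  have h1 := hasDerivAt_pi.1 h.hasDerivAt j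
  exact h1.deriv

/-- limits of entire functions -/
theorem exists_limit_fun_v {𝓤 : Ultrafilter ℕ} {φ : ℕ → ℂ → Fin m → ℂ}
    (hφ : ∀ L : ℝ, ∀ᶠ n in (𝓤 : Filter ℕ), DifferentiableOn ℂ (φ n) (ball 0 L))
    (h0 : ∃ C : ℝ, ∀ᶠ n in (𝓤 : Filter ℕ), ‖φ n 0‖ ≤ C)
    (hb : ∀ L : ℝ, ∃ K : ℝ, ∀ᶠ n in (𝓤 : Filter ℕ), ∀ z ∈ ball (0 : ℂ) L, ‖deriv (φ n) z‖ ≤ K) :
    ∃ Φ : ℂ → Fin m → ℂ, Differentiable ℂ Φ ∧ CConv (𝓤 : Filter ℕ) univ φ Φ ∧
      ∀ z, Tendsto (fun n => deriv (φ n) z) 𝓤 (𝓝 (deriv Φ z)) := by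
  have hj : ∀ j : Fin m, ∃ Φ : ℂ → ℂ, Differentiable ℂ Φ ∧
      CConv (𝓤 : Filter ℕ) univ (fun n z => φ n z j) Φ ∧
      ∀ z, Tendsto (fun n => deriv (fun z => φ n z j) z) 𝓤 (𝓝 (deriv Φ z)) := by
    intro j
    apply exists_limit_fun_l
    · intro L
      filter_upwards [hφ L] with n hn
      exact (differentiableOn_pi.1 hn) j
    · obtain ⟨C, hC⟩ := h0
      refine ⟨C, ?_⟩
      filter_upwards [hC] with n hn
      exact (norm_le_pi_norm _ j).trans hn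
    · intro L
      obtain ⟨K, hK⟩ := hb L
      refine ⟨K, ?_⟩
      filter_upwards [hK, hφ L] with n hn hd z hz
      rw [deriv_comp_pi (hd.differentiableAt (isOpen_ball.mem_nhds hz))]
      exact (norm_le_pi_norm _ j).trans (hn z hz)
  choose Φ h1 h2 h3 using hj
  refine ⟨fun z j => Φ j z, ?_, cconv_pi h2, fun z => ?_⟩
  · rw [differentiable_pi]
    exact h1
  · rw [tendsto_pi_nhds]
    intro j
    have h4 : deriv (fun z j => Φ j z) z j = deriv (Φ j) z := by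
      have : DifferentiableAt ℂ (fun z j => Φ j z) z := by
        rw [differentiableAt_pi]
        exact fun j => h1 j z
      rw [← deriv_comp_pi this j]
    rw [h4]
    refine (h3 j z).congr' ?_
    filter_upwards [hφ (‖z‖ + 1)] with n hn
    exact deriv_comp_pi (hn.differentiableAt (isOpen_ball.mem_nhds
      (mem_ball_zero_iff.2 (by linarith)))) j

theorem exists_lim_v {𝓤 : Ultrafilter ℕ} {h : ℕ → Fin m → ℂ} {C : ℝ}
    (hb : ∀ᶠ n in (𝓤 : Filter ℕ), ‖h n‖ ≤ C) : ∃ y : Fin m → ℂ, ‖y‖ ≤ C ∧ Tendsto h 𝓤 (𝓝 y) := by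
  have h1 : (𝓤.map h : Filter (Fin m → ℂ)) ≤ 𝓟 (closedBall (0 : Fin m → ℂ) C) := by
    rw [Ultrafilter.coe_map, le_principal_iff, mem_map]
    filter_upwards [hb] with n hn
    exact mem_closedBall_zero_iff.2 hn
  obtain ⟨y, hy', hy⟩ := (isCompact_closedBall (0 : Fin m → ℂ) C).ultrafilter_le_nhds (𝓤.map h) h1
  exact ⟨y, mem_closedBall_zero_iff.1 hy', hy⟩

end Pool.Agent.N154.TC
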