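import Pool.Agent.N154.TC.Rig
import Pool.Agent.N155.Sep

/-! Curves over lines, and their contraction. -/

set_option autoImplicit false

open Filter Topology Metric Set

namespace Pool.Agent.N154.TC

open Pool.Agent.Y190.OP Pool.Agent.N155
open Pool.Agent.N154.GG (holP_comp hp_cont hyper_ge holP_comp_l norm_fderiv_comp)

variable {N m : ℕ} {T : Set (Mat N)} {Λ : AddSubgroup (Fin m → ℂ)} {a : Mat N → Fin m → ℂ}
    {κ : Type} {η : κ → (Fin N → ℂ) → (Fin N → ℂ) → (Fin N → ℂ) → ℂ}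

/-- `g` is a curve over the line `t ↦ t • α + β` -/
structure Lin (T : Set (Mat N)) (Λ : AddSubgroup (Fin m → ℂ)) (a : Mat N → Fin m → ℂ)
    (g : ℂ → Mat N) (α β : Fin m → ℂ) : Prop where
  hol : HolP univ g
  mem : ∀ z, g z ∈ T
  ov : Over Λ a g (fun t => t • α + β)

/-- the gradient estimate -/
def GE (T : Set (Mat N)) (Λ : AddSubgroup (Fin m → ℂ)) (a : Mat N → Fin m → ℂ) (C : ℝ) : Prop :=
  ∀ (P : ℂ → Mat N) (φ : ℂ → Fin m → ℂ) (z : ℂ) (R : ℝ), 0 < R → Dsc T Λ a z R P φ →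
    ‖fderiv ℝ P z‖ ≤ C * max (sv φ z) (1 / R)

variable {g P Q : ℂ → Mat N} {α β α' β' : Fin m → ℂ} {C : ℝ} {ℓ : (Fin m → ℂ) →L[ℂ] ℂ}

theorem diff_line (α β : Fin m → ℂ) : Differentiable ℂ (fun t : ℂ => t • α + β) := by fun_prop

theorem Lin.dsc (h : Lin T Λ a g α β) (z : ℂ) (L : ℝ) :
    Dsc T Λ a z L g (fun t => t • α + β) where
  hol := fun z _ => by
    obtain ⟨V, F, hV, hzV, hd, hF⟩ := h.hol z (mem_univ z)
    exact ⟨V, F, hV, hzV, hd, hF⟩
  mem := fun w _ => h.mem w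
  dif := (diff_line α β).differentiableOn
  ov := fun w _ => h.ov w

theorem sv_line (α β : Fin m → ℂ) (z : ℂ) : sv (fun t : ℂ => t • α + β) z ≤ ‖α‖ := by
  apply sv_le (norm_nonneg _)
  intro k
  unfold cv
  rw [iteratedDeriv_succ']
  have h1 : deriv (fun t : ℂ => t • α + β) = fun _ => α := by
    funext z
    have := ((hasDerivAt_id z).smul_const α).add_const β
    rw [one_smul] at this
    exact this.deriv
  rw [h1, iteratedDeriv_const]
  split_ifs with h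
  · rw [h]
    simp
  · rw [norm_zero, zero_div]
    positivity

theorem Lin.grad (h : Lin T Λ a g α β) (hC0 : 0 < C) (hC : GE T Λ a C) (z : ℂ) :
    ‖fderiv ℝ g z‖ ≤ C * ‖α‖ := by
  apply le_of_forall_pos_le_add
  intro ε hε
  have h1 := hC g _ z (C / ε) (by positivity) (h.dsc z _)
  rw [one_div_div] at h1
  refine h1.trans ?_
  have h2 : max (sv (fun t : ℂ => t • α + β) z) (ε / C) ≤ ‖α‖ + ε / C := by
    apply max_le
    · have := sv_line α β z
      have : 0 < ε / C := by positivity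
      linarith [sv_line α β z]
    · linarith [norm_nonneg α]
  calc C * max (sv (fun t : ℂ => t • α + β) z) (ε / C) ≤ C * (‖α‖ + ε / C) :=
        mul_le_mul_of_nonneg_left h2 hC0.le
    _ = C * ‖α‖ + ε := by
        rw [mul_add, mul_div_cancel₀ _ hC0.ne']

theorem Lin.aff (h : Lin T Λ a g α β) (c d : ℂ) :
    Lin T Λ a (fun z => g (c * z + d)) (c • α) (d • α + β) where
  hol := holP_comp h.hol (by fun_prop)
  mem := fun z => h.mem _
  ov := fun z => by
    have h1 := h.ov (c * z + d)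
    have h2 : z • c • α + (d • α + β) = (c * z + d) • α + β := by
      rw [add_smul, smul_smul, mul_comm z c, add_assoc]
    change z • c • α + (d • α + β) - a (g (c * z + d)) ∈ Λ
    rw [h2]
    exact h1

theorem Lin.shift (h : Lin T Λ a g α β) (d : ℂ) :
    Lin T Λ a (fun z => g (d + z)) α (d • α + β) where
  hol := holP_comp h.hol (by fun_prop)
  mem := fun z => h.mem _
  ov := fun z => by
    have h1 := h.ov (d + z)
    have h2 : z • α + (d • α + β) = (d + z) • α + β := by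
      rw [add_smul]
      abel
    change z • α + (d • α + β) - a (g (d + z)) ∈ Λ
    rw [h2]
    exact h1

theorem Lin.sub (h : Lin T Λ a g α β) {l : Fin m → ℂ} (hl : l ∈ Λ) : Lin T Λ a g α (β - l) where
  hol := h.hol
  mem := h.mem
  ov := fun z => by
    have h1 := Λ.sub_mem (h.ov z) hl
    have h2 : z • α + (β - l) - a (g z) = z • α + β - a (g z) - l := by abel
    change z • α + (β - l) - a (g z) ∈ Λ
    rw [h2]
    exact h1

/-- lines in the lattice are constant -/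
theorem TV.line_const (hT : TV T Λ a) (h : ∀ t : ℂ, t • α + β ∈ Λ) : α = 0 ∧ β ∈ Λ := by
  have h0 := h 0
  rw [zero_smul, zero_add] at h0
  refine ⟨?_, h0⟩
  have h1 := hT.ev_const (f := fun t : ℂ => t • α + β) (z0 := (0 : ℂ))
    (diff_line α β).continuous.continuousAt (Eventually.of_forall h)
  have h2 := (h1.filter_mono (nhdsWithin_le_nhds (s := {0}ᶜ))).and self_mem_nhdsWithin
  obtain ⟨t, ht, ht0⟩ := h2.exists
  have h3 : t • α + β = β := by
    have : t • α + β = (0 : ℂ) • α + β := ht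
    rwa [zero_smul, zero_add] at this
  exact (smul_eq_zero.1 (add_eq_right.1 h3)).resolve_left ht0

theorem Lin.unique (hT : TV T Λ a) (h : Lin T Λ a g α β) (h' : Lin T Λ a g α' β') :
    α = α' ∧ β - β' ∈ Λ := by
  have h1 := hT.line_const (α := α - α') (β := β - β') (by
    intro t
    have h2 := Λ.sub_mem (h.ov t) (h'.ov t)
    have h3 : t • (α - α') + (β - β') = t • α + β - a (g t) - (t • α' + β' - a (g t)) := by
      rw [smul_sub]
      abel
    rw [h3]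
    exact h2)
  exact ⟨sub_eq_zero.1 h1.1, h1.2⟩

/-- limits of curves over lines -/
theorem lin_lim (hT : TV T Λ a) {𝓤 : Ultrafilter ℕ} {P : ℕ → ℂ → Mat N} {w b : ℕ → Fin m → ℂ}
    {wl bl : Fin m → ℂ} {H : ℂ → Mat N} (hP : ∀ n, Lin T Λ a (P n) (w n) (b n))
    (hH : HolP univ H) (hHc : CConv (𝓤 : Filter ℕ) univ P H)
    (hw : Tendsto w (𝓤 : Filter ℕ) (𝓝 wl)) (hb : Tendsto b (𝓤 : Filter ℕ) (𝓝 bl))
    (hne : wl ≠ 0) : Lin T Λ a H wl bl := by
  obtain ⟨h1, h2⟩ := hT.curve_in (𝓤 := 𝓤) (h := P) (H := H) (φ := fun n t => t • w n + b n)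
    (Φ := fun t => t • wl + bl) (fun L => Eventually.of_forall fun n =>
      ⟨((hP n).dsc 0 L).hol, fun z _ => ⟨(hP n).mem z, (hP n).ov z⟩⟩) hH hHc
    (diff_line wl bl).continuous (fun z => (hw.const_smul z).add hb) ⟨1, fun h0 => hne (by
      simpa using h0)⟩
  exact ⟨hH, h1, h2⟩

/-- **The core of the contraction** -/
theorem contr_core (hT : TV T Λ a) (hG : GV T Λ a η) (hC0 : 0 < C) (hC : GE T Λ a C)
    {P Q : ℕ → ℂ → Mat N} {w w' b b' : ℕ → Fin m → ℂ} {bb : ℕ → ℂ} {A : ℝ} {c0 : ℝ} (hc0 : 0 < c0)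
    (hP : ∀ n, Lin T Λ a (P n) (w n) (b n)) (hQ : ∀ n, Lin T Λ a (Q n) (w' n) (b' n))
    (hw : ∀ n, ‖w n‖ ≤ A) (hw' : ∀ n, ‖w' n‖ ≤ A) (hb : ∀ n, ‖b n‖ ≤ A) (hb' : ∀ n, ‖b' n‖ ≤ A)
    (hℓ : ∀ n, ℓ (w n) = ℓ (w' n)) (hℓ0 : ∀ n, c0 ≤ ‖ℓ (w n)‖)
    (hdis : ∀ μ ∈ Λ, Tendsto (fun n => ℓ (b n - b' n))
      ((hyperfilter ℕ : Ultrafilter ℕ) : Filter ℕ) (𝓝 (ℓ μ)) →
      ∀ᶠ n in ((hyperfilter ℕ : Ultrafilter ℕ) : Filter ℕ), ℓ (b n - b' n) = ℓ μ)
    (hsm : ∀ n : ℕ, ∀ z ∈ closedBall (0 : ℂ) ((n : ℝ) + 1), ‖P n z - Q n z‖ ≤ 1 / ((n : ℝ) + 1))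
    (hbd : ∀ n : ℕ, ∀ z ∈ closedBall (0 : ℂ) ((n : ℝ) + 1),
      1 / 2 * (‖P n z - Q n z‖ * ‖Complex.exp (bb n * z)‖) < ‖P n 0 - Q n 0‖) : False := by
  have hd0 : ∀ n, 0 < ‖P n 0 - Q n 0‖ := by
    intro n
    have h1 := hbd n 0 (mem_closedBall_self (by positivity))
    rw [mul_zero, Complex.exp_zero, norm_one, mul_one] at h1
    by_contra h2
    push Not at h2
    have h3 : ‖P n 0 - Q n 0‖ = 0 := le_antisymm h2 (norm_nonneg _)
    rw [h3] at h1
    norm_num at h1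
  set 𝓤 : Ultrafilter ℕ := hyperfilter ℕ with h𝓤
  obtain ⟨H, hH, -, hHc, -⟩ := exists_limit hT.comp hT.csub (𝓤 := 𝓤) (K := C * A)
    (fun n => (hP n).hol) (fun n t => subset_closure ((hP n).mem t))
    (fun n t => ((hP n).grad hC0 hC t).trans (mul_le_mul_of_nonneg_left (hw n) hC0.le))
  obtain ⟨H', hH', -, hHc', -⟩ := exists_limit hT.comp hT.csub (𝓤 := 𝓤) (K := C * A)
    (fun n => (hQ n).hol) (fun n t => subset_closure ((hQ n).mem t))
    (fun n t => ((hQ n).grad hC0 hC t).trans (mul_le_mul_of_nonneg_left (hw' n) hC0.le))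
  obtain ⟨wl, -, hwl⟩ := exists_lim_v (𝓤 := 𝓤) (h := w) (Eventually.of_forall hw)
  obtain ⟨wl', -, hwl'⟩ := exists_lim_v (𝓤 := 𝓤) (h := w') (Eventually.of_forall hw')
  obtain ⟨bl, -, hbl⟩ := exists_lim_v (𝓤 := 𝓤) (h := b) (Eventually.of_forall hb)
  obtain ⟨bl', -, hbl'⟩ := exists_lim_v (𝓤 := 𝓤) (h := b') (Eventually.of_forall hb')
  have hHH : H' = H := by
    funext t
    have h1 : Tendsto (fun n => ‖P n t - Q n t‖) 𝓤 (𝓝 ‖H t - H' t‖) :=
      ((hHc.pointwise (mem_univ t)).sub (hHc'.pointwise (mem_univ t))).norm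
    have h2 : Tendsto (fun n => ‖P n t - Q n t‖) 𝓤 (𝓝 0) := by
      rw [Metric.tendsto_nhds]
      intro ε hε
      filter_upwards [hyper_ge (‖t‖ + 1 / ε)] with n hn
      have hn0 : (0 : ℝ) < (n : ℝ) + 1 := by positivity
      have hε' : 0 < 1 / ε := by positivity
      have h3 := hsm n t (by
        rw [mem_closedBall_zero_iff]
        linarith)
      rw [dist_zero_right, norm_norm]
      refine lt_of_le_of_lt h3 ?_
      rw [div_lt_comm₀ hn0 hε]
      have := norm_nonneg t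
      linarith
    have h3 := tendsto_nhds_unique h1 h2
    exact (sub_eq_zero.1 (norm_eq_zero.1 h3)).symm
  rw [hHH] at hHc'
  have hα : ℓ wl ≠ 0 := by
    have h1 : c0 ≤ ‖ℓ wl‖ := ge_of_tendsto ((ℓ.continuous.tendsto _).comp hwl).norm
      (Eventually.of_forall hℓ0)
    exact norm_pos_iff.1 (hc0.trans_le h1)
  have hL : Lin T Λ a H wl bl :=
    lin_lim hT hP hH hHc hwl hbl (fun h0 => hα (by rw [h0, map_zero]))
  have hHT := hL.mem
  have hL' : Lin T Λ a H wl' bl' := by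
    refine ⟨hH, hHT, fun t => ?_⟩
    exact hT.lim (l := (𝓤 : Filter ℕ)) (Eventually.of_forall fun n => (hQ n).mem t)
      (hHc'.pointwise (mem_univ t)) (hHT t) (Eventually.of_forall fun n => (hQ n).ov t)
      ((hwl'.const_smul t).add hbl')
  obtain ⟨hww, hμ⟩ := hL.unique hT hL'
  set μ := bl - bl' with hμd
  have hev := hdis μ hμ ((ℓ.continuous.tendsto _).comp (hbl.sub hbl'))
  have hQ' : ∀ n, Lin T Λ a (Q n) (w' n) (b' n - -μ) := fun n => (hQ n).sub (Λ.neg_mem hμ)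
  have hRV : RV T Λ a 𝓤 H ℓ wl bl (C * ‖wl‖) 2 P Q (fun n t => t • w n + b n)
      (fun n t => t • w' n + (b' n - -μ))
      (fun n t => Complex.exp (bb n * t) / (‖P n 0 - Q n 0‖ : ℝ)) :=
    { hH := hH
      HT := hHT
      Hov := hL.ov
      HB := hL.grad hC0 hC
      hα := hα
      hP := fun L => Eventually.of_forall fun n => (hP n).dsc 0 L
      hQ := fun L => Eventually.of_forall fun n => (hQ' n).dsc 0 L
      eq := fun t => by
        filter_upwards [hev] with n hn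
        rw [map_add, map_add, map_smul, map_smul, hℓ n, sub_neg_eq_add, map_add ℓ (b' n), ← hn,
          map_sub]
        ring
      lim := fun t => ⟨_, ((hwl'.const_smul t).add (hbl'.sub_const (-μ))).sub
        ((hwl.const_smul t).add hbl)⟩
      wtd := fun L => Eventually.of_forall fun n => by fun_prop
      cP := hHc
      cQ := hHc'
      bd := fun L => by
        filter_upwards [hyper_ge L] with n hn t ht
        rw [mem_closedBall_zero_iff] at ht
        have h1 := hbd n t (by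
          rw [mem_closedBall_zero_iff]
          linarith)
        rw [norm_div, Complex.norm_real, norm_norm, ← mul_div_assoc, div_le_iff₀ (hd0 n),
          norm_sub_rev]
        linarith }
  refine rigid_v hT hG hRV ?_
  refine Eventually.of_forall fun n => ?_
  rw [mul_zero, Complex.exp_zero, norm_div, Complex.norm_real, norm_norm, norm_one,
    norm_sub_rev, mul_one_div, div_self (hd0 n).ne']

/-- **Contraction** for curves over parallel lines -/
theorem contr_par (hT : TV T Λ a) (hG : GV T Λ a η) (hC0 : 0 < C) (hC : GE T Λ a C)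
    (hα : ℓ α ≠ 0) : ∃ R δ : ℝ, 0 < R ∧ 0 < δ ∧ ∀ (P Q : ℂ → Mat N) (β β' : Fin m → ℂ),
      Lin T Λ a P α β → Lin T Λ a Q α β' → ℓ β = ℓ β' → ‖β - β'‖ ≤ 1 →
      Contr R δ (1 / 2) (fun z => ‖P z - Q z‖) := by
  by_contra hcon
  push Not at hcon
  have hcon' : ∀ n : ℕ, ∃ (P Q : ℂ → Mat N) (β β' : Fin m → ℂ), Lin T Λ a P α β ∧
      Lin T Λ a Q α β' ∧ ℓ β = ℓ β' ∧ ‖β - β'‖ ≤ 1 ∧ ∃ z0 : ℂ,
      (∀ z ∈ closedBall z0 ((n : ℝ) + 1), ‖P z - Q z‖ ≤ 1 / ((n : ℝ) + 1)) ∧ ∃ b : ℂ,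
      ∀ z ∈ closedBall z0 ((n : ℝ) + 1),
        1 / 2 * (‖P z - Q z‖ * ‖Complex.exp (b * (z - z0))‖) < ‖P z0 - Q z0‖ := by
    intro n
    obtain ⟨P, Q, β, β', h1, h2, h3, h4, h5⟩ := hcon ((n : ℝ) + 1) (1 / ((n : ℝ) + 1))
      (by positivity) (by positivity)
    unfold Contr at h5
    push Not at h5
    obtain ⟨z0, h8, b, h9⟩ := h5
    exact ⟨P, Q, β, β', h1, h2, h3, h4, z0, h8, b, h9⟩
  choose P Q β β' hP hQ hℓ hββ z0 hz0 b hb using hcon'
  obtain ⟨D, hD⟩ := hT.coc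
  choose l hlΛ hl using fun n => hD (z0 n • α + β n)
  have hmem : ∀ (n : ℕ) (z : ℂ), z ∈ closedBall (0 : ℂ) ((n : ℝ) + 1) →
      z0 n + z ∈ closedBall (z0 n) ((n : ℝ) + 1) := by
    intro n z hz
    rw [mem_closedBall_zero_iff] at hz
    rwa [mem_closedBall, dist_eq_norm, add_sub_cancel_left]
  refine contr_core (ℓ := ℓ) (P := fun n z => P n (z0 n + z)) (Q := fun n z => Q n (z0 n + z))
    (w := fun _ => α) (w' := fun _ => α) (b := fun n => z0 n • α + β n - l n)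
    (b' := fun n => z0 n • α + β' n - l n) (bb := b) (A := max ‖α‖ (D + 1)) hT hG hC0 hC
    (norm_pos_iff.2 hα) (fun n => ((hP n).shift (z0 n)).sub (hlΛ n))
    (fun n => ((hQ n).shift (z0 n)).sub (hlΛ n)) (fun _ => le_max_left _ _)
    (fun _ => le_max_left _ _) (fun n => ((hl n).trans (by linarith)).trans (le_max_right _ _))
    (fun n => ?_) (fun _ => rfl) (fun _ => le_rfl) ?_ (fun n z hz => hz0 n _ (hmem n z hz))
    (fun n z hz => ?_)
  · refine le_trans ?_ (le_max_right _ _)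
    have h1 : z0 n • α + β' n - l n = (z0 n • α + β n - l n) - (β n - β' n) := by abel
    rw [h1]
    exact (norm_sub_le _ _).trans (add_le_add (hl n) (hββ n))
  · intro μ _ hten
    have h1 : ∀ n, ℓ (z0 n • α + β n - l n - (z0 n • α + β' n - l n)) = 0 := by
      intro n
      have : z0 n • α + β n - l n - (z0 n • α + β' n - l n) = β n - β' n := by abel
      rw [this, map_sub, hℓ n, sub_self]
    simp only [h1] at hten ⊢
    have h2 := tendsto_nhds_unique hten tendsto_const_nhds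
    exact Eventually.of_forall fun _ => h2.symm
  · have h1 := hb n _ (hmem n z hz)
    rw [add_sub_cancel_left] at h1
    change 1 / 2 * (‖P n (z0 n + z) - Q n (z0 n + z)‖ * _) < ‖P n (z0 n + 0) - Q n (z0 n + 0)‖
    rw [add_zero]
    exact h1

/-- **Contraction** for curves over lines, if the image of the lattice under `ℓ` is discrete -/
theorem contr_dis (hT : TV T Λ a) (hG : GV T Λ a η) (hC0 : 0 < C) (hC : GE T Λ a C)
    (hdis : ∃ δ > 0, ∀ l ∈ Λ, ‖ℓ l‖ < δ → ℓ l = 0) (A : ℝ) {c0 : ℝ} (hc0 : 0 < c0) :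
    ∃ R δ : ℝ, 0 < R ∧ 0 < δ ∧ ∀ (P Q : ℂ → Mat N) (α α' β β' : Fin m → ℂ),
      Lin T Λ a P α β → Lin T Λ a Q α' β' → ‖α‖ ≤ A → ‖α'‖ ≤ A → c0 ≤ ‖ℓ α‖ → ℓ α = ℓ α' →
      ℓ β = ℓ β' → Contr R δ (1 / 2) (fun z => ‖P z - Q z‖) := by
  by_contra hcon
  push Not at hcon
  have hcon' : ∀ n : ℕ, ∃ (P Q : ℂ → Mat N) (α α' β β' : Fin m → ℂ), Lin T Λ a P α β ∧
      Lin T Λ a Q α' β' ∧ ‖α‖ ≤ A ∧ ‖α'‖ ≤ A ∧ c0 ≤ ‖ℓ α‖ ∧ ℓ α = ℓ α' ∧ ℓ β = ℓ β' ∧ ∃ z0 : ℂ,
      (∀ z ∈ closedBall z0 ((n : ℝ) + 1), ‖P z - Q z‖ ≤ 1 / ((n : ℝ) + 1)) ∧ ∃ b : ℂ,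
      ∀ z ∈ closedBall z0 ((n : ℝ) + 1),
        1 / 2 * (‖P z - Q z‖ * ‖Complex.exp (b * (z - z0))‖) < ‖P z0 - Q z0‖ := by
    intro n
    obtain ⟨P, Q, α, α', β, β', h1, h2, h3, h4, h5, h6, h7, h8⟩ := hcon ((n : ℝ) + 1)
      (1 / ((n : ℝ) + 1)) (by positivity) (by positivity)
    unfold Contr at h8
    push Not at h8
    obtain ⟨z0, h8, b, h9⟩ := h8
    exact ⟨P, Q, α, α', β, β', h1, h2, h3, h4, h5, h6, h7, z0, h8, b, h9⟩
  choose P Q α α' β β' hP hQ hA hA' hc hαα hββ z0 hz0 b hb using hcon'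
  obtain ⟨D, hD⟩ := hT.coc
  obtain ⟨δ, hδ, hδΛ⟩ := hdis
  choose l hlΛ hl using fun n => hD (z0 n • α n + β n)
  choose l' hlΛ' hl' using fun n => hD (z0 n • α' n + β' n)
  have hmem : ∀ (n : ℕ) (z : ℂ), z ∈ closedBall (0 : ℂ) ((n : ℝ) + 1) →
      z0 n + z ∈ closedBall (z0 n) ((n : ℝ) + 1) := by
    intro n z hz
    rw [mem_closedBall_zero_iff] at hz
    rwa [mem_closedBall, dist_eq_norm, add_sub_cancel_left]
  refine contr_core (ℓ := ℓ) (P := fun n z => P n (z0 n + z)) (Q := fun n z => Q n (z0 n + z))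
    (w := α) (w' := α') (b := fun n => z0 n • α n + β n - l n)
    (b' := fun n => z0 n • α' n + β' n - l' n) (bb := b) (A := max A D) hT hG hC0 hC
    hc0 (fun n => ((hP n).shift (z0 n)).sub (hlΛ n))
    (fun n => ((hQ n).shift (z0 n)).sub (hlΛ' n)) (fun n => (hA n).trans (le_max_left _ _))
    (fun n => (hA' n).trans (le_max_left _ _)) (fun n => (hl n).trans (le_max_right _ _))
    (fun n => (hl' n).trans (le_max_right _ _)) hαα hc ?_ (fun n z hz => hz0 n _ (hmem n z hz))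
    (fun n z hz => ?_)
  · intro μ hμ hten
    have h1 : ∀ n, ℓ (z0 n • α n + β n - l n - (z0 n • α' n + β' n - l' n)) = ℓ (l' n - l n) := by
      intro n
      rw [map_sub, map_sub, map_sub, map_add, map_add, map_smul, map_smul, map_sub, hαα n, hββ n]
      ring
    simp only [h1] at hten ⊢
    filter_upwards [Metric.tendsto_nhds.1 hten δ hδ] with n hn
    rw [dist_eq_norm, ← map_sub] at hn
    have h2 := hδΛ _ (Λ.sub_mem (Λ.sub_mem (hlΛ' n) (hlΛ n)) hμ) hn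
    rw [map_sub] at h2
    exact sub_eq_zero.1 h2
  · have h1 := hb n _ (hmem n z hz)
    rw [add_sub_cancel_left] at h1
    change 1 / 2 * (‖P n (z0 n + z) - Q n (z0 n + z)‖ * _) < ‖P n (z0 n + 0) - Q n (z0 n + 0)‖
    rw [add_zero]
    exact h1

end Pool.Agent.N154.TC
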