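import Pool.Agent.N154.GG.Rig2
import Pool.Agent.N154.TC.Grad

/-! The rigidity theorem for curves over complex tori of any dimension. -/

set_option autoImplicit false

open Filter Topology Metric Set

namespace Pool.Agent.N154.TC

open Pool.Agent.Y190.OP Pool.Agent.N155
open Pool.Agent.N154.GG (strict_lim tr tr_strict chart_tr chart_i'_ne contDiffAt_chart lip_chart lin2
  Vl hp_cont holP_comp_l)

variable {N m : ℕ} {T : Set (Mat N)} {Λ : AddSubgroup (Fin m → ℂ)} {a : Mat N → Fin m → ℂ}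
    {κ : Type} {η : κ → (Fin N → ℂ) → (Fin N → ℂ) → (Fin N → ℂ) → ℂ}

/-- a local description of the compact set `T` near the points of `O` -/
def LC (T : Set (Mat N)) (Λ : AddSubgroup (Fin m → ℂ)) (a : Mat N → Fin m → ℂ) (i : Fin N) (d : ℕ)
    (J : Fin d → Fin N) (O : Set (Mat N)) (U : Set (Fin d → ℂ)) (Ψ : (Fin d → ℂ) → Fin N → ℂ)
    (W : (Fin d → ℂ) → Fin m → ℂ) : Prop :=
  IsOpen O ∧ IsOpen U ∧ AnalyticOnNhd ℂ Ψ U ∧ AnalyticOnNhd ℂ W U ∧
    ∀ M ∈ O, M i i ≠ 0 ∧ (fun k => chart i M (J k)) ∈ U ∧ (M ∈ T →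
      chart i M = Ψ (fun k => chart i M (J k)) ∧ a M - W (fun k => chart i M (J k)) ∈ Λ)

/-- the geometric data: holomorphic functions of planes in the tangent spaces, twisted by `-1` or
not twisted and with zeros on every curve over a line, without common zeros on the planes which are
not tangent to the fibres, outside the set `S` which contains no curve over a line -/
structure GVk (T : Set (Mat N)) (Λ : AddSubgroup (Fin m → ℂ)) (a : Mat N → Fin m → ℂ) {κ : Type}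
    (η : κ → (Fin N → ℂ) → (Fin N → ℂ) → (Fin N → ℂ) → ℂ) (k : κ → ℕ) (S : Set (Mat N)) :
    Prop where
  homog : ∀ M ∈ T, ∀ i, M i i ≠ 0 → ∀ (q : κ) (v w : Fin N → ℂ) (c e f : ℂ), c ≠ 0 →
    η q (c • chart i M) (c • (v + e • chart i M)) (c • (w + f • chart i M)) =
      c⁻¹ ^ k q * η q (chart i M) v w
  kle : ∀ q, k q ≤ 1
  zero : ∀ q, k q = 0 → ∀ (H : ℂ → Mat N) (α β : Fin m → ℂ), α ≠ 0 → HolP univ H →
    (∀ z, H z ∈ T) → Over Λ a H (fun t => t • α + β) →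
    ∃ t, ∀ i, H t i i ≠ 0 → ∀ v w, η q (chart i (H t)) v w = 0
  dense : ∀ H : ℂ → Mat N, HolP univ H → (∀ z, H z ∈ T) → ¬ (∀ z, H z = H 0) →
    Dense {t | H t ∉ S}
  loc : ∀ M0 ∈ T, ∃ (i : Fin N) (d : ℕ) (J : Fin d → Fin N) (O : Set (Mat N))
    (U : Set (Fin d → ℂ)) (Ψ : (Fin d → ℂ) → Fin N → ℂ) (W : (Fin d → ℂ) → Fin m → ℂ),
    LC T Λ a i d J O U Ψ W ∧ M0 ∈ O ∧
    ∀ q, AnalyticOnNhd ℂ (fun p : (Fin d → ℂ) × (Fin d → ℂ) × (Fin d → ℂ) =>
      η q (Ψ p.1) (fderiv ℂ Ψ p.1 p.2.1) (fderiv ℂ Ψ p.1 p.2.2)) (U ×ˢ univ)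
  pos : ∀ M0 ∈ T, M0 ∉ S → ∃ (i : Fin N) (d : ℕ) (J : Fin d → Fin N) (O : Set (Mat N))
    (U : Set (Fin d → ℂ)) (Ψ : (Fin d → ℂ) → Fin N → ℂ) (W : (Fin d → ℂ) → Fin m → ℂ),
    LC T Λ a i d J O U Ψ W ∧ M0 ∈ O ∧
    ∀ v w : Fin d → ℂ, LinearIndependent ℂ ![v, w] →
      fderiv ℂ W (fun k => chart i M0 (J k)) v ≠ 0 →
      ∃ q, η q (Ψ (fun k => chart i M0 (J k))) (fderiv ℂ Ψ (fun k => chart i M0 (J k)) v)
        (fderiv ℂ Ψ (fun k => chart i M0 (J k)) w) ≠ 0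

/-- the geometric data -/
def GV (T : Set (Mat N)) (Λ : AddSubgroup (Fin m → ℂ)) (a : Mat N → Fin m → ℂ) {κ : Type}
    (η : κ → (Fin N → ℂ) → (Fin N → ℂ) → (Fin N → ℂ) → ℂ) : Prop :=
  ∃ (k : κ → ℕ) (S : Set (Mat N)), GVk T Λ a η k S

/-- the hypotheses of the rigidity theorem: `P n`, `Q n` converge to the curve `H` over the line
`t ↦ t • α + β`, and lie over functions which have the same image under `ℓ`, with `ℓ α ≠ 0` -/
structure RV (T : Set (Mat N)) (Λ : AddSubgroup (Fin m → ℂ)) (a : Mat N → Fin m → ℂ)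
    (𝓤 : Ultrafilter ℕ) (H : ℂ → Mat N) (ℓ : (Fin m → ℂ) →L[ℂ] ℂ) (α β : Fin m → ℂ) (B B' : ℝ)
    (P Q : ℕ → ℂ → Mat N) (φ ψ : ℕ → ℂ → Fin m → ℂ) (wt : ℕ → ℂ → ℂ) : Prop where
  hH : HolP univ H
  HT : ∀ z, H z ∈ T
  Hov : Over Λ a H (fun t => t • α + β)
  HB : ∀ z, ‖fderiv ℝ H z‖ ≤ B
  hα : ℓ α ≠ 0
  hP : ∀ L : ℝ, ∀ᶠ n in (𝓤 : Filter ℕ), Dsc T Λ a 0 L (P n) (φ n)
  hQ : ∀ L : ℝ, ∀ᶠ n in (𝓤 : Filter ℕ), Dsc T Λ a 0 L (Q n) (ψ n)
  eq : ∀ t, ∀ᶠ n in (𝓤 : Filter ℕ), ℓ (φ n t) = ℓ (ψ n t)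
  lim : ∀ t, ∃ l, Tendsto (fun n => ψ n t - φ n t) 𝓤 (𝓝 l)
  wtd : ∀ L : ℝ, ∀ᶠ n in (𝓤 : Filter ℕ), DifferentiableOn ℂ (wt n) (ball 0 L)
  cP : CConv (𝓤 : Filter ℕ) univ P H
  cQ : CConv (𝓤 : Filter ℕ) univ Q H
  bd : ∀ L : ℝ, ∀ᶠ n in (𝓤 : Filter ℕ), ∀ z ∈ closedBall (0 : ℂ) L,
    ‖Q n z - P n z‖ * ‖wt n z‖ ≤ B'

variable {𝓤 : Ultrafilter ℕ} {H : ℂ → Mat N} {ℓ : (Fin m → ℂ) →L[ℂ] ℂ} {α β : Fin m → ℂ}
  {B B' : ℝ} {P Q : ℕ → ℂ → Mat N} {φ ψ : ℕ → ℂ → Fin m → ℂ} {wt : ℕ → ℂ → ℂ}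

theorem RV.bdp (h : RV T Λ a 𝓤 H ℓ α β B B' P Q φ ψ wt) (t : ℂ) :
    ∀ᶠ m in (𝓤 : Filter ℕ), ‖Q m t - P m t‖ * ‖wt m t‖ ≤ B' := by
  filter_upwards [h.bd ‖t‖] with m hm
  exact hm t (mem_closedBall_zero_iff.2 le_rfl)

theorem RV.pt (h : RV T Λ a 𝓤 H ℓ α β B B' P Q φ ψ wt) (t : ℂ) :
    ∀ᶠ m in (𝓤 : Filter ℕ), P m t ∈ T ∧ Q m t ∈ T ∧ φ m t - a (P m t) ∈ Λ ∧
      ψ m t - a (Q m t) ∈ Λ := by
  have ht : t ∈ ball (0 : ℂ) (‖t‖ + 1) := mem_ball_zero_iff.2 (by linarith)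
  filter_upwards [h.hP (‖t‖ + 1), h.hQ (‖t‖ + 1)] with m h1 h2
  exact ⟨h1.mem t ht, h2.mem t ht, h1.ov t ht, h2.ov t ht⟩

theorem RV.B'0 (h : RV T Λ a 𝓤 H ℓ α β B B' P Q φ ψ wt) : 0 ≤ B' := by
  obtain ⟨m, hm⟩ := (h.bdp 0).exists
  exact le_trans (by positivity) hm

theorem RV.Vl_lim (h : RV T Λ a 𝓤 H ℓ α β B B' P Q φ ψ wt) (i : Fin N) {t0 : ℂ}
    (hi : H t0 i i ≠ 0) : AnalyticAt ℂ (Vl 𝓤 P Q wt i) t0 ∧
      ∀ᶠ t in 𝓝 t0, Tendsto (fun m => wt m t • (chart i (Q m t) - chart i (P m t))) 𝓤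
        (𝓝 (Vl 𝓤 P Q wt i t)) := by
  obtain ⟨L, O, hL, hO, hMO, hOi, hlip, -⟩ := lip_chart hi
  have hOn : O ∈ 𝓝 (H t0) := hO.mem_nhds hMO
  have h1 : ∀ᶠ p : ℕ × ℂ in (𝓤 : Filter ℕ) ×ˢ 𝓝 t0, P p.1 p.2 ∈ O ∧ Q p.1 p.2 ∈ O :=
    ((h.cP t0 (mem_univ _)).eventually hOn).and ((h.cQ t0 (mem_univ _)).eventually hOn)
  rw [eventually_prod_iff] at h1
  obtain ⟨pa1, hpa1, pb, hpb, hab1⟩ := h1
  set pa : ℕ → Prop := fun m => pa1 m ∧ Dsc T Λ a 0 (‖t0‖ + 1) (P m) (φ m) ∧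
    Dsc T Λ a 0 (‖t0‖ + 1) (Q m) (ψ m) ∧ DifferentiableOn ℂ (wt m) (ball 0 (‖t0‖ + 1)) with hpadef
  have hpa : ∀ᶠ m in (𝓤 : Filter ℕ), pa m := by
    filter_upwards [hpa1, h.hP (‖t0‖ + 1), h.hQ (‖t0‖ + 1), h.wtd (‖t0‖ + 1)] with m h1 h2 h3 h4
    exact ⟨h1, h2, h3, h4⟩
  obtain ⟨V, hVs, hV, htV⟩ := _root_.mem_nhds_iff.1 (hpb.and (ball_mem_nhds t0 one_pos))
  have hVB : ∀ z ∈ V, z ∈ ball (0 : ℂ) (‖t0‖ + 1) := by
    intro z hz
    have e4 : ‖z - t0‖ < 1 := by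
      have := (hVs hz).2
      rwa [dist_eq_norm] at this
    rw [mem_ball_zero_iff]
    have := norm_add_le (z - t0) t0
    rw [sub_add_cancel] at this
    linarith
  have hbdV : ∀ᶠ m in (𝓤 : Filter ℕ), ∀ t ∈ V, ∀ l : Fin N,
      ‖wt m t * (chart i (Q m t) l - chart i (P m t) l)‖ ≤ L * B' := by
    filter_upwards [hpa, h.bd (‖t0‖ + 1)] with m hm1 hm2 t ht l
    obtain ⟨e1, e2⟩ := hab1 hm1.1 (hVs ht).1
    have e3 : t ∈ closedBall (0 : ℂ) (‖t0‖ + 1) := by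
      have e4 : ‖t - t0‖ < 1 := by
        have := (hVs ht).2
        rwa [dist_eq_norm] at this
      rw [mem_closedBall_zero_iff]
      have := norm_add_le (t - t0) t0
      rw [sub_add_cancel] at this
      linarith
    have e4 : ‖chart i (Q m t) l - chart i (P m t) l‖ ≤ L * ‖Q m t - P m t‖ :=
      (norm_le_pi_norm (chart i (Q m t) - chart i (P m t)) l).trans (hlip _ e2 _ e1)
    rw [norm_mul]
    calc ‖wt m t‖ * ‖chart i (Q m t) l - chart i (P m t) l‖ ≤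
          ‖wt m t‖ * (L * ‖Q m t - P m t‖) := mul_le_mul_of_nonneg_left e4 (norm_nonneg _)
      _ = L * (‖Q m t - P m t‖ * ‖wt m t‖) := by ring
      _ ≤ L * B' := mul_le_mul_of_nonneg_left (hm2 t e3) hL
  have hdV : ∀ᶠ m in (𝓤 : Filter ℕ), ∀ l : Fin N,
      DifferentiableOn ℂ (fun t => wt m t * (chart i (Q m t) l - chart i (P m t) l)) V := by
    filter_upwards [hpa] with m hm1 l t ht
    obtain ⟨e1, e2⟩ := hab1 hm1.1 (hVs ht).1
    have e3 := differentiableAt_pi.1 (hm1.2.1.hol.diff_chart (hVB t ht) (hOi _ e1)) l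
    have e4 := differentiableAt_pi.1 (hm1.2.2.1.hol.diff_chart (hVB t ht) (hOi _ e2)) l
    exact ((hm1.2.2.2.differentiableAt (isOpen_ball.mem_nhds (hVB t ht))).mul
      (e4.sub e3)).differentiableWithinAt
  have hmon : ∀ l : Fin N, ∃ K : ℂ → ℂ, CConv (𝓤 : Filter ℕ) V
      (fun m t => wt m t * (chart i (Q m t) l - chart i (P m t) l)) K := by
    intro l
    apply ultra_montel
    intro z hz
    refine ⟨V, hV.mem_nhds hz, L * B', ?_⟩
    filter_upwards [hbdV, hdV] with m e1 e2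
    exact ⟨e2 l, fun w hw => e1 w hw l⟩
  choose K hK using hmon
  have hHan : ∀ l, AnalyticAt ℂ (K l) t0 := fun l =>
    (CConv.an (hK l) hV htV ⟨V, hV.mem_nhds htV, by
      filter_upwards [hdV] with m e1
      exact e1 l⟩).1
  have hten : ∀ t ∈ V, Tendsto (fun m => wt m t • (chart i (Q m t) - chart i (P m t))) 𝓤
      (𝓝 (fun l => K l t)) := by
    intro t ht
    rw [tendsto_pi_nhds]
    intro l
    exact (hK l).pointwise ht
  have hVe : ∀ t ∈ V, Vl 𝓤 P Q wt i t = fun l => K l t := fun t ht => (hten t ht).limUnder_eq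
  constructor
  · have h2 : AnalyticAt ℂ (fun t l => K l t) t0 := by
      rw [analyticAt_pi_iff]
      exact hHan
    refine h2.congr ?_
    filter_upwards [hV.mem_nhds htV] with t ht
    exact (hVe t ht).symm
  · filter_upwards [hV.mem_nhds htV] with t ht
    rw [hVe t ht]
    exact hten t ht

theorem RV.Vl_ten (h : RV T Λ a 𝓤 H ℓ α β B B' P Q φ ψ wt) (i : Fin N) {t0 : ℂ}
    (hi : H t0 i i ≠ 0) :
    Tendsto (fun m => wt m t0 • (chart i (Q m t0) - chart i (P m t0))) 𝓤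
        (𝓝 (Vl 𝓤 P Q wt i t0)) := (h.Vl_lim i hi).2.self_of_nhds

theorem RV.tau (h : RV T Λ a 𝓤 H ℓ α β B B' P Q φ ψ wt) (i : Fin N) {s : ℂ} (hi : H s i i ≠ 0) :
    AnalyticAt ℂ (fun s => chart i (H s)) s := by
  rw [Complex.analyticAt_iff_eventually_differentiableAt]
  have h1 : ∀ᶠ s' in 𝓝 s, H s' i i ≠ 0 := by
    have : ContinuousAt (fun s' => H s' i i) s :=
      (continuous_apply_apply i i).continuousAt.comp (h.hH.continuousAt (mem_univ s))
    exact this.eventually_ne hi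
  filter_upwards [h1] with s' hs'
  exact h.hH.diff_chart (mem_univ s') hs'

theorem RV.tau_le (h : RV T Λ a 𝓤 H ℓ α β B B' P Q φ ψ wt) (i : Fin N) {s : ℂ} (hi : H s i i ≠ 0)
    {L : ℝ} (hL : ‖fderiv ℝ (chart i) (H s)‖ ≤ L) : ‖deriv (fun s => chart i (H s)) s‖ ≤ L * B := by
  have h1 : HasFDerivAt (fun s => chart i (H s))
      ((fderiv ℂ (fun s => chart i (H s)) s).restrictScalars ℝ) s :=
    (h.hH.diff_chart (mem_univ s) hi).hasFDerivAt.restrictScalars ℝ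
  have h2 : HasFDerivAt (fun s => chart i (H s)) ((fderiv ℝ (chart i) (H s)).comp (fderiv ℝ H s)) s :=
    (((contDiffAt_chart hi).differentiableAt (by norm_num)).hasFDerivAt).comp s
      (h.hH.differentiableAt (mem_univ s)).hasFDerivAt
  have h3 := h1.unique h2
  rw [norm_deriv_eq_norm_fderiv, ← ContinuousLinearMap.norm_restrictScalars (𝕜' := ℝ), h3]
  refine (ContinuousLinearMap.opNorm_comp_le _ _).trans ?_
  exact mul_le_mul hL (h.HB s) (norm_nonneg _) ((norm_nonneg _).trans hL)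

theorem RV.ev_diag (h : RV T Λ a 𝓤 H ℓ α β B B' P Q φ ψ wt) (i : Fin N) {t : ℂ}
    (hi : H t i i ≠ 0) : (∀ᶠ m in (𝓤 : Filter ℕ), P m t i i ≠ 0 ∧ Q m t i i ≠ 0) ∧
      ∀ᶠ s in 𝓝 t, H s i i ≠ 0 := by
  have hc := (continuous_apply_apply (ρ := fun (_ : Fin N) (_ : Fin N) => ℂ) i i).continuousAt
    (x := H t)
  refine ⟨?_, ?_⟩
  · have h1 := (hc.tendsto.comp (h.cP.pointwise (mem_univ t))).eventually_ne hi
    have h2 := (hc.tendsto.comp (h.cQ.pointwise (mem_univ t))).eventually_ne hi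
    exact h1.and h2
  · exact (hc.comp (h.hH.continuousAt (mem_univ t))).eventually_ne hi

/-- the basic functions -/
noncomputable def Tf (η : κ → (Fin N → ℂ) → (Fin N → ℂ) → (Fin N → ℂ) → ℂ) (k : κ → ℕ)
    (𝓤 : Ultrafilter ℕ) (H : ℂ → Mat N) (P Q : ℕ → ℂ → Mat N) (wt : ℕ → ℂ → ℂ) (q : κ)
    (i l : Fin N) (t : ℂ) : ℂ :=
  η q (chart i (H t)) (deriv (fun s => chart i (H s)) t) (Vl 𝓤 P Q wt i t) *
    chart i (H t) l ^ k q

/-- the limit vectors in two charts -/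
theorem RV.Vl_tr (h : RV T Λ a 𝓤 H ℓ α β B B' P Q φ ψ wt) (hTP : T ⊆ PM)
    {i i' : Fin N} {t : ℂ} (hi : H t i i ≠ 0) (hi' : H t i' i' ≠ 0) (h0 : Vl 𝓤 P Q wt i t = 0) :
    Vl 𝓤 P Q wt i' t = 0 := by
  have hM := hTP (h.HT t)
  have hx := chart_i'_ne hM hi hi'
  obtain ⟨f', hf', hfv⟩ := tr_strict hx
  have e1 : Vl 𝓤 P Q wt i' t = f' (Vl 𝓤 P Q wt i t) := by
    apply tendsto_nhds_unique (h.Vl_ten i' hi')
    have hp : Tendsto (fun m => chart i (P m t)) 𝓤 (𝓝 (chart i (H t))) :=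
      (continuousAt_chart hi).tendsto.comp (h.cP.pointwise (mem_univ t))
    have hq : Tendsto (fun m => chart i (Q m t)) 𝓤 (𝓝 (chart i (H t))) :=
      (continuousAt_chart hi).tendsto.comp (h.cQ.pointwise (mem_univ t))
    refine (strict_lim hf' hp hq (h.Vl_ten i hi)).congr' ?_
    filter_upwards [(h.ev_diag i hi).1, (h.ev_diag i' hi').1, h.pt t] with m hm hm' hpt
    rw [chart_tr (hTP hpt.1) hm.1 hm'.1, chart_tr (hTP hpt.2.1) hm.2 hm'.2]
  rw [e1, h0, map_zero]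

theorem RV.Tf_indep {k : κ → ℕ} {S : Set (Mat N)} (hG : GVk T Λ a η k S) (h : RV T Λ a 𝓤 H ℓ α β B B' P Q φ ψ wt) (hTP : T ⊆ PM)
    (q : κ) {i i' : Fin N} (l : Fin N) {t : ℂ} (hi : H t i i ≠ 0) (hi' : H t i' i' ≠ 0) :
    Tf η k 𝓤 H P Q wt q i' l t = Tf η k 𝓤 H P Q wt q i l t := by
  have hM := hTP (h.HT t)
  have hx := chart_i'_ne hM hi hi'
  obtain ⟨f', hf', hfv⟩ := tr_strict hx
  -- the limit vector
  have e1 : Vl 𝓤 P Q wt i' t = f' (Vl 𝓤 P Q wt i t) := by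
    apply tendsto_nhds_unique (h.Vl_ten i' hi')
    have hp : Tendsto (fun m => chart i (P m t)) 𝓤 (𝓝 (chart i (H t))) :=
      (continuousAt_chart hi).tendsto.comp (h.cP.pointwise (mem_univ t))
    have hq : Tendsto (fun m => chart i (Q m t)) 𝓤 (𝓝 (chart i (H t))) :=
      (continuousAt_chart hi).tendsto.comp (h.cQ.pointwise (mem_univ t))
    refine (strict_lim hf' hp hq (h.Vl_ten i hi)).congr' ?_
    filter_upwards [(h.ev_diag i hi).1, (h.ev_diag i' hi').1, h.pt t] with m hm hm' hpt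
    rw [chart_tr (hTP hpt.1) hm.1 hm'.1, chart_tr (hTP hpt.2.1) hm.2 hm'.2]
  have e2 : deriv (fun s => chart i' (H s)) t = f' (deriv (fun s => chart i (H s)) t) := by
    have h1 := (h.tau i hi).differentiableAt.hasDerivAt
    have h2 := hf'.hasFDerivAt.comp_hasDerivAt t h1
    have h3 : (fun s => chart i' (H s)) =ᶠ[𝓝 t] tr i' ∘ fun s => chart i (H s) := by
      filter_upwards [(h.ev_diag i hi).2, (h.ev_diag i' hi').2] with s hs hs'
      exact chart_tr (hTP (h.HT s)) hs hs'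
    rw [h3.deriv_eq, h2.deriv]
  unfold Tf
  rw [e1, e2, hfv, hfv, chart_tr hM hi hi']
  unfold tr
  rw [hG.homog _ (h.HT _) i hi q _ _ _ _ _ (inv_ne_zero hx), Pi.smul_apply, smul_eq_mul, inv_inv,
    mul_pow, mul_comm (chart i (H t) i' ^ k q), mul_assoc, ← mul_assoc (chart i (H t) i' ^ k q),
    ← mul_pow, mul_inv_cancel₀ hx, one_pow, one_mul]

theorem RV.Vl_le (h : RV T Λ a 𝓤 H ℓ α β B B' P Q φ ψ wt) (i : Fin N) {t : ℂ}
    (hi : H t i i ≠ 0) {L : ℝ} {O : Set (Mat N)} (hL : 0 ≤ L) (hO : IsOpen O)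
    (hMO : H t ∈ O) (hlip : ∀ M ∈ O, ∀ M' ∈ O, ‖chart i M - chart i M'‖ ≤ L * ‖M - M'‖) :
    ‖Vl 𝓤 P Q wt i t‖ ≤ L * B' := by
  refine le_of_tendsto (h.Vl_ten i hi).norm ?_
  have hOn : O ∈ 𝓝 (H t) := hO.mem_nhds hMO
  filter_upwards [(h.cP.pointwise (mem_univ t)).eventually hOn,
    (h.cQ.pointwise (mem_univ t)).eventually hOn, h.bdp t] with m h1 h2 h3
  rw [norm_smul]
  calc ‖wt m t‖ * ‖chart i (Q m t) - chart i (P m t)‖ ≤ ‖wt m t‖ * (L * ‖Q m t - P m t‖) :=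
        mul_le_mul_of_nonneg_left (hlip _ h2 _ h1) (norm_nonneg _)
    _ = L * (‖Q m t - P m t‖ * ‖wt m t‖) := by ring
    _ ≤ L * B' := mul_le_mul_of_nonneg_left h3 hL

/-- the local facts -/
theorem RV.facts (hT : TV T Λ a) (h : RV T Λ a 𝓤 H ℓ α β B B' P Q φ ψ wt) {i : Fin N} {d : ℕ}
    {J : Fin d → Fin N} {O : Set (Mat N)} {U : Set (Fin d → ℂ)} {Ψ : (Fin d → ℂ) → Fin N → ℂ}
    {W : (Fin d → ℂ) → Fin m → ℂ} (hc : LC T Λ a i d J O U Ψ W) {t : ℂ} (hOt : H t ∈ O) :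
    chart i (H t) = Ψ (fun k => chart i (H t) (J k)) ∧
    deriv (fun s => chart i (H s)) t = fderiv ℂ Ψ (fun k => chart i (H t) (J k))
      (fun k => deriv (fun s => chart i (H s)) t (J k)) ∧
    Vl 𝓤 P Q wt i t = fderiv ℂ Ψ (fun k => chart i (H t) (J k))
      (fun k => Vl 𝓤 P Q wt i t (J k)) ∧
    fderiv ℂ W (fun k => chart i (H t) (J k))
      (fun k => deriv (fun s => chart i (H s)) t (J k)) = α ∧
    ℓ (fderiv ℂ W (fun k => chart i (H t) (J k)) (fun k => Vl 𝓤 P Q wt i t (J k))) = 0 := by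
  obtain ⟨hO, hU, hΨ, hW, hloc⟩ := hc
  set ξ : Mat N → Fin d → ℂ := fun M k => chart i M (J k) with hξ
  obtain ⟨hit, hUt, ht3⟩ := hloc _ hOt
  obtain ⟨hΨt, hWt⟩ := ht3 (h.HT _)
  have hev : ∀ᶠ s in 𝓝 t, H s ∈ O :=
    (h.hH.continuousAt (mem_univ t)).eventually (hO.mem_nhds hOt)
  have hd := (h.tau i hit).differentiableAt.hasDerivAt
  have hdl : ∀ l, HasDerivAt (fun s => chart i (H s) l)
      (deriv (fun s => chart i (H s)) t l) t := fun l => (hasDerivAt_pi.1 hd) l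
  have hdξ : HasDerivAt (fun s => ξ (H s))
      (fun k => deriv (fun s => chart i (H s)) t (J k)) t :=
    hasDerivAt_pi.2 fun k => hdl (J k)
  have f1 : deriv (fun s => chart i (H s)) t = fderiv ℂ Ψ (ξ (H t))
      (fun k => deriv (fun s => chart i (H s)) t (J k)) := by
    have h1 := (hΨ _ hUt).differentiableAt.hasFDerivAt.comp_hasDerivAt t hdξ
    have h2 : (fun s => chart i (H s)) =ᶠ[𝓝 t] Ψ ∘ fun s => ξ (H s) := by
      filter_upwards [hev] with s hs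
      exact ((hloc _ hs).2.2 (h.HT s)).1
    rw [← h1.deriv, ← h2.deriv_eq]
  have f3 : fderiv ℂ W (ξ (H t))
      (fun k => deriv (fun s => chart i (H s)) t (J k)) = α := by
    have h1 := (hW _ hUt).differentiableAt.hasFDerivAt.comp_hasDerivAt t hdξ
    have h2 : HasDerivAt (fun s => s • α + β - W (ξ (H s))) (α - fderiv ℂ W (ξ (H t))
      (fun k => deriv (fun s => chart i (H s)) t (J k))) t :=
      (((hasDerivAt_id t).smul_const α).add_const β |>.congr_deriv (one_smul ℂ α)).sub h1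
    have h3 := hT.ev_const (f := fun s => s • α + β - W (ξ (H s))) (z0 := t) h2.continuousAt (by
      filter_upwards [hev] with s hs
      have e1 := Λ.add_mem (h.Hov s) ((hloc _ hs).2.2 (h.HT s)).2
      have e2 : s • α + β - W (ξ (H s)) = s • α + β - a (H s) + (a (H s) - W (ξ (H s))) := by abel
      rw [e2]
      exact e1)
    have h4 := (hasDerivAt_const t (t • α + β - W (ξ (H t)))).congr_of_eventuallyEq h3
    have h5 := h2.unique h4
    exact (sub_eq_zero.1 h5).symm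
  have hPl : Tendsto (fun m => P m t) 𝓤 (𝓝 (H t)) := h.cP.pointwise (mem_univ t)
  have hQl : Tendsto (fun m => Q m t) 𝓤 (𝓝 (H t)) := h.cQ.pointwise (mem_univ t)
  have hξc : ContinuousAt ξ (H t) := by
    rw [continuousAt_pi]
    intro k
    exact (continuous_apply (J k)).continuousAt.comp (continuousAt_chart hit)
  have hp := hξc.tendsto.comp hPl
  have hq := hξc.tendsto.comp hQl
  have hv : Tendsto (fun m => wt m t • (ξ (Q m t) - ξ (P m t))) 𝓤
      (𝓝 (fun k => Vl 𝓤 P Q wt i t (J k))) := by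
    have h1 := tendsto_pi_nhds.1 (h.Vl_ten i hit)
    exact tendsto_pi_nhds.2 fun k => h1 (J k)
  have hPO := hPl.eventually (hO.mem_nhds hOt)
  have hQO := hQl.eventually (hO.mem_nhds hOt)
  have f2 : Vl 𝓤 P Q wt i t =
      fderiv ℂ Ψ (ξ (H t)) (fun k => Vl 𝓤 P Q wt i t (J k)) := by
    apply tendsto_nhds_unique (h.Vl_ten i hit)
    refine (strict_lim (hΨ _ hUt).hasStrictFDerivAt hp hq hv).congr' ?_
    filter_upwards [hPO, hQO, h.pt t] with m e1 e2 hpt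
    change wt m t • (Ψ (ξ (Q m t)) - Ψ (ξ (P m t))) = _
    rw [← ((hloc _ e1).2.2 hpt.1).1, ← ((hloc _ e2).2.2 hpt.2.1).1]
  have f4 : ℓ (fderiv ℂ W (ξ (H t)) (fun k => Vl 𝓤 P Q wt i t (J k))) = 0 := by
    have h1 := (ℓ.continuous.tendsto _).comp
      (strict_lim (hW _ hUt).hasStrictFDerivAt hp hq hv)
    refine tendsto_nhds_unique h1 ?_
    have hWc : Tendsto (fun n => W (ξ (Q n t)) - W (ξ (P n t))) 𝓤 (𝓝 0) := by
      have h2 := ((hW _ hUt).continuousAt.tendsto.comp hq).sub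
        ((hW _ hUt).continuousAt.tendsto.comp hp)
      rw [sub_self] at h2
      exact h2
    obtain ⟨l, hl⟩ := h.lim t
    have h5 := hWc.sub hl
    rw [zero_sub] at h5
    have h3 := (hT.mem_lim (l := (𝓤 : Filter ℕ)) (by
      filter_upwards [hPO, hQO, h.pt t] with n e1 e2 hpt
      have e3 := ((hloc _ e1).2.2 hpt.1).2
      have e4 := ((hloc _ e2).2.2 hpt.2.1).2
      have e5 := Λ.sub_mem hpt.2.2.2 hpt.2.2.1
      have e6 := Λ.add_mem (Λ.sub_mem e3 e4) (Λ.neg_mem e5)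
      have e7 : W (ξ (Q n t)) - W (ξ (P n t)) - (ψ n t - φ n t) =
          (a (P n t) - W (ξ (P n t))) - (a (Q n t) - W (ξ (Q n t))) +
            -(ψ n t - a (Q n t) - (φ n t - a (P n t))) := by ring
      rw [e7]
      exact e6) h5).1
    have h6 : ℓ l = 0 := by
      have h7 := (ℓ.continuous.tendsto _).comp hl
      refine tendsto_nhds_unique h7 ?_
      refine tendsto_const_nhds.congr' ?_
      filter_upwards [h.eq t] with n hn
      change 0 = ℓ (ψ n t - φ n t)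
      rw [map_sub, hn, sub_self]
    have h4 : (⇑ℓ ∘ fun n => wt n t • ((W ∘ fun n => ξ (Q n t)) n - (W ∘ fun n => ξ (P n t)) n))
        =ᶠ[(𝓤 : Filter ℕ)] fun _ => 0 := by
      filter_upwards [h3, h.eq t] with n e1 e2
      change ℓ (wt n t • (W (ξ (Q n t)) - W (ξ (P n t)))) = 0
      have e3 : W (ξ (Q n t)) - W (ξ (P n t)) = -l + (ψ n t - φ n t) := by
        rw [← e1]
        abel
      rw [e3, map_smul, map_add, map_neg, h6, map_sub, e2, sub_self, neg_zero, add_zero, smul_zero]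
    exact tendsto_const_nhds.congr' h4.symm
  exact ⟨hΨt, f1, f2, f3, f4⟩

/-- the local form of the basic functions -/
theorem RV.loc (hT : TV T Λ a) {k : κ → ℕ} {S : Set (Mat N)} (hG : GVk T Λ a η k S)
    (h : RV T Λ a 𝓤 H ℓ α β B B' P Q φ ψ wt) {M0 : Mat N} (hM0 : M0 ∈ T) :
    ∃ (O : Set (Mat N)) (i : Fin N), IsOpen O ∧ M0 ∈ O ∧ (∀ M ∈ O, M i i ≠ 0) ∧
      (∀ q, ∃ C : ℝ, ∀ l t, H t ∈ O → AnalyticAt ℂ (Tf η k 𝓤 H P Q wt q i l) t ∧
        ‖Tf η k 𝓤 H P Q wt q i l t‖ ≤ C) ∧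
      ∀ t, H t ∈ O → deriv (fun s => chart i (H s)) t ≠ 0 := by
  obtain ⟨i, d, J, O, U, Ψ, W, hLC, hMO, hF⟩ := hG.loc M0 hM0
  obtain ⟨hO, hU, hΨ, hW, hloc⟩ := id hLC
  obtain ⟨hi0, hU0, -⟩ := hloc M0 hMO
  obtain ⟨L, O1, hL, hO1, hMO1, -, hlip, hfd⟩ := lip_chart hi0
  set F : κ → (Fin d → ℂ) × (Fin d → ℂ) × (Fin d → ℂ) → ℂ := fun q p =>
    η q (Ψ p.1) (fderiv ℂ Ψ p.1 p.2.1) (fderiv ℂ Ψ p.1 p.2.2) with hFdef
  set ξ : Mat N → Fin d → ℂ := fun M k => chart i M (J k) with hξ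
  have hcξ : ContinuousAt ξ M0 := by
    rw [continuousAt_pi]
    intro k
    exact (continuous_apply (J k)).continuousAt.comp (continuousAt_chart hi0)
  obtain ⟨ε, hε, hεU⟩ := Metric.isOpen_iff.1 hU _ hU0
  have hev1 : ∀ᶠ M in 𝓝 M0, ξ M ∈ closedBall (ξ M0) (ε / 2) :=
    hcξ.eventually (closedBall_mem_nhds _ (by positivity))
  have hev2 : ∀ᶠ M in 𝓝 M0, ‖chart i M‖ < ‖chart i M0‖ + 1 :=
    (continuousAt_chart hi0).norm.eventually_lt_const (lt_add_one _)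
  obtain ⟨O2, hO2s, hO2, hMO2⟩ := _root_.mem_nhds_iff.1 ((hev1.and hev2).and
    (inter_mem (hO.mem_nhds hMO) (hO1.mem_nhds hMO1)))
  have hOi : ∀ M ∈ O2, M i i ≠ 0 := fun M hM => (hloc M (hO2s hM).2.1).1
  have facts : ∀ t, H t ∈ O2 → ∀ q, Tf η k 𝓤 H P Q wt q i i t = F q (ξ (H t),
        (fun k => deriv (fun s => chart i (H s)) t (J k)), fun k => Vl 𝓤 P Q wt i t (J k)) := by
    intro t ht q
    obtain ⟨hΨt, f1, f2, -, -⟩ := h.facts hT hLC (hO2s ht).2.1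
    unfold Tf
    rw [PM.chart_self (hOi _ ht), one_pow, mul_one, hFdef]
    simp only
    rw [← hΨt, ← f1, ← f2]
  have hTl : ∀ q l t, Tf η k 𝓤 H P Q wt q i l t =
      Tf η k 𝓤 H P Q wt q i i t * chart i (H t) l ^ k q ∨ H t i i = 0 := by
    intro q l t
    by_cases hit : H t i i = 0
    · exact Or.inr hit
    · left
      unfold Tf
      rw [PM.chart_self hit, one_pow, mul_one]
  refine ⟨O2, i, hO2, hMO2, hOi, fun q => ?_, fun t ht => ?_⟩
  · have hcomp : IsCompact (closedBall (ξ M0) (ε / 2) ×ˢ (closedBall (0 : Fin d → ℂ) (L * B) ×ˢ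
        closedBall (0 : Fin d → ℂ) (L * B'))) :=
      (isCompact_closedBall _ _).prod ((isCompact_closedBall _ _).prod (isCompact_closedBall _ _))
    have hsubU : closedBall (ξ M0) (ε / 2) ⊆ U :=
      (closedBall_subset_ball (by linarith)).trans hεU
    obtain ⟨CF, hCF⟩ := hcomp.exists_bound_of_continuousOn (f := F q) (fun p hp =>
      ((hF q) p ⟨hsubU hp.1, mem_univ _⟩).continuousAt.continuousWithinAt)
    refine ⟨CF * (‖chart i M0‖ + 1), fun l t ht => ?_⟩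
    have hit := hOi _ ht
    obtain ⟨-, hUt, -⟩ := hloc _ (hO2s ht).2.1
    have hgΦ : ContinuousAt H t := h.hH.continuousAt (mem_univ t)
    have hev : ∀ᶠ t' in 𝓝 t, H t' ∈ O2 := hgΦ.eventually (hO2.mem_nhds ht)
    have hxa : AnalyticAt ℂ (fun t => chart i (H t)) t := h.tau i hit
    have hxl : ∀ l, AnalyticAt ℂ (fun t => chart i (H t) l) t := fun l =>
      (analyticAt_pi_iff.1 hxa) l
    have hτ : AnalyticAt ℂ (fun t => deriv (fun s => chart i (H s)) t) t :=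
      (h.tau i hit).deriv
    have hτl : AnalyticAt ℂ (fun t k => deriv (fun s => chart i (H s)) t (J k)) t :=
      analyticAt_pi_iff.2 fun k => (analyticAt_pi_iff.1 hτ) (J k)
    have hVa := (h.Vl_lim i hit).1
    have hVl : AnalyticAt ℂ (fun t k => Vl 𝓤 P Q wt i t (J k)) t :=
      analyticAt_pi_iff.2 fun k => (analyticAt_pi_iff.1 hVa) (J k)
    have hξa : AnalyticAt ℂ (fun t => ξ (H t)) t := analyticAt_pi_iff.2 fun k => hxl (J k)
    constructor
    · have h1 : AnalyticAt ℂ (fun t => F q (ξ (H t),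
          (fun k => deriv (fun s => chart i (H s)) t (J k)),
            fun k => Vl 𝓤 P Q wt i t (J k))) t :=
        AnalyticAt.fun_comp (g := F q) (hF q _ ⟨hUt, mem_univ _⟩)
          (hξa.prod (hτl.prod hVl))
      refine (h1.fun_mul ((hxl l).fun_pow (k q))).congr ?_
      filter_upwards [hev] with t' ht'
      rw [(hTl q l t').resolve_right (hOi _ ht'), facts t' ht' q]
    · rw [(hTl q l t).resolve_right hit, facts t ht q, norm_mul]
      have e1 := h.tau_le i hit (hfd _ (hO2s ht).2.2)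
      have e2 := h.Vl_le i hit hL hO1 (hO2s ht).2.2 hlip
      have e5 : ‖chart i (H t) l ^ k q‖ ≤ ‖chart i M0‖ + 1 := by
        have e50 : ‖chart i (H t) l‖ ≤ ‖chart i M0‖ + 1 :=
          (norm_le_pi_norm _ l).trans (hO2s ht).1.2.le
        rcases Nat.le_one_iff_eq_zero_or_eq_one.1 (hG.kle q) with e51 | e51
        · rw [e51, pow_zero, norm_one]
          have := norm_nonneg (chart i M0)
          linarith
        · rw [e51, pow_one]
          exact e50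
      have hpi : ∀ {v : Fin N → ℂ} {c : ℝ}, ‖v‖ ≤ c →
          (fun k => v (J k)) ∈ closedBall (0 : Fin d → ℂ) c := by
        intro v c hv
        rw [mem_closedBall_zero_iff, pi_norm_le_iff_of_nonneg ((norm_nonneg _).trans hv)]
        intro k
        exact (norm_le_pi_norm v (J k)).trans hv
      have e6 := hCF (ξ (H t), (fun k => deriv (fun s => chart i (H s)) t (J k)),
        fun k => Vl 𝓤 P Q wt i t (J k)) ⟨(hO2s ht).1.1, hpi e1, hpi e2⟩
      exact mul_le_mul e6 e5 (norm_nonneg _) ((norm_nonneg _).trans e6)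
  · obtain ⟨-, -, -, f3, -⟩ := h.facts hT hLC (hO2s ht).2.1
    intro h0
    rw [h0] at f3
    have : (fun k => (0 : Fin N → ℂ) (J k)) = (0 : Fin d → ℂ) := rfl
    rw [this, map_zero] at f3
    apply h.hα
    rw [← f3, map_zero]

/-- positivity -/
theorem RV.pos (hT : TV T Λ a) {k : κ → ℕ} {S : Set (Mat N)} (hG : GVk T Λ a η k S)
    (h : RV T Λ a 𝓤 H ℓ α β B B' P Q φ ψ wt) {t : ℂ} (ht : H t ∉ S)
    (h0 : ∀ q i, H t i i ≠ 0 → Tf η k 𝓤 H P Q wt q i i t = 0) :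
    ∃ i, H t i i ≠ 0 ∧ Vl 𝓤 P Q wt i t = 0 := by
  obtain ⟨i, d, J, O, U, Ψ, W, hLC, hMO, hF⟩ := hG.pos (H t) (h.HT t) ht
  obtain ⟨hΨt, f1, f2, f3, f4⟩ := h.facts hT hLC hMO
  have hit := (hLC.2.2.2.2 _ hMO).1
  refine ⟨i, hit, ?_⟩
  by_cases hli : LinearIndependent ℂ ![(fun k => deriv (fun s => chart i (H s)) t (J k)),
    fun k => Vl 𝓤 P Q wt i t (J k)]
  · obtain ⟨q, hq⟩ := hF _ _ hli (by
      rw [f3]
      intro h1
      apply h.hα
      rw [h1, map_zero])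
    have h1 := h0 q i hit
    unfold Tf at h1
    rw [PM.chart_self hit, one_pow, mul_one] at h1
    rw [← hΨt, ← f1, ← f2] at hq
    exact absurd h1 hq
  · have h2 := lin2 (D := (ℓ α)⁻¹ • (ℓ.comp (fderiv ℂ W (fun k => chart i (H t) (J k))))) (by
      change (ℓ α)⁻¹ • ℓ (fderiv ℂ W (fun k => chart i (H t) (J k)) _) = 1
      rw [f3, smul_eq_mul, inv_mul_cancel₀ h.hα]) (by
      change (ℓ α)⁻¹ • ℓ (fderiv ℂ W (fun k => chart i (H t) (J k)) _) = 0
      rw [f4, smul_zero]) hli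
    rw [f2, h2]
    exact map_zero _

/-- the closure of the image of the limit curve -/
theorem RV.range_closure (hT : TV T Λ a) (h : RV T Λ a 𝓤 H ℓ α β B B' P Q φ ψ wt) :
    closure (range H) ⊆ T := by
  intro M0 hM0
  have hα0 : α ≠ 0 := fun h1 => h.hα (by rw [h1, map_zero])
  obtain ⟨x, hx, hxl⟩ := mem_closure_iff_seq_limit.1 hM0
  choose s hs using hx
  obtain ⟨D, hD⟩ := hT.coc
  choose l hlΛ hl using fun n => hD (s n • α + β)
  set V : Ultrafilter ℕ := hyperfilter ℕ with hV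
  set g : ℕ → ℂ → Mat N := fun n z => H (z + s n) with hg
  have hgd : ∀ n, HolP univ (g n) := fun n =>
    holP_comp_l h.hH ((differentiable_id.add_const (s n)).differentiableOn) isOpen_univ
      fun z _ => mem_univ _
  obtain ⟨G, hG, -, hGc, -⟩ := exists_limit hT.comp hT.csub (𝓤 := V) (K := B) hgd
    (fun n z => subset_closure (h.HT _)) (fun n z => by
      have e : fderiv ℝ (g n) z = fderiv ℝ H (z + s n) := by
        rw [hg]
        exact fderiv_comp_add_right (s n)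
      rw [e]
      exact h.HB _)
  obtain ⟨bl, -, hbl⟩ := exists_lim_v (𝓤 := V) (h := fun n => s n • α + β - l n)
    (Eventually.of_forall hl)
  obtain ⟨h1, -⟩ := hT.curve_in (𝓤 := V) (h := g) (H := G)
    (φ := fun n t => t • α + (s n • α + β - l n)) (Φ := fun t => t • α + bl)
    (fun L => Eventually.of_forall fun n => ⟨(hgd n).mono (subset_univ _), fun z _ =>
      ⟨h.HT _, by
        have e1 := Λ.sub_mem (h.Hov (z + s n)) (hlΛ n)
        have e2 : z • α + (s n • α + β - l n) - a (g n z) =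
            (z + s n) • α + β - a (H (z + s n)) - l n := by
          rw [add_smul]
          abel
        rw [e2]
        exact e1⟩⟩) hG hGc (by fun_prop)
    (fun z => tendsto_const_nhds.add hbl) ⟨1, fun h0 => hα0 (by simpa using h0)⟩
  have h2 : Tendsto (fun n => g n 0) (V : Filter ℕ) (𝓝 M0) := by
    have e : (fun n => g n 0) = x := by
      funext n
      change H (0 + s n) = x n
      rw [zero_add, hs]
    rw [e]
    refine hxl.mono_left ?_
    rw [← Nat.cofinite_eq_atTop]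
    exact hyperfilter_le_cofinite
  have h3 := tendsto_nhds_unique h2 (hGc.pointwise (mem_univ 0))
  rw [h3]
  exact h1 0

/-- **Rigidity.** -/
theorem rigid_v (hT : TV T Λ a) (hG : GV T Λ a η) (h : RV T Λ a 𝓤 H ℓ α β B B' P Q φ ψ wt)
    (hn : ∀ᶠ m in (𝓤 : Filter ℕ), 1 ≤ ‖Q m 0 - P m 0‖ * ‖wt m 0‖) : False := by
  obtain ⟨k, S, hG⟩ := hG
  have hα0 : α ≠ 0 := fun h1 => h.hα (by rw [h1, map_zero])
  choose idx hidx using fun t => PM.exists_diag (hT.sub (h.HT t))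
  set TT : κ → Fin N → ℂ → ℂ := fun q l t => Tf η k 𝓤 H P Q wt q (idx t) l t with hTT
  have hTTi : ∀ q i l t, H t i i ≠ 0 → TT q l t = Tf η k 𝓤 H P Q wt q i l t :=
    fun q i l t hi => h.Tf_indep hG hT.sub q l hi (hidx t)
  have hgΦ : Continuous (fun t => H t) := hp_cont h.hH
  have hana : ∀ q l, Differentiable ℂ (TT q l) := by
    intro q l t
    obtain ⟨O, i, hO, hMO, hOi, h1, -⟩ := h.loc hT hG (h.HT t)
    obtain ⟨C, h1⟩ := h1 q
    refine ((h1 l t hMO).1.congr ?_).differentiableAt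
    filter_upwards [hgΦ.continuousAt.eventually (hO.mem_nhds hMO)] with t' ht'
    exact (hTTi q i l t' (hOi _ ht')).symm
  have hrc := h.range_closure hT
  have hcR : IsCompact (closure (range H)) :=
    hT.comp.of_isClosed_subset isClosed_closure (closure_mono (by
      rintro _ ⟨z, rfl⟩
      exact h.HT z))
  have hbd : ∀ q, ∃ C : ℝ, ∀ t l, H t ∈ closure (range H) → ‖TT q l t‖ ≤ C := by
    intro q
    refine hcR.induction_on (p := fun s => ∃ C : ℝ, ∀ t l, H t ∈ s → ‖TT q l t‖ ≤ C)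
      ?_ ?_ ?_ ?_
    · exact ⟨0, fun t l ht => absurd ht (notMem_empty _)⟩
    · rintro s s' hss ⟨C, hC⟩
      exact ⟨C, fun t l ht => hC t l (hss ht)⟩
    · rintro s s' ⟨C, hC⟩ ⟨C', hC'⟩
      refine ⟨max C C', fun t l ht => ?_⟩
      rcases ht with ht | ht
      · exact (hC t l ht).trans (le_max_left _ _)
      · exact (hC' t l ht).trans (le_max_right _ _)
    · intro M hM
      obtain ⟨O, i, hO, hMO, hOi, h1, -⟩ := h.loc hT hG (hrc hM)
      obtain ⟨C, h1⟩ := h1 q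
      refine ⟨O, mem_nhdsWithin_of_mem_nhds (hO.mem_nhds hMO), C, fun t l ht => ?_⟩
      rw [hTTi q i l t (hOi _ ht)]
      exact (h1 l t ht).2
  have hconst : ∀ q l t s, TT q l t = TT q l s := by
    intro q l t s
    obtain ⟨C, hC⟩ := hbd q
    apply (hana q l).apply_eq_apply_of_bounded
    rw [isBounded_iff_forall_norm_le]
    refine ⟨C, ?_⟩
    rintro _ ⟨z, rfl⟩
    exact hC z l (subset_closure (mem_range_self _))
  -- all the functions vanish
  have hzero : ∀ t q i, H t i i ≠ 0 → Tf η k 𝓤 H P Q wt q i i t = 0 := by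
    intro t q i hit
    by_contra hne
    rw [← hTTi q i i t hit] at hne
    rcases Nat.le_one_iff_eq_zero_or_eq_one.1 (hG.kle q) with hk | hk
    · obtain ⟨t1, ht1⟩ := hG.zero q hk H α β hα0 h.hH h.HT h.Hov
      apply hne
      rw [hconst q i t t1]
      change Tf η k 𝓤 H P Q wt q (idx t1) i t1 = 0
      unfold Tf
      rw [ht1 _ (hidx t1), zero_mul]
    · obtain ⟨O, i', hO, hMO, hOi, -, h2⟩ := h.loc hT hG (h.HT t)
      have hev : ∀ᶠ s in 𝓝 t, H s ∈ O ∧ H s i i ≠ 0 :=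
        (hgΦ.continuousAt.eventually (hO.mem_nhds hMO)).and (h.ev_diag i hit).2
      -- the chart of the curve is locally constant
      have hx : ∀ᶠ s in 𝓝 t, chart i (H s) = fun l => TT q l t / TT q i t := by
        filter_upwards [hev] with s hs
        funext l
        rw [eq_div_iff hne, hconst q l t s, hconst q i t s, hTTi q i l s hs.2,
          hTTi q i i s hs.2]
        unfold Tf
        rw [hk, pow_one, pow_one, PM.chart_self hs.2]
        ring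
      have hx' : ∀ᶠ s in 𝓝 t, chart i' (H s) = chart i' (H t) := by
        have e0 := hx.self_of_nhds
        filter_upwards [hev, hx] with s hs hs'
        have e1 := chart_tr (hT.sub (h.HT s)) hs.2 (hOi _ hs.1)
        have e2 := chart_tr (hT.sub (h.HT t)) hit (hOi _ hMO)
        rw [e1, e2, hs', e0]
      have h4 : HasDerivAt (fun s => chart i' (H s)) 0 t :=
        (hasDerivAt_const t (chart i' (H t))).congr_of_eventuallyEq hx'
      exact h2 t hMO h4.deriv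
  -- the limit vector vanishes
  have hi0 := hidx 0
  have hV0 : Vl 𝓤 P Q wt (idx 0) 0 = 0 := by
    have hd := hG.dense H h.hH h.HT (by
      intro hcon
      obtain ⟨O, i', hO, hMO, hOi, -, h2⟩ := h.loc hT hG (h.HT 0)
      apply h2 0 hMO
      have e : (fun s => chart i' (H s)) = fun _ => chart i' (H 0) := by
        funext s
        rw [hcon s]
      rw [e]
      exact deriv_const _ _)
    have hfr : ∃ᶠ t in 𝓝 (0 : ℂ), t ∈ {t | H t ∉ S} := mem_closure_iff_frequently.1 (hd 0)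
    have hfr2 : ∃ᶠ t in 𝓝 (0 : ℂ), Vl 𝓤 P Q wt (idx 0) t = 0 := by
      refine (hfr.and_eventually (h.ev_diag _ hi0).2).mono fun t ht => ?_
      obtain ⟨i, hi, hVi⟩ := h.pos hT hG ht.1 fun q i hi => hzero t q i hi
      exact h.Vl_tr hT.sub hi ht.2 hVi
    by_contra hne
    have hc := (h.Vl_lim (idx 0) hi0).1.continuousAt
    exact hfr2 ((hc.eventually_ne hne).mono fun t ht => ht)
  obtain ⟨K, s, hs, hK⟩ := (contDiffAt_Phi (PM.chart_ne hi0)).exists_lipschitzOnWith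
  have hp : Tendsto (fun m => chart (idx 0) (P m 0)) 𝓤 (𝓝 (chart (idx 0) (H 0))) :=
    (continuousAt_chart hi0).tendsto.comp (h.cP.pointwise (mem_univ 0))
  have hq : Tendsto (fun m => chart (idx 0) (Q m 0)) 𝓤 (𝓝 (chart (idx 0) (H 0))) :=
    (continuousAt_chart hi0).tendsto.comp (h.cQ.pointwise (mem_univ 0))
  have h3 := ((h.Vl_ten (idx 0) hi0).norm).const_mul (K : ℝ)
  rw [hV0, norm_zero, mul_zero] at h3
  have h4 := h3.eventually_lt_const (u := 1) one_pos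
  obtain ⟨m, e1, e2, e3, e4, e5, hpt⟩ := (h4.and (hn.and ((hp.eventually hs).and
    ((hq.eventually hs).and ((h.ev_diag (idx 0) hi0).1.and (h.pt 0)))))).exists
  have e6 := hK.dist_le_mul _ e4 _ e3
  rw [dist_eq_norm, dist_eq_norm, PM.Phi_chart (hT.sub hpt.1) e5.1,
    PM.Phi_chart (hT.sub hpt.2.1) e5.2] at e6
  rw [norm_smul] at e1
  have e7 : ‖Q m 0 - P m 0‖ * ‖wt m 0‖ ≤
      (K : ℝ) * ‖chart (idx 0) (Q m 0) - chart (idx 0) (P m 0)‖ * ‖wt m 0‖ :=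
    mul_le_mul_of_nonneg_right e6 (norm_nonneg _)
  linarith

end Pool.Agent.N154.TC
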