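import Pool.Agent.N154.TC.EGeo

/-! Punctured discs in quasi-projective sets over abelian varieties, with an arbitrary exceptional
set and an arbitrary boundary. -/

set_option autoImplicit false

open Filter Topology Metric Set LinearAlgebra.Projectivization

namespace Pool.Agent.N154.TC

open Pool.Agent.N154.TB (Zeros CurveIn IsConst BrodyHyp HypFibres TwoForms Elliptic OverLine Factors)
open FF Pool.Agent.Y190.OP Pool.Agent.W602.GT
open Pool.Agent.N155 (TX isCompact_TX TX_PM exists_shift nz nz_Phi nz_codis val_eval)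
open Pool.Agent.N154.TT (HolToTorus RiemannForm)
open Pool.Agent.N154.GG (HolMap HolMapOn toProj holP_comp norm_fderiv_comp contDiffAt_chart
  Phi_rep_toProj proj_ext holMap_of holP_of kobayashi projDist
  isForm_prod val_prod doubly_periodic_not_dense Xi Extends PDisc HP isOpen_HP
  exp_mem_PDisc log_mem_HP toProj_Phi_rep holMapOn_of holP_remove holP_of_on tpi holP_comp_l
  hp_cont)

section

variable {N m : ℕ} {T T' : Set (Mat N)} {Λ : AddSubgroup (Fin m → ℂ)} {a : Mat N → Fin m → ℂ}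

/-- a nonconstant curve gives one with bounded derivative in its closure -/
theorem nonconst_bounded (hT : TV T Λ a) {P : ℂ → Mat N} (hP : HolP univ P)
    (hPT : ∀ z, P z ∈ T) (hne : ¬ ∀ z, P z = P 0) :
    ∃ Q : ℂ → Mat N, HolP univ Q ∧ (∀ z, Q z ∈ T ∩ closure (range P)) ∧
      (∀ z, ‖fderiv ℝ Q z‖ ≤ 2) ∧ ¬ ∀ z, Q z = Q 0 := by
  have hTm := hT.inter (isClosed_closure (s := range P))
  by_contra hcon
  push Not at hcon
  obtain ⟨C, hC, hbr⟩ := brody hTm.comp hTm.csub hTm.hz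
    (fun Q h1 h2 h3 => hcon Q h1 h2 h3)
  have hd : Differentiable ℝ P := fun z => hP.differentiableAt (mem_univ z)
  apply hne
  have hz : ∀ z, fderiv ℝ P z = 0 := by
    intro z
    have h1 : ∀ R : ℝ, 0 < R → ‖fderiv ℝ P z‖ ≤ C * (1 / R) := by
      intro R hR
      have hR' : (R : ℂ) ≠ 0 := by exact_mod_cast hR.ne'
      have hQ : HolP univ (fun t => P (z + (R : ℂ) * t)) := holP_comp hP (by fun_prop)
      have h2 := hbr (fun t => P (z + (R : ℂ) * t)) (hQ.mono (subset_univ _))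
        (fun w _ => ⟨hPT _, subset_closure ⟨_, rfl⟩⟩)
      have h3 := norm_fderiv_comp hQ (f := fun u : ℂ => (R : ℂ)⁻¹ * (u - z)) (by fun_prop) z
      have e1 : (fun u : ℂ => P (z + (R : ℂ) * ((R : ℂ)⁻¹ * (u - z)))) = P := by
        funext u
        congr 1
        rw [← mul_assoc, mul_inv_cancel₀ hR', one_mul]
        ring
      have e2 : deriv (fun u : ℂ => (R : ℂ)⁻¹ * (u - z)) z = (R : ℂ)⁻¹ := by
        have := ((hasDerivAt_id z).sub_const z).const_mul ((R : ℂ)⁻¹)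
        rw [mul_one] at this
        exact this.deriv
      rw [e1, e2, sub_self, mul_zero, norm_inv, Complex.norm_real, Real.norm_of_nonneg hR.le] at h3
      refine h3.trans ?_
      rw [one_div]
      exact mul_le_mul_of_nonneg_right h2 (by positivity)
    have h2 : ‖fderiv ℝ P z‖ ≤ 0 := by
      apply le_of_forall_pos_le_add
      intro ε hε
      have h3 := h1 (C / ε) (by positivity)
      have e : C * (1 / (C / ε)) = ε := by
        field_simp
      rw [e] at h3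
      linarith
    exact norm_le_zero_iff.1 h2
  intro z
  exact is_const_of_fderiv_eq_zero hd hz z 0

end

variable {n m : ℕ} {ι ι' ι'' A : Type} {F : ι → MvPolynomial (Fin (n + 1)) ℂ}
  {P : A → ι'' → MvPolynomial (Fin (n + 1)) ℂ}
  {G : ι' → MvPolynomial (Fin (n + 1)) ℂ} {d : ℕ} {L : Submodule ℤ (Fin m → ℂ)}
  {α : (Fin (n + 1) → ℂ) → (Fin m → ℂ) ⧸ L} {H : (Fin m → ℂ) → (Fin m → ℂ) → ℂ}
  {κ : Type} {k : κ → ℕ} {η : κ → (Fin (n + 1) → ℂ) → (Fin (n + 1) → ℂ) → (Fin (n + 1) → ℂ) → ℂ}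

/-- limits of points of the exceptional set -/
theorem SM_closure {M : Mat (n + 1)} {s : Set (Mat (n + 1))} (hs : s ⊆ SM (Zeros G))
    (hM : M ∈ closure s) : M ∈ SM (Zeros G) := by
  intro i hi j
  obtain ⟨x, hx, hxM⟩ := mem_closure_iff_seq_limit.1 hM
  have h1 : Tendsto (fun k => chart i (x k)) atTop (𝓝 (chart i M)) :=
    (contDiffAt_chart hi).continuousAt.tendsto.comp hxM
  have h2 : Tendsto (fun k => MvPolynomial.eval (chart i (x k)) (G j)) atTop
      (𝓝 (MvPolynomial.eval (chart i M) (G j))) :=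
    ((MvPolynomial.continuous_eval (G j)).tendsto _).comp h1
  have h3 : Tendsto (fun k => x k i i) atTop (𝓝 (M i i)) := by
    have h4 : Tendsto (fun k => x k i) atTop (𝓝 (M i)) := (continuous_apply i).tendsto M |>.comp hxM
    exact ((continuous_apply i).tendsto (M i)).comp h4
  have h5 : ∀ᶠ k in atTop, MvPolynomial.eval (chart i (x k)) (G j) = 0 := by
    filter_upwards [h3.eventually_ne hi] with k hk
    rw [← val_eval]
    exact hs (hx k) i hk j
  rw [val_eval]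
  exact tendsto_nhds_unique h2 ((tendsto_congr' h5).2 tendsto_const_nhds)

theorem dense_of2 {X : Set (Fin (n + 1) → ℂ)} (hX : Conic X) (hG : ∀ j, IsForm (G j))
    {T : Set (Mat (n + 1))} (hT : T ⊆ TS X)
    (hB : ∀ H : ℂ → Mat (n + 1), HolP univ H → (∀ z, H z ∈ T) → (∀ z, H z ∈ SM (Zeros G)) →
      ∀ z, H z = H 0) (H : ℂ → Mat (n + 1)) (hH : HolP univ H)
    (hHT : ∀ z, H z ∈ T) (hne : ¬ ∀ z, H z = H 0) : Dense {t | H t ∉ SM (Zeros G)} := by
  obtain ⟨z1, hz1⟩ : ∃ z, H z ∉ SM (Zeros G) := by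
    by_contra hcon
    push Not at hcon
    exact hne (hB H hH hHT hcon)
  obtain ⟨j, hj⟩ := exists_nz (TS_PM hX (hT (hHT z1))) hG hz1
  obtain ⟨e, he⟩ := hG j
  have h1 := nz_codis hH he hj
  refine dense_codis ?_
  filter_upwards [h1] with z hz
  exact not_SM (TS_PM hX (hT (hHT z))) (hG j) hz

/-- limits of maps lie in a stratum -/
theorem strat_of (hF : ∀ i, IsForm (F i)) (hP : ∀ a j, IsForm (P a j))
    (hloc : ∀ a, LocOne F (P a))
    (𝓤 : Ultrafilter ℕ)
    (h : ℕ → ℂ → Mat (n + 1)) (H : ℂ → Mat (n + 1)) (hh : ∀ L : ℝ, ∀ᶠ k in (𝓤 : Filter ℕ),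
      HolP (ball 0 L) (h k) ∧ ∀ z ∈ ball (0 : ℂ) L, h k z ∈ TS (Compl F P))
    (hH : HolP univ H) (hHc : CConv (𝓤 : Filter ℕ) univ h H) :
    (∀ z, H z ∈ TS (Compl F P)) ∨ ∃ I : Set A, I.Nonempty ∧ ∀ z, H z ∈ TS (Stratum F P I) := by
  have hX := cone_conic hF
  have hdich : ∀ a, (∀ z, H z ∈ TS (Cone F ∩ Zeros (P a))) ∨
      ∀ z, H z ∈ TS (Cone F \ Zeros (P a)) := fun a =>
    dich_of hF (hP a) (hloc a) (fun L => (hh L).mono fun k hk => ⟨hk.1, fun z hz => by
      obtain ⟨u, hu, e⟩ := hk.2 z hz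
      exact ⟨u, ⟨hu.1, hu.2 a⟩, e⟩⟩) hH hHc
  have hcl : ∀ z, H z ∈ TS (Cone F) := by
    intro z
    refine (isCompact_TF hF).isClosed.mem_of_tendsto (hHc.pointwise (mem_univ z)) ?_
    filter_upwards [hh (‖z‖ + 1)] with k hk
    obtain ⟨u, hu, hu'⟩ := hk.2 z (mem_ball_zero_iff.2 (by linarith))
    exact ⟨u, hu.1, hu'⟩
  -- a point of the curve lies on `D a` if and only if the whole curve does
  have hu : ∀ z (u : Fin (n + 1) → ℂ), u ∈ Cone F → H z = Phi u → ∀ a,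
      ((∀ z, H z ∈ TS (Cone F ∩ Zeros (P a))) ↔ u ∈ Zeros (P a)) := by
    intro z u hu e a
    have hcon : ∀ v : Fin (n + 1) → ℂ, v ≠ 0 → H z = Phi v →
        (v ∈ Zeros (P a) ↔ u ∈ Zeros (P a)) := by
      intro v hv e'
      rw [e] at e'
      obtain ⟨c, hc, hc'⟩ := Phi_inj hu.1 hv e'
      rw [hc']
      exact smul_Zeros_iff (hP a) hc
    constructor
    · intro h1
      obtain ⟨v, hv, e'⟩ := h1 z
      exact (hcon v hv.1.1 e').1 hv.2
    · intro h1
      rcases hdich a with h2 | h2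
      · exact h2
      · exfalso
        obtain ⟨v, hv, e'⟩ := h2 z
        exact hv.2 ((hcon v hv.1.1 e').2 h1)
  set I : Set A := {a | ∀ z, H z ∈ TS (Cone F ∩ Zeros (P a))} with hI
  have hmem : ∀ z, H z ∈ TS (Stratum F P I) := by
    intro z
    obtain ⟨u, huF, e⟩ := hcl z
    exact ⟨u, ⟨huF, fun a => hu z u huF e a⟩, e⟩
  rcases I.eq_empty_or_nonempty with h1 | h1
  · left
    intro z
    obtain ⟨u, huS, e⟩ := hmem z
    refine ⟨u, ⟨huS.1, fun a ha => ?_⟩, e⟩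
    have h2 := (huS.2 a).2 ha
    rw [h1] at h2
    exact h2
  · exact Or.inr ⟨I, h1, hmem⟩

/-- curves with bounded derivative, as maps to projective space -/
theorem toProj_curve {X : Set (Fin (n + 1) → ℂ)} (hX : Conic X)
    {Q : ℂ → Mat (n + 1)} (hPh : HolP univ Q) (hPX : ∀ z, Q z ∈ TS X)
    (hP2 : ∀ z, ‖fderiv ℝ Q z‖ ≤ 2) (hne : ¬ ∀ z, Q z = Q 0) :
    CurveIn X (fun z => toProj (Q z)) ∧ (¬ IsConst fun z => toProj (Q z)) ∧
      (∀ z w, projDist (toProj (Q z)) (toProj (Q w)) ≤ 2 * ‖z - w‖) := by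
  have hd : Differentiable ℝ Q := fun z => hPh.differentiableAt (mem_univ z)
  push Not at hne
  obtain ⟨z0, hz0⟩ := hne
  refine ⟨⟨holMap_of hPh, fun z => rep_toProj hX (hPX z)⟩, ?_, ?_⟩
  · intro hc
    apply hz0
    have h3 := congrArg (fun p : ℙ ℂ (Fin (n + 1) → ℂ) => Phi p.rep) (hc z0 0)
    change Phi (toProj (Q z0)).rep = Phi (toProj (Q 0)).rep at h3
    rwa [Phi_rep_toProj (TS_PM hX (hPX z0)), Phi_rep_toProj (TS_PM hX (hPX 0))] at h3
  · intro z w
    change ‖Phi (toProj (Q z)).rep - Phi (toProj (Q w)).rep‖ ≤ 2 * ‖z - w‖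
    rw [Phi_rep_toProj (TS_PM hX (hPX z)), Phi_rep_toProj (TS_PM hX (hPX w))]
    exact convex_univ.norm_image_sub_le_of_norm_fderiv_le (𝕜 := ℝ) (fun x _ => hd x)
      (fun x _ => hP2 x) (mem_univ w) (mem_univ z)

/-- **Punctured discs in quasi-projective sets over abelian varieties**, arbitrary exceptional sets
and boundaries -/
theorem open_pic_geoS [DiscreteTopology L] [IsZLattice ℝ L] (hF : ∀ i, IsForm (F i))
    (hPf : ∀ a i, IsForm (P a i))
    (hloc : ∀ a, LocOne F (P a)) (hGf : ∀ j, IsForm (G j))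
    (hη : TwoForms (Compl F P) (Zeros G) d α k η) (hα : HolToTorus (Cone F) L α)
    (hH : RiemannForm L H) {f : ℂ → ℙ ℂ (Fin (n + 1) → ℂ)} (hf : PunctX (Compl F P) f) :
    Extends F f ∨ (∃ g, CurveIn (Compl F P) g ∧ Elliptic g ∧ OverLine α g ∧
      (∃ s : ℂ → ℂ, DifferentiableOn ℂ s {z | z.re < 0} ∧
        ∀ z : ℂ, z.re < 0 → f (Complex.exp z) = g (s z)) ∧
      ∀ (K : Type) [Field K] [Algebra ℂ K] (w : ℕ) (y : Fin (n + 1) → K), 2 ≤ w →
        SubVar F K w y → Cone F ⊆ VarPts ℂ y →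
        ∃ Q : MvPolynomial (Fin (n + 1)) ℂ, IsForm Q ∧ val y Q ≠ 0 ∧
          ∀ z, val (g z).rep Q = 0) ∨
      ∃ h : ℂ → ℙ ℂ (Fin (n + 1) → ℂ), ¬ IsConst h ∧
        ((CurveIn (Compl F P) h ∧ (∀ z w, projDist (h z) (h w) ≤ 2 * ‖z - w‖) ∧
          ((∀ z w, α (h z).rep = α (h w).rep) ∨ ∀ z, (h z).rep ∈ Zeros G)) ∨
          ∃ I : Set A, I.Nonempty ∧ CurveIn (Stratum F P I) h) ∧
        ∀ z, ∀ ε > 0, ∃ w ∈ PDisc, projDist (h z) (f w) < ε := by
  classical
  have hZ := cone_conic hF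
  have hX := conic_compl hF hPf
  have hsub : Compl F P ⊆ Cone F := fun _ hx => hx.1
  have hZc : IsCompact (TS (Cone F)) := isCompact_TF hF
  set Q : ℂ → Mat (n + 1) := fun z => Phi (f z).rep with hQ
  have hQh : HolP PDisc Q := holP_of_on hf.1
  have hQT : ∀ z ∈ PDisc, Q z ∈ TS (Compl F P) := fun z hz => mem_TS (hf.2 z hz)
  set C : Set (Mat (n + 1)) := closure (Q '' PDisc) with hCd
  have hCc : IsClosed C := isClosed_closure
  have hnear : ∀ {h : ℂ → ℙ ℂ (Fin (n + 1) → ℂ)}, (∀ z, Phi (h z).rep ∈ C) →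
      ∀ z, ∀ ε > 0, ∃ w ∈ PDisc, projDist (h z) (f w) < ε := by
    intro h h5 z ε hε
    obtain ⟨_, ⟨w, hw, rfl⟩, hwd⟩ := Metric.mem_closure_iff.1 (h5 z) ε hε
    refine ⟨w, hw, ?_⟩
    change ‖Phi (h z).rep - Phi (f w).rep‖ < ε
    rw [← dist_eq_norm]
    exact hwd
  -- curves in the boundary
  by_cases hDl : ∀ (I : Set A) (H : ℂ → Mat (n + 1)), I.Nonempty → HolP univ H →
      (∀ z, H z ∈ TS (Stratum F P I)) → (∀ z, H z ∈ C) → ∀ z, H z = H 0
  swap
  · right
    right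
    push Not at hDl
    obtain ⟨I, H1, hI, h1, h2, h3, z0, h4⟩ := hDl
    have hXP := conic_stratum hF hPf I
    refine ⟨fun z => toProj (H1 z), fun hc => h4 ?_, Or.inr ⟨I, hI, holMap_of h1,
      fun z => rep_toProj hXP (h2 z)⟩, hnear fun z => ?_⟩
    · have h5 := congrArg (fun p : ℙ ℂ (Fin (n + 1) → ℂ) => Phi p.rep) (hc z0 0)
      change Phi (toProj (H1 z0)).rep = Phi (toProj (H1 0)).rep at h5
      rwa [Phi_rep_toProj (TS_PM hXP (h2 z0)), Phi_rep_toProj (TS_PM hXP (h2 0))] at h5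
    · rw [Phi_rep_toProj (TS_PM hXP (h2 z))]
      exact h3 z
  have hTm : TV (TS (Compl F P) ∩ C) (La L) (aM L α (Cone F)) := by
    refine td_of hZ hα hZc (inter_subset_left.trans (TS_mono hsub)) ?_
    intro 𝓤 h H1 h1 h2 h3 h4 z
    have hC' : ∀ z, H1 z ∈ C := by
      intro z
      refine hCc.mem_of_tendsto (h3.pointwise (mem_univ z)) ?_
      filter_upwards [h1 (‖z‖ + 1)] with n hn
      exact (hn.2 z (mem_ball_zero_iff.2 (by linarith))).2
    rcases strat_of hF hPf hloc 𝓤 h H1 (fun L => (h1 L).mono fun n hn =>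
      ⟨hn.1, fun z hz => (hn.2 z hz).1⟩) h2 h3 with h5 | ⟨I, hI, h5⟩
    · exact ⟨h5 z, hC' z⟩
    · exact absurd (hDl I H1 hI h2 h5 hC') h4
  -- curves in the exceptional set
  by_cases hB : ∀ H : ℂ → Mat (n + 1), HolP univ H → (∀ z, H z ∈ TS (Compl F P) ∩ C) →
      (∀ z, H z ∈ SM (Zeros G)) → ∀ z, H z = H 0
  swap
  · right
    right
    push Not at hB
    obtain ⟨H1, h1, h2, h3, z0, h4⟩ := hB
    obtain ⟨Q1, g1, g2, g3, g4⟩ := nonconst_bounded hTm h1 h2 (by
      push Not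
      exact ⟨z0, h4⟩)
    obtain ⟨g5, g6, g7⟩ := toProj_curve hX g1 (fun z => (g2 z).1.1) g3 g4
    refine ⟨_, g6, Or.inl ⟨g5, g7, Or.inr fun z => ?_⟩, hnear fun z => ?_⟩
    · have h10 : Q1 z ∈ SM (Zeros G) := SM_closure (by
        rintro _ ⟨w, rfl⟩
        exact h3 w) (g2 z).2
      have hPM : Q1 z ∈ PM := TS_PM hX (g2 z).1.1
      obtain ⟨i, hi⟩ := PM.exists_diag hPM
      have e3 : Conic (Compl F P ∩ Zeros G) := fun x hx => ⟨(hX x hx.1).1, fun c hc =>
        ⟨(hX x hx.1).2 c hc, Zeros_smul hGf x hx.2 c hc⟩⟩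
      exact (rep_toProj e3 ⟨chart i (Q1 z), ⟨TS_chart hX (g2 z).1.1 hi, h10 i hi⟩,
        (PM.Phi_chart hPM hi).symm⟩).2
    · rw [Phi_rep_toProj (TS_PM hX (g2 z).1.1)]
      exact (g2 z).1.2
  have hGm : GV (TS (Compl F P) ∩ C) (La L) (aM L α (Cone F)) η := ⟨k, SM (Zeros G),
    gd_of hX (Zeros_smul hGf) (torus_mono hsub hα)
      (fun M hM i hi => aM_chart hZ hα (TS_mono hsub hM) hi) hη inter_subset_left
      (dense_of2 hX hGf inter_subset_left hB)⟩
  set P1 : ℂ → Mat (n + 1) := fun z => Q (Complex.exp z) with hPdef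
  have hP : HolP HP P1 := holP_comp_l hQh Complex.differentiable_exp.differentiableOn isOpen_HP
    (fun z hz => exp_mem_PDisc hz)
  have hPT : ∀ z ∈ HP, P1 z ∈ TS (Compl F P) ∩ C := fun z hz =>
    ⟨hQT _ (exp_mem_PDisc hz), subset_closure ⟨_, exp_mem_PDisc hz, rfl⟩⟩
  have hper : ∀ z ∈ HP, P1 (z + tpi) = P1 z := by
    intro z _
    change Q (Complex.exp (z + tpi)) = Q (Complex.exp z)
    rw [show Complex.exp (z + tpi) = Complex.exp z from Complex.exp_periodic z]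
  by_cases hfib : Fib (TS (Compl F P) ∩ C) (La L) (aM L α (Cone F))
  · obtain ⟨C1, hC0, hC⟩ := gradient_l hTm hfib
    obtain ⟨r, v, β, ℓ, e, hE⟩ := exists_En hTm hGm hC0 hC (spl_of hH hTm hGm hC0 hC)
    obtain ⟨φ, hφ⟩ := exists_PD hTm hP hPT hper
    rcases hφ.picard hTm hfib hGm hE with ⟨M0, hM0, hlim⟩ | ⟨j, hj⟩
    · left
      have hM0' : M0 ∈ TS (Cone F) := closure_minimal
        (inter_subset_left.trans (TS_mono hsub)) hZc.isClosed hM0
      have hQext := holP_remove hQh (TS_PM hZ hM0') (by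
        intro ε hε
        obtain ⟨A, hA, hA'⟩ := hlim ε hε
        refine ⟨Real.exp (-A), Real.exp_pos _, fun z hz hzA => ?_⟩
        obtain ⟨h1, h2⟩ := log_mem_HP hz
        have h3 := hA' (Complex.log z) (by
          rw [Complex.log_re]
          rw [← Real.log_exp (-A)]
          exact Real.log_le_log (norm_pos_iff.2 hz.2) hzA.le)
        change ‖Q (Complex.exp (Complex.log z)) - M0‖ ≤ ε at h3
        rwa [h2] at h3)
      refine ⟨_, holMapOn_of hQext, fun z hz => rep_toProj hZ ?_, fun z hz => ?_⟩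
      · by_cases h0 : z = 0
        · rw [if_pos h0]
          exact hM0'
        · rw [if_neg h0]
          exact TS_mono hsub (hQT z ⟨hz, h0⟩)
      · have h0 : z ≠ 0 := hz.2
        rw [if_neg h0]
        exact toProj_Phi_rep _
    · right
      left
      have hv : v j ≠ 0 := fun h0 => by
        have := hE.one j
        rw [h0, map_zero] at this
        exact zero_ne_one this
      obtain ⟨p, q, hind, hp, hq⟩ := (hE.lin j).periods hTm hGm hC0 hC hv
      have heT : ∀ z, e j z ∈ TS (Compl F P) := fun z => ((hE.lin j).mem z).1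
      obtain ⟨h3, h4, h5, h6⟩ := ell_geo hF hPf hα (hE.lin j).hol heT (hE.lin j).ov hv hind hp hq
      refine ⟨fun z => toProj (e j z), h3, h4, h5,
        ⟨fun z => ℓ j (φ z), (ℓ j).differentiable.comp_differentiableOn hφ.dif, fun z hz => ?_⟩,
        h6⟩
      have h1 := hj z hz
      change Q (Complex.exp z) = e j (ℓ j (φ z)) at h1
      change f (Complex.exp z) = toProj (e j (ℓ j (φ z)))
      rw [← h1]
      exact (toProj_Phi_rep _).symm
  · right
    right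
    unfold Fib at hfib
    push Not at hfib
    obtain ⟨P0, c, hPh0, hPm0, hPo0, hz00⟩ := hfib
    obtain ⟨Q1, g1, g2, g3, hPo, g4⟩ := vert_bounded hTm hPh0 hPm0 hPo0 (by
      push Not
      exact hz00)
    obtain ⟨g5, g6, g7⟩ := toProj_curve hX g1 (fun z => (g2 z).1.1) g3 g4
    refine ⟨_, g6, Or.inl ⟨g5, g7, Or.inl fun z w => ?_⟩, hnear fun z => ?_⟩
    · rw [← aM_rep hZ hα (TS_mono hsub (g2 z).1.1), ← aM_rep hZ hα (TS_mono hsub (g2 w).1.1)]
      rw [← mem_La_iff.1 (hPo z), ← mem_La_iff.1 (hPo w)]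
    · rw [Phi_rep_toProj (TS_PM hX (g2 z).1.1)]
      exact (g2 z).1.2

end Pool.Agent.N154.TC
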