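import Pool.Agent.N154.TC.SGeo

/-! Punctured discs in closed subsets of quasi-projective sets over abelian varieties. -/

set_option autoImplicit false

open Filter Topology Metric Set LinearAlgebra.Projectivization

namespace Pool.Agent.N154.TC

open Pool.Agent.N154.TB (Zeros CurveIn IsConst BrodyHyp HypFibres TwoForms Elliptic OverLine Factors)
open FF Pool.Agent.Y190.OP Pool.Agent.W602.GT
open Pool.Agent.N155 (TX isCompact_TX TX_PM exists_shift nz nz_Phi nz_codis val_eval)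
open Pool.Agent.N154.TT (HolToTorus RiemannForm)
open Pool.Agent.N154.GG (HolMap HolMapOn toProj holP_comp norm_fderiv_comp contDiffAt_chart
  Phi_rep_toProj proj_ext holMap_of holP_of kobayashi projDist
  isForm_prod val_prod doubly_periodic_not_dense Xi Extends PDisc HP isOpen_HP
  exp_mem_PDisc log_mem_HP toProj_Phi_rep holMapOn_of holP_remove holP_of_on tpi holP_comp_l
  hp_cont)

variable {n m : ℕ} {ι ι' ι'' A : Type} {F : ι → MvPolynomial (Fin (n + 1)) ℂ}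
  {P : A → ι'' → MvPolynomial (Fin (n + 1)) ℂ}
  {G : ι' → MvPolynomial (Fin (n + 1)) ℂ} {d : ℕ} {L : Submodule ℤ (Fin m → ℂ)}
  {α : (Fin (n + 1) → ℂ) → (Fin m → ℂ) ⧸ L} {H : (Fin m → ℂ) → (Fin m → ℂ) → ℂ}
  {κ : Type} {k : κ → ℕ} {η : κ → (Fin (n + 1) → ℂ) → (Fin (n + 1) → ℂ) → (Fin (n + 1) → ℂ) → ℂ}

/-- **Punctured discs in closed subsets of quasi-projective sets over abelian varieties** -/
theorem open_closed_geo [DiscreteTopology L] [IsZLattice ℝ L] (hF : ∀ i, IsForm (F i))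
    (hPf : ∀ a i, IsForm (P a i))
    (hloc : ∀ a, LocOne F (P a)) (hGf : ∀ j, IsForm (G j))
    (hη : TwoForms (Compl F P) (Zeros G) d α k η) (hα : HolToTorus (Cone F) L α)
    (hH : RiemannForm L H) {V : Set (ℙ ℂ (Fin (n + 1) → ℂ))}
    (hVX : ∀ p ∈ V, p.rep ∈ Cone F)
    (hVc : ∀ p, (∀ ε > 0, ∃ q ∈ V, projDist p q < ε) → p ∈ V) :
    (∃ h : ℂ → ℙ ℂ (Fin (n + 1) → ℂ), ¬ IsConst h ∧ (∀ z, h z ∈ V) ∧
      ((CurveIn (Compl F P) h ∧ (∀ z w, projDist (h z) (h w) ≤ 2 * ‖z - w‖) ∧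
        ((∀ z w, α (h z).rep = α (h w).rep) ∨ ∀ z, (h z).rep ∈ Zeros G)) ∨
        ∃ I : Set A, I.Nonempty ∧ CurveIn (Stratum F P I) h)) ∨
    ∃ S : Set (ℂ → ℙ ℂ (Fin (n + 1) → ℂ)), S.Finite ∧
      (∀ g ∈ S, CurveIn (Compl F P) g ∧ (∀ z, g z ∈ V) ∧ Elliptic g ∧ OverLine α g) ∧
      (∀ f, PunctX (Compl F P) f → (∀ z ∈ PDisc, f z ∈ V) → Extends F f ∨ FactorsExp S f) ∧
      (∀ f, CurveIn (Compl F P) f → (∀ z, f z ∈ V) → IsConst f ∨ Factors S f) ∧
      ∀ (K : Type) [Field K] [Algebra ℂ K] (w : ℕ) (y : Fin (n + 1) → K), 2 ≤ w →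
        SubVar F K w y → Cone F ⊆ VarPts ℂ y →
        ∃ Q : MvPolynomial (Fin (n + 1)) ℂ, IsForm Q ∧ val y Q ≠ 0 ∧
          ∀ g ∈ S, ∀ z, val (g z).rep Q = 0 := by
  classical
  have hZ := cone_conic hF
  have hX := conic_compl hF hPf
  have hsub : Compl F P ⊆ Cone F := fun _ hx => hx.1
  have hZc : IsCompact (TS (Cone F)) := isCompact_TF hF
  set C : Set (Mat (n + 1)) := (fun p : ℙ ℂ (Fin (n + 1) → ℂ) => Phi p.rep) '' V with hCd
  have hCsub : C ⊆ TS (Cone F) := by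
    rintro _ ⟨p, hp, rfl⟩
    exact mem_TS (hVX p hp)
  have hmemV : ∀ M ∈ C, toProj M ∈ V := by
    rintro _ ⟨p, hp, rfl⟩
    change toProj (Phi p.rep) ∈ V
    rw [toProj_Phi_rep]
    exact hp
  have hCc : IsClosed C := by
    rw [← closure_subset_iff_isClosed]
    intro M hM
    have hM1 : M ∈ TS (Cone F) := closure_minimal hCsub hZc.isClosed hM
    refine ⟨toProj M, hVc _ fun ε hε => ?_, Phi_rep_toProj (TS_PM hZ hM1)⟩
    obtain ⟨_, ⟨q, hq, rfl⟩, hd⟩ := Metric.mem_closure_iff.1 hM ε hε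
    refine ⟨q, hq, ?_⟩
    change ‖Phi (toProj M).rep - Phi q.rep‖ < ε
    rw [Phi_rep_toProj (TS_PM hZ hM1), ← dist_eq_norm]
    exact hd
  -- curves in the boundary
  by_cases hDl : ∀ (I : Set A) (H : ℂ → Mat (n + 1)), I.Nonempty → HolP univ H →
      (∀ z, H z ∈ TS (Stratum F P I)) → (∀ z, H z ∈ C) → ∀ z, H z = H 0
  swap
  · left
    push Not at hDl
    obtain ⟨I, H1, hI, h1, h2, h3, z0, h4⟩ := hDl
    have hXP := conic_stratum hF hPf I
    refine ⟨fun z => toProj (H1 z), fun hc => h4 ?_, fun z => hmemV _ (h3 z),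
      Or.inr ⟨I, hI, holMap_of h1, fun z => rep_toProj hXP (h2 z)⟩⟩
    have h5 := congrArg (fun p : ℙ ℂ (Fin (n + 1) → ℂ) => Phi p.rep) (hc z0 0)
    change Phi (toProj (H1 z0)).rep = Phi (toProj (H1 0)).rep at h5
    rwa [Phi_rep_toProj (TS_PM hXP (h2 z0)), Phi_rep_toProj (TS_PM hXP (h2 0))] at h5
  have hTm : TV (TS (Compl F P) ∩ C) (La L) (aM L α (Cone F)) := by
    refine td_of hZ hα hZc (inter_subset_left.trans (TS_mono hsub)) ?_
    intro 𝓤 h H1 h1 h2 h3 h4 z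
    have hC' : ∀ z, H1 z ∈ C := by
      intro z
      refine hCc.mem_of_tendsto (h3.pointwise (mem_univ z)) ?_
      filter_upwards [h1 (‖z‖ + 1)] with n hn
      exact (hn.2 z (mem_ball_zero_iff.2 (by linarith))).2
    rcases strat_of hF hPf hloc 𝓤 h H1 (fun L => (h1 L).mono fun n hn =>
      ⟨hn.1, fun z hz => (hn.2 z hz).1⟩) h2 h3 with h5 | ⟨I, hI, h5⟩
    · exact ⟨h5 z, hC' z⟩
    · exact absurd (hDl I H1 hI h2 h5 hC') h4
  -- curves in the exceptional set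
  by_cases hB : ∀ H : ℂ → Mat (n + 1), HolP univ H → (∀ z, H z ∈ TS (Compl F P) ∩ C) →
      (∀ z, H z ∈ SM (Zeros G)) → ∀ z, H z = H 0
  swap
  · left
    push Not at hB
    obtain ⟨H1, h1, h2, h3, z0, h4⟩ := hB
    obtain ⟨Q1, g1, g2, g3, g4⟩ := nonconst_bounded hTm h1 h2 (by
      push Not
      exact ⟨z0, h4⟩)
    obtain ⟨g5, g6, g7⟩ := toProj_curve hX g1 (fun z => (g2 z).1.1) g3 g4
    refine ⟨_, g6, fun z => hmemV _ (g2 z).1.2, Or.inl ⟨g5, g7, Or.inr fun z => ?_⟩⟩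
    have h10 : Q1 z ∈ SM (Zeros G) := SM_closure (by
      rintro _ ⟨w, rfl⟩
      exact h3 w) (g2 z).2
    have hPM : Q1 z ∈ PM := TS_PM hX (g2 z).1.1
    obtain ⟨i, hi⟩ := PM.exists_diag hPM
    have e3 : Conic (Compl F P ∩ Zeros G) := fun x hx => ⟨(hX x hx.1).1, fun c hc =>
      ⟨(hX x hx.1).2 c hc, Zeros_smul hGf x hx.2 c hc⟩⟩
    exact (rep_toProj e3 ⟨chart i (Q1 z), ⟨TS_chart hX (g2 z).1.1 hi, h10 i hi⟩,
      (PM.Phi_chart hPM hi).symm⟩).2
  have hGm : GV (TS (Compl F P) ∩ C) (La L) (aM L α (Cone F)) η := ⟨k, SM (Zeros G),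
    gd_of hX (Zeros_smul hGf) (torus_mono hsub hα)
      (fun M hM i hi => aM_chart hZ hα (TS_mono hsub hM) hi) hη inter_subset_left
      (dense_of2 hX hGf inter_subset_left hB)⟩
  by_cases hfib : Fib (TS (Compl F P) ∩ C) (La L) (aM L α (Cone F))
  swap
  · left
    unfold Fib at hfib
    push Not at hfib
    obtain ⟨P0, c, hPh0, hPm0, hPo0, hz00⟩ := hfib
    obtain ⟨Q1, g1, g2, g3, hPo, g4⟩ := vert_bounded hTm hPh0 hPm0 hPo0 (by
      push Not
      exact hz00)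
    obtain ⟨g5, g6, g7⟩ := toProj_curve hX g1 (fun z => (g2 z).1.1) g3 g4
    refine ⟨_, g6, fun z => hmemV _ (g2 z).1.2, Or.inl ⟨g5, g7, Or.inl fun z w => ?_⟩⟩
    rw [← aM_rep hZ hα (TS_mono hsub (g2 z).1.1), ← aM_rep hZ hα (TS_mono hsub (g2 w).1.1)]
    rw [← mem_La_iff.1 (hPo z), ← mem_La_iff.1 (hPo w)]
  right
  obtain ⟨C1, hC0, hC⟩ := gradient_l hTm hfib
  obtain ⟨r, v, β, ℓ, e, hE⟩ := exists_En hTm hGm hC0 hC (spl_of hH hTm hGm hC0 hC)
  have hvne : ∀ j, v j ≠ 0 := fun j h0 => by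
    have := hE.one j
    rw [h0, map_zero] at this
    exact zero_ne_one this
  have heT : ∀ j z, e j z ∈ TS (Compl F P) := fun j z => ((hE.lin j).mem z).1
  have hell : ∀ j, CurveIn (Compl F P) (fun z => toProj (e j z)) ∧
      Elliptic (fun z => toProj (e j z)) ∧ OverLine α (fun z => toProj (e j z)) ∧
      ∀ (K : Type) [Field K] [Algebra ℂ K] (w : ℕ) (y : Fin (n + 1) → K), 2 ≤ w →
        SubVar F K w y → Cone F ⊆ VarPts ℂ y →
        ∃ Q : MvPolynomial (Fin (n + 1)) ℂ, IsForm Q ∧ val y Q ≠ 0 ∧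
          ∀ z, val (toProj (e j z)).rep Q = 0 := by
    intro j
    obtain ⟨p, q, hind, hp, hq⟩ := (hE.lin j).periods hTm hGm hC0 hC (hvne j)
    exact ell_geo hF hPf hα (hE.lin j).hol (heT j) (hE.lin j).ov (hvne j) hind hp hq
  refine ⟨range fun (j : Fin r) (z : ℂ) => toProj (e j z), finite_range _, ?_, ?_, ?_, ?_⟩
  · rintro _ ⟨j, rfl⟩
    exact ⟨(hell j).1, fun z => hmemV _ ((hE.lin j).mem z).2, (hell j).2.1, (hell j).2.2.1⟩
  · intro f hf hfV
    set Q : ℂ → Mat (n + 1) := fun z => Phi (f z).rep with hQ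
    have hQh : HolP PDisc Q := holP_of_on hf.1
    have hQT : ∀ z ∈ PDisc, Q z ∈ TS (Compl F P) := fun z hz => mem_TS (hf.2 z hz)
    set P1 : ℂ → Mat (n + 1) := fun z => Q (Complex.exp z) with hPdef
    have hP : HolP HP P1 := holP_comp_l hQh Complex.differentiable_exp.differentiableOn isOpen_HP
      (fun z hz => exp_mem_PDisc hz)
    have hPT : ∀ z ∈ HP, P1 z ∈ TS (Compl F P) ∩ C := fun z hz =>
      ⟨hQT _ (exp_mem_PDisc hz), ⟨_, hfV _ (exp_mem_PDisc hz), rfl⟩⟩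
    have hper : ∀ z ∈ HP, P1 (z + tpi) = P1 z := by
      intro z _
      change Q (Complex.exp (z + tpi)) = Q (Complex.exp z)
      rw [show Complex.exp (z + tpi) = Complex.exp z from Complex.exp_periodic z]
    obtain ⟨φ, hφ⟩ := exists_PD hTm hP hPT hper
    rcases hφ.picard hTm hfib hGm hE with ⟨M0, hM0, hlim⟩ | ⟨j, hj⟩
    · left
      have hM0' : M0 ∈ TS (Cone F) := closure_minimal
        (inter_subset_left.trans (TS_mono hsub)) hZc.isClosed hM0
      have hQext := holP_remove hQh (TS_PM hZ hM0') (by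
        intro ε hε
        obtain ⟨A, hA, hA'⟩ := hlim ε hε
        refine ⟨Real.exp (-A), Real.exp_pos _, fun z hz hzA => ?_⟩
        obtain ⟨h1, h2⟩ := log_mem_HP hz
        have h3 := hA' (Complex.log z) (by
          rw [Complex.log_re]
          rw [← Real.log_exp (-A)]
          exact Real.log_le_log (norm_pos_iff.2 hz.2) hzA.le)
        change ‖Q (Complex.exp (Complex.log z)) - M0‖ ≤ ε at h3
        rwa [h2] at h3)
      refine ⟨_, holMapOn_of hQext, fun z hz => rep_toProj hZ ?_, fun z hz => ?_⟩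
      · by_cases h0 : z = 0
        · rw [if_pos h0]
          exact hM0'
        · rw [if_neg h0]
          exact TS_mono hsub (hQT z ⟨hz, h0⟩)
      · have h0 : z ≠ 0 := hz.2
        rw [if_neg h0]
        exact toProj_Phi_rep _
    · right
      refine ⟨_, ⟨j, rfl⟩, fun z => ℓ j (φ z),
        (ℓ j).differentiable.comp_differentiableOn hφ.dif, fun z hz => ?_⟩
      have h1 := hj z hz
      change Q (Complex.exp z) = e j (ℓ j (φ z)) at h1
      change f (Complex.exp z) = toProj (e j (ℓ j (φ z)))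
      rw [← h1]
      exact (toProj_Phi_rep _).symm
  · intro f hf hfV
    have hPT' : ∀ z, Phi (f z).rep ∈ TS (Compl F P) ∩ C := fun z =>
      ⟨mem_TS (hf.2 z), ⟨f z, hfV z, rfl⟩⟩
    obtain ⟨φ, hφ, ho⟩ := hTm.exists_lift (holP_of hf.1) hPT'
    rcases entire_eq hTm hfib hGm hE (holP_of hf.1) hPT' hφ ho with h2 | ⟨j, h2⟩
    · left
      intro z w
      exact proj_ext ((h2 z).trans (h2 w).symm)
    · right
      refine ⟨_, ⟨j, rfl⟩, fun z => ℓ j (φ z), (ℓ j).differentiable.comp hφ,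
        fun z => proj_ext ?_⟩
      change _ = Phi (toProj (e j (ℓ j (φ z)))).rep
      rw [Phi_rep_toProj (TS_PM hX (heT j _))]
      exact h2 z
  · intro K _ _ w y hw hsv hirr
    choose G hG1 hG2 hG3 using fun j => (hell j).2.2.2 K w y hw hsv hirr
    refine ⟨∏ j, G j, isForm_prod _ _ fun j _ => hG1 j, ?_, ?_⟩
    · rw [val_prod, Finset.prod_ne_zero_iff]
      exact fun j _ => hG2 j
    · rintro _ ⟨j, rfl⟩ z
      rw [val_prod, Finset.prod_eq_zero_iff]
      exact ⟨j, Finset.mem_univ j, hG3 j z⟩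

end Pool.Agent.N154.TC
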